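import Mathlib

/-! Van der Corput method in finite differences. Files W1-W5 of MP_648c71_nt/HP (helper77, proved by helper92,
helper86, helper87, helper28, helper75), copied here with another namespace. -/

set_option autoImplicit false

namespace Pool.Agent.Lib.MP_4ae430_nt

/-- `e(t) = exp(2 π i t)` -/
noncomputable def ee (t : ℝ) : ℂ := Complex.exp (((2 * Real.pi * t : ℝ) : ℂ) * Complex.I)

theorem ee_add (x y : ℝ) : ee (x + y) = ee x * ee y := by
  rw [ee, ee, ee, ← Complex.exp_add]; congr 1; push_cast; ring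

theorem norm_ee (x : ℝ) : ‖ee x‖ = 1 := by
  rw [ee, Complex.norm_exp_ofReal_mul_I]

theorem ee_zero : ee 0 = 1 := by simp [ee]

theorem ee_neg (x : ℝ) : ee (-x) = (starRingEnd ℂ) (ee x) := by
  rw [ee, ee, ← Complex.exp_conj]; congr 1
  rw [map_mul, Complex.conj_ofReal, Complex.conj_I]; push_cast; ring

end Pool.Agent.Lib.MP_4ae430_nt

section
/-! Row W1 (about 90 lines): the van der Corput inequality. -/

set_option autoImplicit false

namespace Pool.Agent.Lib.MP_4ae430_nt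

open Finset MeasureTheory

private lemma w1_sum_shift (N H h : ℕ) (hh : h < H) (F : ℕ → ℂ) :
    ∑ m ∈ range (N + H), (if h ≤ m ∧ m - h < N then F (m - h) else 0) = ∑ n ∈ range N, F n := by
  rw [← Finset.sum_filter]
  symm
  refine Finset.sum_bij (fun n _ => n + h) ?_ ?_ ?_ ?_
  · intro n hn
    simp only [mem_range, mem_filter] at hn ⊢
    omega
  · intro a _ b _ hab
    simpa using hab
  · intro m hm
    simp only [mem_range, mem_filter] at hm
    refine ⟨m - h, ?_, ?_⟩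
    · simp only [mem_range]; omega
    · show m - h + h = m
      omega
  · intro n _
    rw [Nat.add_sub_cancel]

private lemma w1_corr (N H h h' : ℕ) (hh : h < h') (hH : h' < H) (u : ℕ → ℂ) :
    ∑ m ∈ range (N + H), (if h ≤ m ∧ m - h < N then u (m - h) else 0) *
      (starRingEnd ℂ) (if h' ≤ m ∧ m - h' < N then u (m - h') else 0) =
    ∑ n ∈ range (N - (h' - h)), u (n + (h' - h)) * (starRingEnd ℂ) (u n) := by
  have h1 : ∀ m ∈ range (N + H), (if h ≤ m ∧ m - h < N then u (m - h) else 0) *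
      (starRingEnd ℂ) (if h' ≤ m ∧ m - h' < N then u (m - h') else 0) =
      (if h' ≤ m ∧ m - h < N then u (m - h) * (starRingEnd ℂ) (u (m - h')) else 0) := by
    intro m _
    by_cases c1 : h' ≤ m ∧ m - h < N
    · rw [if_pos c1, if_pos ⟨by omega, c1.2⟩, if_pos ⟨c1.1, by omega⟩]
    · rw [if_neg c1]
      by_cases c2 : h' ≤ m ∧ m - h' < N
      · have c3 : ¬ (h ≤ m ∧ m - h < N) := by omega
        rw [if_neg c3, zero_mul]
      · rw [if_neg c2, map_zero, mul_zero]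
  rw [Finset.sum_congr rfl h1, ← Finset.sum_filter]
  symm
  refine Finset.sum_bij (fun n _ => n + h') ?_ ?_ ?_ ?_
  · intro n hn
    simp only [mem_range, mem_filter] at hn ⊢
    omega
  · intro a _ b _ hab
    simpa using hab
  · intro m hm
    simp only [mem_range, mem_filter] at hm
    refine ⟨m - h', ?_, ?_⟩
    · simp only [mem_range]; omega
    · show m - h' + h' = m
      omega
  · intro n _
    rw [Nat.add_sub_cancel]
    congr 2
    omega

/-- ROW W1.  Extend `u` by zero outside `[0,N)`.  `H ∑ u = ∑_{m < N+H} ∑_{h<H} u(m-h)`, Cauchy-Schwarz gives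
`|H ∑ u|² ≤ (N+H) ∑_m |∑_h u(m-h)|² = (N+H) ∑_{h,h'} ∑_m u(m-h) conj(u(m-h'))
≤ 2N (H N + 2 ∑_{r=1}^{H-1} (H-r) |∑_n u(n+r) conj(u n)|)`; divide by `H²`. -/
theorem vdc (N H : ℕ) (hH : 0 < H) (hHN : H ≤ N) (u : ℕ → ℂ) (hu : ∀ n, ‖u n‖ ≤ 1) :
    ‖∑ n ∈ range N, u n‖ ^ 2 ≤ 2 * (N : ℝ) ^ 2 / H + 4 * N / H *
      ∑ h ∈ Ico 1 H, ‖∑ n ∈ range (N - h), u (n + h) * (starRingEnd ℂ) (u n)‖ := by
  set w : ℕ → ℕ → ℂ := fun m h => if h ≤ m ∧ m - h < N then u (m - h) else 0 with hw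
  set b : ℕ → ℝ := fun r => ‖∑ n ∈ range (N - r), u (n + r) * (starRingEnd ℂ) (u n)‖ with hb
  set S := ∑ n ∈ range N, u n with hS
  set B := ∑ r ∈ Ico 1 H, b r with hB
  have hb0 : ∀ r, 0 ≤ b r := fun r => norm_nonneg _
  have hB0 : 0 ≤ B := Finset.sum_nonneg fun r _ => hb0 r
  have hHS : (H : ℂ) * S = ∑ m ∈ range (N + H), ∑ h ∈ range H, w m h := by
    rw [Finset.sum_comm]
    rw [Finset.sum_congr rfl (fun h hh => w1_sum_shift N H h (mem_range.1 hh) u)]
    simp [hS]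
  have hnb : b 0 ≤ N := by
    simp only [hb]
    refine (norm_sum_le _ _).trans ?_
    calc ∑ i ∈ range (N - 0), ‖u (i + 0) * (starRingEnd ℂ) (u i)‖ ≤ ∑ i ∈ range (N - 0), (1 : ℝ) := by
          refine Finset.sum_le_sum fun i _ => ?_
          rw [norm_mul, RCLike.norm_conj]
          exact mul_le_one₀ (hu _) (norm_nonneg _) (hu _)
      _ = N := by simp
  -- correlation
  have hA : ∀ h ∈ range H, ∀ h' ∈ range H,
      ‖∑ m ∈ range (N + H), w m h * (starRingEnd ℂ) (w m h')‖ = b (if h < h' then h' - h else h - h') := by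
    intro h hh h' hh'
    rw [mem_range] at hh hh'
    rcases lt_trichotomy h h' with hlt | heq | hgt
    · rw [if_pos hlt, w1_corr N H h h' hlt hh' u]
    · subst heq
      rw [if_neg (lt_irrefl _), Nat.sub_self]
      have : ∀ m ∈ range (N + H), w m h * (starRingEnd ℂ) (w m h) =
          if h ≤ m ∧ m - h < N then u (m - h) * (starRingEnd ℂ) (u (m - h)) else 0 := by
        intro m _
        simp only [hw]
        split_ifs <;> simp
      rw [Finset.sum_congr rfl this, w1_sum_shift N H h hh (fun n => u n * (starRingEnd ℂ) (u n))]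
      simp [hb]
    · rw [if_neg (by omega)]
      have : ∑ m ∈ range (N + H), w m h * (starRingEnd ℂ) (w m h') =
          (starRingEnd ℂ) (∑ m ∈ range (N + H), w m h' * (starRingEnd ℂ) (w m h)) := by
        rw [map_sum]
        refine Finset.sum_congr rfl fun m _ => ?_
        rw [map_mul, Complex.conj_conj, mul_comm]
      rw [this, RCLike.norm_conj, w1_corr N H h' h hgt hh u]
  have hrow : ∀ h ∈ range H, ∑ h' ∈ range H, b (if h < h' then h' - h else h - h') ≤ N + 2 * B := by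
    intro h hh
    rw [mem_range] at hh
    have hsplit : range H = (range h) ∪ ({h} ∪ Ico (h + 1) H) := by
      ext x; simp only [mem_range, mem_union, mem_singleton, mem_Ico]; omega
    have hd1 : Disjoint (range h) ({h} ∪ Ico (h + 1) H) := by
      rw [Finset.disjoint_left]; intro x hx; simp only [mem_range, mem_union, mem_singleton, mem_Ico] at hx ⊢; omega
    have hd2 : Disjoint ({h} : Finset ℕ) (Ico (h + 1) H) := by
      rw [Finset.disjoint_left]; intro x hx; simp only [mem_singleton, mem_Ico] at hx ⊢; omega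
    rw [hsplit, Finset.sum_union hd1, Finset.sum_union hd2, Finset.sum_singleton]
    have e1 : ∑ x ∈ range h, b (if h < x then x - h else h - x) ≤ B := by
      have : ∑ x ∈ range h, b (if h < x then x - h else h - x) = ∑ y ∈ (range h).image (fun x => h - x), b y := by
        rw [Finset.sum_image]
        · refine Finset.sum_congr rfl fun x hx => ?_
          rw [mem_range] at hx
          rw [if_neg (by omega)]
        · intro x hx y hy hxy
          simp only [coe_range, Set.mem_Iio] at hx hy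
          simp only at hxy
          omega
      rw [this]
      refine Finset.sum_le_sum_of_subset_of_nonneg ?_ fun i _ _ => hb0 i
      intro y hy
      simp only [mem_image, mem_range, mem_Ico] at hy ⊢
      obtain ⟨x, hx, rfl⟩ := hy
      omega
    have e2 : ∑ x ∈ Ico (h + 1) H, b (if h < x then x - h else h - x) ≤ B := by
      have : ∑ x ∈ Ico (h + 1) H, b (if h < x then x - h else h - x) = ∑ y ∈ (Ico (h + 1) H).image (fun x => x - h), b y := by
        rw [Finset.sum_image]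
        · refine Finset.sum_congr rfl fun x hx => ?_
          rw [mem_Ico] at hx
          rw [if_pos (by omega)]
        · intro x hx y hy hxy
          simp only [coe_Ico, Set.mem_Ico] at hx hy
          simp only at hxy
          omega
      rw [this]
      refine Finset.sum_le_sum_of_subset_of_nonneg ?_ fun i _ _ => hb0 i
      intro y hy
      simp only [mem_image, mem_Ico] at hy ⊢
      obtain ⟨x, hx, rfl⟩ := hy
      omega
    have e3 : b (if h < h then h - h else h - h) ≤ N := by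
      rw [if_neg (lt_irrefl _), Nat.sub_self]; exact hnb
    linarith
  -- Cauchy-Schwarz
  have hCS : ‖(H : ℂ) * S‖ ^ 2 ≤ ((N + H : ℕ) : ℝ) * ∑ m ∈ range (N + H), ‖∑ h ∈ range H, w m h‖ ^ 2 := by
    rw [hHS]
    have h1 : ‖∑ m ∈ range (N + H), ∑ h ∈ range H, w m h‖ ≤ ∑ m ∈ range (N + H), ‖∑ h ∈ range H, w m h‖ :=
      norm_sum_le _ _
    have h2 := sq_sum_le_card_mul_sum_sq (s := range (N + H)) (f := fun m => ‖∑ h ∈ range H, w m h‖)
    rw [card_range] at h2
    exact (pow_le_pow_left₀ (norm_nonneg _) h1 2).trans h2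
  have hsq : ∑ m ∈ range (N + H), ‖∑ h ∈ range H, w m h‖ ^ 2 ≤ H * (N + 2 * B) := by
    have h1 : ((∑ m ∈ range (N + H), ‖∑ h ∈ range H, w m h‖ ^ 2 : ℝ) : ℂ) =
        ∑ h ∈ range H, ∑ h' ∈ range H, ∑ m ∈ range (N + H), w m h * (starRingEnd ℂ) (w m h') := by
      push_cast
      have : ∀ m ∈ range (N + H), ((‖∑ h ∈ range H, w m h‖ : ℂ)) ^ 2 =
          ∑ h ∈ range H, ∑ h' ∈ range H, w m h * (starRingEnd ℂ) (w m h') := by
        intro m _
        rw [← Complex.mul_conj', map_sum, Finset.sum_mul_sum]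
      rw [Finset.sum_congr rfl this, Finset.sum_comm]
      refine Finset.sum_congr rfl fun h _ => ?_
      rw [Finset.sum_comm]
    have h2 : ∑ m ∈ range (N + H), ‖∑ h ∈ range H, w m h‖ ^ 2 =
        ‖∑ h ∈ range H, ∑ h' ∈ range H, ∑ m ∈ range (N + H), w m h * (starRingEnd ℂ) (w m h')‖ := by
      rw [← h1, Complex.norm_real, Real.norm_of_nonneg]
      exact Finset.sum_nonneg fun m _ => by positivity
    rw [h2]
    refine (norm_sum_le _ _).trans ?_
    calc ∑ h ∈ range H, ‖∑ h' ∈ range H, ∑ m ∈ range (N + H), w m h * (starRingEnd ℂ) (w m h')‖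
        ≤ ∑ h ∈ range H, ((N : ℝ) + 2 * B) := by
          refine Finset.sum_le_sum fun h hh => ?_
          refine (norm_sum_le _ _).trans ?_
          rw [Finset.sum_congr rfl (fun h' hh' => hA h hh h' hh')]
          exact hrow h hh
      _ = H * (N + 2 * B) := by rw [Finset.sum_const, card_range, nsmul_eq_mul]
  have hH' : (0 : ℝ) < H := by exact_mod_cast hH
  have hHN' : (H : ℝ) ≤ N := by exact_mod_cast hHN
  have hfin : (H : ℝ) ^ 2 * ‖S‖ ^ 2 ≤ 2 * N * (H * (N + 2 * B)) := by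
    have e : ‖(H : ℂ) * S‖ ^ 2 = (H : ℝ) ^ 2 * ‖S‖ ^ 2 := by
      rw [norm_mul, mul_pow, Complex.norm_natCast]
    rw [← e]
    refine hCS.trans ?_
    have h3 : ((N + H : ℕ) : ℝ) ≤ 2 * N := by push_cast; linarith
    have h4 : 0 ≤ ∑ m ∈ range (N + H), ‖∑ h ∈ range H, w m h‖ ^ 2 :=
      Finset.sum_nonneg fun m _ => by positivity
    exact mul_le_mul h3 hsq h4 (by positivity)
  have hgoal : 2 * (N : ℝ) ^ 2 / H + 4 * N / H * B = (2 * N * (H * (N + 2 * B))) / (H : ℝ) ^ 2 := by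
    field_simp
    ring
  rw [hgoal, le_div_iff₀ (by positivity)]
  linarith

end Pool.Agent.Lib.MP_4ae430_nt
end

section
/-! Row W2 (about 120 lines): the Kusmin-Landau inequality, discrete form. -/

set_option autoImplicit false

namespace Pool.Agent.Lib.MP_4ae430_nt

open Finset MeasureTheory

/-- finite difference -/
def dl (a : ℕ → ℝ) : ℕ → ℝ := fun n => a (n + 1) - a n

theorem w2_abel (u : ℕ → ℂ) (c : ℕ → ℝ) (m : ℕ) :
    ∑ n ∈ range (m + 1), (u (n + 1) - u n) * (c n : ℂ) =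
      u (m + 1) * (c m : ℂ) - u 0 * (c 0 : ℂ) -
        ∑ n ∈ range m, u (n + 1) * ((c (n + 1) - c n : ℝ) : ℂ) := by
  induction m with
  | zero => simp; ring
  | succ m ih =>
    rw [sum_range_succ, ih, sum_range_succ (fun n => u (n + 1) * ((c (n + 1) - c n : ℝ) : ℂ)) m]
    push_cast
    ring

theorem w2_bound (u : ℕ → ℂ) (hu : ∀ n, ‖u n‖ ≤ 1) (c : ℕ → ℝ) (K : ℝ) (m : ℕ)
    (h0 : ∀ n, n ≤ m → 0 ≤ c n) (hK : ∀ n, n ≤ m → c n ≤ K)
    (hmono : (∀ n, n < m → c n ≤ c (n + 1)) ∨ (∀ n, n < m → c (n + 1) ≤ c n)) :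
    ‖∑ n ∈ range (m + 1), (u (n + 1) - u n) * (c n : ℂ)‖ ≤ 2 * K := by
  rw [w2_abel]
  have h1 : ‖u (m + 1) * (c m : ℂ)‖ ≤ c m := by
    rw [norm_mul, Complex.norm_real, Real.norm_of_nonneg (h0 m le_rfl)]
    calc ‖u (m + 1)‖ * c m ≤ 1 * c m := by
          gcongr
          · exact h0 m le_rfl
          · exact hu _
      _ = c m := one_mul _
  have h2 : ‖u 0 * (c 0 : ℂ)‖ ≤ c 0 := by
    rw [norm_mul, Complex.norm_real, Real.norm_of_nonneg (h0 0 (Nat.zero_le _))]
    calc ‖u 0‖ * c 0 ≤ 1 * c 0 := by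
          gcongr
          · exact h0 0 (Nat.zero_le _)
          · exact hu _
      _ = c 0 := one_mul _
  have h3 : ‖∑ n ∈ range m, u (n + 1) * ((c (n + 1) - c n : ℝ) : ℂ)‖ ≤
      ∑ n ∈ range m, |c (n + 1) - c n| := by
    refine (norm_sum_le _ _).trans (sum_le_sum fun n _ => ?_)
    rw [norm_mul, Complex.norm_real, Real.norm_eq_abs]
    calc ‖u (n + 1)‖ * |c (n + 1) - c n| ≤ 1 * |c (n + 1) - c n| := by
          gcongr
          exact hu _
      _ = |c (n + 1) - c n| := one_mul _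
  have h4 : ‖u (m + 1) * (c m : ℂ) - u 0 * (c 0 : ℂ) -
      ∑ n ∈ range m, u (n + 1) * ((c (n + 1) - c n : ℝ) : ℂ)‖ ≤
      c m + c 0 + ∑ n ∈ range m, |c (n + 1) - c n| :=
    (norm_sub_le _ _).trans (add_le_add ((norm_sub_le _ _).trans (add_le_add h1 h2)) h3)
  refine h4.trans ?_
  rcases hmono with h | h
  · have h5 : ∑ n ∈ range m, |c (n + 1) - c n| = c m - c 0 := by
      rw [← sum_range_sub c m]
      refine sum_congr rfl fun n hn => abs_of_nonneg ?_
      have := h n (mem_range.mp hn)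
      linarith
    rw [h5]
    have := hK m le_rfl
    linarith
  · have h5 : ∑ n ∈ range m, |c (n + 1) - c n| = c 0 - c m := by
      have h6 := sum_range_sub c m
      have h7 : ∑ n ∈ range m, |c (n + 1) - c n| = - ∑ n ∈ range m, (c (n + 1) - c n) := by
        rw [← sum_neg_distrib]
        refine sum_congr rfl fun n hn => ?_
        have := h n (mem_range.mp hn)
        rw [abs_of_nonpos (by linarith)]
      rw [h7, h6]
      ring
    rw [h5]
    have := hK 0 (Nat.zero_le _)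
    linarith

/-- the cotangent -/
noncomputable def w2_cot (x : ℝ) : ℝ := Real.cos (Real.pi * x) / Real.sin (Real.pi * x)

theorem w2_sin_pos {x : ℝ} (h0 : 0 < x) (h1 : x ≤ 1 / 2) : 0 < Real.sin (Real.pi * x) := by
  apply Real.sin_pos_of_pos_of_lt_pi
  · exact mul_pos Real.pi_pos h0
  · have := Real.pi_pos
    nlinarith

theorem w2_cot_nonneg {x : ℝ} (h0 : 0 < x) (h1 : x ≤ 1 / 2) : 0 ≤ w2_cot x := by
  unfold w2_cot
  apply div_nonneg _ (w2_sin_pos h0 h1).le
  have := Real.pi_pos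
  apply Real.cos_nonneg_of_neg_pi_div_two_le_of_le <;> nlinarith

theorem w2_cot_anti {x y : ℝ} (h0 : 0 < x) (hxy : x ≤ y) (h1 : y ≤ 1 / 2) :
    w2_cot y ≤ w2_cot x := by
  have hpi := Real.pi_pos
  have hx1 : x ≤ 1 / 2 := hxy.trans h1
  have hc : Real.cos (Real.pi * y) ≤ Real.cos (Real.pi * x) := by
    apply Real.cos_le_cos_of_nonneg_of_le_pi
    · positivity
    · nlinarith
    · exact mul_le_mul_of_nonneg_left hxy hpi.le
  have hs : Real.sin (Real.pi * x) ≤ Real.sin (Real.pi * y) := by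
    apply Real.sin_le_sin_of_le_of_le_pi_div_two
    · nlinarith
    · nlinarith
    · exact mul_le_mul_of_nonneg_left hxy hpi.le
  have hcx : 0 ≤ Real.cos (Real.pi * x) := by
    apply Real.cos_nonneg_of_neg_pi_div_two_le_of_le <;> nlinarith
  unfold w2_cot
  exact div_le_div₀ hcx hc (w2_sin_pos h0 hx1) hs

theorem w2_cot_le {x : ℝ} (h0 : 0 < x) (h1 : x ≤ 1 / 2) : w2_cot x ≤ 1 / (2 * x) := by
  have hpi := Real.pi_pos
  unfold w2_cot
  have hs : 2 * x ≤ Real.sin (Real.pi * x) := by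
    have := Real.mul_le_sin (x := Real.pi * x) (by positivity) (by nlinarith)
    calc 2 * x = 2 / Real.pi * (Real.pi * x) := by field_simp
      _ ≤ _ := this
  exact div_le_div₀ zero_le_one (Real.cos_le_one _) (by positivity) hs

theorem w2_alg (s c : ℂ) (hs : s ≠ 0) (hcs : c ^ 2 + s ^ 2 = 1) :
    ((c + s * Complex.I) ^ 2 - 1) * (-(1 / 2) - Complex.I / 2 * (c / s)) = 1 := by
  have hI : Complex.I ^ 2 = -1 := Complex.I_sq
  have h1 : (c + s * Complex.I) ^ 2 - 1 = 2 * s * Complex.I * (c + s * Complex.I) := by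
    linear_combination hcs - s ^ 2 * hI
  have h2 : -(1 / 2) - Complex.I / 2 * (c / s) = -(s + Complex.I * c) / (2 * s) := by
    field_simp
    ring
  rw [h1, h2, mul_div_assoc', div_eq_one_iff_eq (mul_ne_zero two_ne_zero hs)]
  linear_combination (-2 * s * (c ^ 2 + s ^ 2) - 2 * s ^ 2 * c * Complex.I) * hI + 2 * s * hcs

/-- `1/(e(x) - 1) = -1/2 - (i/2) cot(π x)` -/
theorem w2_zeta {x : ℝ} (h0 : 0 < x) (h1 : x ≤ 1 / 2) :
    (ee x - 1) * (-(1 / 2) - Complex.I / 2 * (w2_cot x : ℂ)) = 1 := by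
  have hs := (w2_sin_pos h0 h1).ne'
  have hs' : (Real.sin (Real.pi * x) : ℂ) ≠ 0 := by exact_mod_cast hs
  have he : ee x = ((Real.cos (Real.pi * x) : ℂ) + (Real.sin (Real.pi * x) : ℂ) * Complex.I) ^ 2 := by
    rw [ee, Complex.ofReal_cos, Complex.ofReal_sin, ← Complex.exp_mul_I, ← Complex.exp_nat_mul]
    congr 1
    push_cast
    ring
  have hcs : (Real.cos (Real.pi * x) : ℂ) ^ 2 + (Real.sin (Real.pi * x) : ℂ) ^ 2 = 1 := by
    have := Real.cos_sq_add_sin_sq (Real.pi * x)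
    exact_mod_cast this
  rw [he, w2_cot, Complex.ofReal_div]
  exact w2_alg _ _ hs' hcs

/-- ROW W2.  Kusmin-Landau.  `N ≤ 1` trivial.  With `u n = e(a n)`, `δ_n = dl a n ∈ [lo, 1/2]`,
`ζ_n = 1/(e(δ_n) - 1) = -1/2 - (i/2) cot(π δ_n)`, `u n = (u(n+1) - u n) ζ_n`.  Abel summation over `n < N-1`:
`∑ u n = u(N-1) ζ_{N-2} - u 0 ζ_0 + ∑_{n=1}^{N-2} u n (ζ_{n-1} - ζ_n)`; `|ζ| = 1/(2 sin πδ) ≤ 1/(4 lo)`,
`∑|ζ_{n-1} - ζ_n| = (1/2)|cot πδ_0 - cot πδ_{N-2}| ≤ 1/(2 tan(π lo)) ≤ 1/(2π lo)` by monotonicity.  Together with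
the last term (`1 ≤ 1/(2 lo)`) at most `2/lo`. -/
theorem kusmin_landau (N : ℕ) (a : ℕ → ℝ) (lo : ℝ) (hlo : 0 < lo) (hlo2 : lo ≤ 1 / 2)
    (h1 : ∀ n, n + 1 < N → lo ≤ dl a n ∧ dl a n ≤ 1 / 2)
    (hmono : (∀ n, n + 2 < N → dl a n ≤ dl a (n + 1)) ∨ (∀ n, n + 2 < N → dl a (n + 1) ≤ dl a n)) :
    ‖∑ n ∈ range N, ee (a n)‖ ≤ 2 / lo := by
  have h2lo : 4 ≤ 2 / lo := by
    rw [le_div_iff₀ hlo]
    linarith
  rcases N with _ | _ | m
  · simp; positivity
  · simp [norm_ee]; linarith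
  -- now `N = m + 2`
  set u : ℕ → ℂ := fun n => ee (a n) with hu
  set c : ℕ → ℝ := fun n => w2_cot (dl a n) with hc
  have hun : ∀ n, ‖u n‖ ≤ 1 := fun n => (norm_ee _).le
  have hK : ∀ n, n ≤ m → c n ≤ 1 / (2 * lo) := by
    intro n hn
    obtain ⟨h3, h4⟩ := h1 n (by omega)
    exact (w2_cot_anti hlo h3 h4).trans (w2_cot_le hlo hlo2)
  have h0 : ∀ n, n ≤ m → 0 ≤ c n := by
    intro n hn
    obtain ⟨h3, h4⟩ := h1 n (by omega)
    exact w2_cot_nonneg (lt_of_lt_of_le hlo h3) h4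
  have hm : (∀ n, n < m → c n ≤ c (n + 1)) ∨ (∀ n, n < m → c (n + 1) ≤ c n) := by
    rcases hmono with h | h
    · right
      intro n hn
      obtain ⟨h3, h4⟩ := h1 n (by omega)
      obtain ⟨h5, h6⟩ := h1 (n + 1) (by omega)
      exact w2_cot_anti (lt_of_lt_of_le hlo h3) (h n (by omega)) h6
    · left
      intro n hn
      obtain ⟨h3, h4⟩ := h1 n (by omega)
      obtain ⟨h5, h6⟩ := h1 (n + 1) (by omega)
      exact w2_cot_anti (lt_of_lt_of_le hlo h5) (h n (by omega)) h4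
  have hb := w2_bound u hun c (1 / (2 * lo)) m h0 hK hm
  have hterm : ∀ n ∈ range (m + 1), u n =
      -(1 / 2) * (u (n + 1) - u n) - Complex.I / 2 * ((u (n + 1) - u n) * (c n : ℂ)) := by
    intro n hn
    have hn' : n ≤ m := by have := mem_range.mp hn; omega
    obtain ⟨h3, h4⟩ := h1 n (by omega)
    have h5 := w2_zeta (lt_of_lt_of_le hlo h3) h4
    have h6 : u (n + 1) = u n * ee (dl a n) := by
      rw [hu]
      simp only []
      rw [← ee_add]
      congr 1
      unfold dl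
      ring
    have h7 : c n = w2_cot (dl a n) := rfl
    rw [h7, h6]
    linear_combination (-u n) * h5
  have hsum : ∑ n ∈ range (m + 1), u n = -(1 / 2) * (u (m + 1) - u 0) -
      Complex.I / 2 * ∑ n ∈ range (m + 1), (u (n + 1) - u n) * (c n : ℂ) := by
    rw [sum_congr rfl hterm, sum_sub_distrib, ← mul_sum, ← mul_sum, sum_range_sub]
  rw [sum_range_succ, hsum]
  have e : -(1 / 2) * (u (m + 1) - u 0) -
      Complex.I / 2 * ∑ n ∈ range (m + 1), (u (n + 1) - u n) * (c n : ℂ) + ee (a (m + 1)) =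
      1 / 2 * u (m + 1) + 1 / 2 * u 0 -
      Complex.I / 2 * ∑ n ∈ range (m + 1), (u (n + 1) - u n) * (c n : ℂ) := by
    have : ee (a (m + 1)) = u (m + 1) := rfl
    rw [this]
    ring
  rw [e]
  have n1 : ‖(1 / 2 : ℂ) * u (m + 1)‖ ≤ 1 / 2 := by
    rw [norm_mul]
    have := hun (m + 1)
    have h2 : ‖(1 / 2 : ℂ)‖ = 1 / 2 := by norm_num
    rw [h2]
    linarith
  have n2 : ‖(1 / 2 : ℂ) * u 0‖ ≤ 1 / 2 := by
    rw [norm_mul]
    have := hun 0
    have h2 : ‖(1 / 2 : ℂ)‖ = 1 / 2 := by norm_num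
    rw [h2]
    linarith
  have n3 : ‖Complex.I / 2 * ∑ n ∈ range (m + 1), (u (n + 1) - u n) * (c n : ℂ)‖ ≤
      1 / 2 * (2 * (1 / (2 * lo))) := by
    rw [norm_mul]
    have h2 : ‖Complex.I / 2‖ = 1 / 2 := by
      rw [norm_div, Complex.norm_I]; norm_num
    rw [h2]
    gcongr
  refine (norm_sub_le _ _).trans ((add_le_add ((norm_add_le _ _).trans (add_le_add n1 n2)) n3).trans ?_)
  have h9 : 1 ≤ 1 / (2 * lo) := by
    rw [le_div_iff₀ (by positivity)]
    linarith
  have h10 : 2 / lo = 4 * (1 / (2 * lo)) := by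
    field_simp
    norm_num
  rw [h10]
  linarith

end Pool.Agent.Lib.MP_4ae430_nt
end

section
/-! Row W3 (about 100 lines): difference classes, the case j = 1, the differenced sequence. -/

set_option autoImplicit false

namespace Pool.Agent.Lib.MP_4ae430_nt

open Finset MeasureTheory

/-- the `j`-th differences on `[0,N)` lie in `[lo, hi]` and are monotone -/
def DD (j N : ℕ) (lo hi : ℝ) (a : ℕ → ℝ) : Prop :=
  (∀ n, n + j < N → lo ≤ (dl^[j] a) n ∧ (dl^[j] a) n ≤ hi) ∧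
  ((∀ n, n + j + 1 < N → (dl^[j] a) n ≤ (dl^[j] a) (n + 1)) ∨
   (∀ n, n + j + 1 < N → (dl^[j] a) (n + 1) ≤ (dl^[j] a) n))

/-- power saving for sequences with small, not too small `j`-th differences -/
def PP (j : ℕ) : Prop :=
  ∀ ε : ℝ, 0 < ε → ε ≤ 1 → ∀ A : ℝ, 1 ≤ A → ∃ σ C : ℝ, 0 < σ ∧ 0 < C ∧
    ∀ (N : ℕ) (a : ℕ → ℝ) (lo hi : ℝ), 1 ≤ N → DD j N lo hi a → 0 < lo → hi ≤ A * lo →
      (N : ℝ) ^ (-(j : ℝ) + ε) ≤ lo → hi ≤ (N : ℝ) ^ (-ε) →
      ‖∑ n ∈ range N, ee (a n)‖ ≤ C * (N : ℝ) ^ (1 - σ)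

/-- ROW W3.  From `kusmin_landau`: if `N^(-ε) ≤ 1/2` the sum is `≤ 2/lo ≤ 2 N^(1-ε)` (if `lo > 1/2` then
`hi ≥ lo`?  note `DD` may be void for `N ≤ 1`: then the sum is `≤ 1`); otherwise `N ≤ 2^(1/ε)` and the sum is
`≤ N ≤ 2^(1/ε)`.  `σ = ε` (or smaller). -/
theorem PP_one : PP 1 := by
  intro ε hε hε1 A hA
  refine ⟨ε, 2, hε, two_pos, ?_⟩
  intro N a lo hi hN hD hlo hhi h1 h2
  have hN0 : (0 : ℝ) < N := by exact_mod_cast hN
  have hpow : (0 : ℝ) < (N : ℝ) ^ (1 - ε) := Real.rpow_pos_of_pos hN0 _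
  by_cases hc : (N : ℝ) ^ (-ε) ≤ 1 / 2
  · have hN2 : 2 ≤ N := by
      by_contra hcon
      have : N = 1 := by omega
      subst this
      rw [Nat.cast_one, Real.one_rpow] at hc
      norm_num at hc
    have hlohi : lo ≤ hi := by
      have := hD.1 0 (by omega)
      exact this.1.trans this.2
    have hhalf : hi ≤ 1 / 2 := h2.trans hc
    have hk := kusmin_landau N a lo hlo (hlohi.trans hhalf)
      (fun n hn => by
        have := hD.1 n hn
        simp only [Function.iterate_one] at this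
        exact ⟨this.1, this.2.trans hhalf⟩)
      (by
        rcases hD.2 with h | h
        · left
          intro n hn
          have := h n (by omega)
          simpa only [Function.iterate_one] using this
        · right
          intro n hn
          have := h n (by omega)
          simpa only [Function.iterate_one] using this)
    refine hk.trans ?_
    rw [div_le_iff₀ hlo]
    have h3 : (N : ℝ) ^ (1 - ε) * (N : ℝ) ^ (-((1 : ℕ) : ℝ) + ε) = 1 := by
      rw [← Real.rpow_add hN0]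
      norm_num
    have h4 : (N : ℝ) ^ (1 - ε) * (N : ℝ) ^ (-((1 : ℕ) : ℝ) + ε) ≤ (N : ℝ) ^ (1 - ε) * lo :=
      mul_le_mul_of_nonneg_left h1 hpow.le
    rw [h3] at h4
    nlinarith
  · push Not at hc
    have h3 : (N : ℝ) ^ (1 - ε) = N * (N : ℝ) ^ (-ε) := by
      rw [sub_eq_add_neg, Real.rpow_add hN0, Real.rpow_one]
    have h4 : ‖∑ n ∈ range N, ee (a n)‖ ≤ N := by
      refine (norm_sum_le _ _).trans ?_
      simp [norm_ee]
    rw [h3]
    nlinarith

/-- ROW W3.  `dl^[j] (a(·+h) - a) n = ∑_{i<h} dl^[j+1] a (n+i)` (both `dl^[j]` and shifts commute with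
differences and sums: `a(n+h) - a n = ∑_{i<h} dl a (n+i)`). -/
theorem dl_shift (j h n : ℕ) (a : ℕ → ℝ) :
    (dl^[j] (fun n => a (n + h) - a n)) n = ∑ i ∈ range h, (dl^[j + 1] a) (n + i) := by
  induction j generalizing n with
  | zero =>
    simp only [Function.iterate_zero, id_eq, zero_add, Function.iterate_one]
    have := Finset.sum_range_sub (fun i => a (n + i)) h
    simp only [add_zero] at this
    rw [← this]
    rfl
  | succ j ih =>
    rw [Function.iterate_succ_apply' dl j]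
    have h1 : ∀ m, (dl^[j + 1 + 1] a) m = (dl^[j + 1] a) (m + 1) - (dl^[j + 1] a) m := by
      intro m
      rw [Function.iterate_succ_apply' dl (j + 1)]
      rfl
    show (dl^[j] (fun n => a (n + h) - a n)) (n + 1) - (dl^[j] (fun n => a (n + h) - a n)) n = _
    rw [ih, ih, ← Finset.sum_sub_distrib]
    refine Finset.sum_congr rfl fun i _ => ?_
    rw [h1, show n + 1 + i = n + i + 1 by ring]

/-- ROW W3. -/
theorem DD_shift (j N h : ℕ) (lo hi : ℝ) (a : ℕ → ℝ) (hh : 0 < h) (hD : DD (j + 1) N lo hi a) :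
    DD j (N - h) (h * lo) (h * hi) (fun n => a (n + h) - a n) := by
  refine ⟨fun n hn => ?_, ?_⟩
  · rw [dl_shift]
    have hb : ∀ i ∈ range h, lo ≤ (dl^[j + 1] a) (n + i) ∧ (dl^[j + 1] a) (n + i) ≤ hi := by
      intro i hi'
      rw [Finset.mem_range] at hi'
      exact hD.1 (n + i) (by omega)
    constructor
    · have := Finset.card_nsmul_le_sum (range h) (fun i => (dl^[j + 1] a) (n + i)) lo
        (fun i hi' => (hb i hi').1)
      rwa [Finset.card_range, nsmul_eq_mul] at this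
    · have := Finset.sum_le_card_nsmul (range h) (fun i => (dl^[j + 1] a) (n + i)) hi
        (fun i hi' => (hb i hi').2)
      rwa [Finset.card_range, nsmul_eq_mul] at this
  · rcases hD.2 with hm | hm
    · left
      intro n hn
      rw [dl_shift, dl_shift]
      refine Finset.sum_le_sum fun i hi' => ?_
      rw [Finset.mem_range] at hi'
      rw [show n + 1 + i = n + i + 1 by ring]
      exact hm (n + i) (by omega)
    · right
      intro n hn
      rw [dl_shift, dl_shift]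
      refine Finset.sum_le_sum fun i hi' => ?_
      rw [Finset.mem_range] at hi'
      rw [show n + 1 + i = n + i + 1 by ring]
      exact hm (n + i) (by omega)

end Pool.Agent.Lib.MP_4ae430_nt
end

section
/-! Row W4 (about 150 lines): the induction step of van der Corput estimates. -/

set_option autoImplicit false

namespace Pool.Agent.Lib.MP_4ae430_nt

open Finset MeasureTheory

private theorem W4_triv (N : ℕ) (a : ℕ → ℝ) : ‖∑ n ∈ range N, ee (a n)‖ ≤ N := by
  refine (norm_sum_le _ _).trans ?_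
  simp [norm_ee]

private theorem W4_conj (x y : ℝ) : ee x * (starRingEnd ℂ) (ee y) = ee (x - y) := by
  rw [← ee_neg, ← ee_add, sub_eq_add_neg]

/-- the number of `h ∈ [1, H)` below `h₀` is at most `h₀` -/
private theorem W4_count (H : ℕ) (h₀ : ℝ) (h0 : 0 < h₀) :
    (((Ico 1 H).filter (fun h : ℕ => (h : ℝ) < h₀)).card : ℝ) ≤ h₀ := by
  have hsub : (Ico 1 H).filter (fun h : ℕ => (h : ℝ) < h₀) ⊆ Ico 1 ⌈h₀⌉₊ := by
    intro h hh
    rw [mem_filter, mem_Ico] at hh
    rw [mem_Ico]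
    exact ⟨hh.1.1, Nat.lt_ceil.2 hh.2⟩
  have h1 := card_le_card hsub
  rw [Nat.card_Ico] at h1
  have h2 : (⌈h₀⌉₊ : ℝ) < h₀ + 1 := Nat.ceil_lt_add_one h0.le
  have h3 : 1 ≤ ⌈h₀⌉₊ := Nat.one_le_iff_ne_zero.2 (Nat.ceil_pos.2 h0).ne'
  have h4 : (((⌈h₀⌉₊ - 1 : ℕ)) : ℝ) = (⌈h₀⌉₊ : ℝ) - 1 := by
    push_cast [Nat.cast_sub h3]; ring
  have h5 : (((Ico 1 H).filter (fun h : ℕ => (h : ℝ) < h₀)).card : ℝ) ≤ ((⌈h₀⌉₊ - 1 : ℕ) : ℝ) := by
    exact_mod_cast h1
  linarith

/-- ROW W4.  Let `ε' = ε/2` and `σ', C'` from `PP j` for `ε'`, `A`.  Let `N` be large,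
`H = ⌊min(N/2, N^(-ε')/hi)⌋ ≥ 1` (`hi ≤ N^(-ε)`), so `H ≥ min(N/2, N^{ε/2})/2`.  `vdc` with `u n = e(a n)`:
`u(n+h) conj(u n) = e(a(n+h) - a n)`, `N' = N - h ∈ [N/2, N]`, `DD_shift`.  For `1 ≤ h < H` the upper condition
`h hi ≤ N^(-ε') ≤ N'^(-ε')` holds; the lower one `N'^(-j+ε') ≤ 2^j N^(-j+ε') ≤ h lo` holds unless
`h < h₀ = 2^j N^(-j+ε')/lo`.  For `h < h₀` use the trivial bound `N`, otherwise `C' N^(1-σ')`.
`|∑|² ≤ 2N²/H + (4N/H)(h₀ N + H C' N^(1-σ'))` (the number of `h < h₀`, `h ≥ 1` is `≤ h₀`).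
`N²/H ≤ C N^{2-ε/2}`.  `h₀/H`: if `H ≥ N/4` it is `≤ C N^{-j-1+ε'}/lo ≤ C N^{ε'-ε}` (as `lo ≥ N^{-j-1+ε}`);
otherwise `H ≥ N^{-ε'}/(2hi)` and it is `≤ C N^{-j+2ε'} hi/lo ≤ C A N^{-j+ε}`, hmm for `j ≥ 1`, `ε ≤ 1` use
`N^{-j+2ε'} = N^{-j+ε}`: if `ε = 1, j = 1` this is no saving, so FIRST replace `ε` by `min(ε,1/2)` (the hypotheses
of `PP` for `ε` imply those for smaller `ε`).  All constants depend only on `ε, A, j`. -/
theorem PP_step (j : ℕ) (hj : 1 ≤ j) (h : PP j) : PP (j + 1) := by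
  intro ε hε hε1 A hA
  obtain ⟨e, he0, he4, h2e⟩ : ∃ e : ℝ, 0 < e ∧ e ≤ 1 / 4 ∧ 2 * e ≤ ε := by
    refine ⟨min ε (1 / 2) / 2, ?_, ?_, ?_⟩
    · have : 0 < min ε (1 / 2) := lt_min hε (by norm_num)
      linarith
    · have := min_le_right ε (1 / 2)
      linarith
    · have := min_le_left ε (1 / 2)
      linarith
  obtain ⟨σ₁, C₁, hσ₁, hC₁, hP⟩ := h e he0 (by linarith) A hA
  obtain ⟨s, hs0, hs1, hss, hse⟩ : ∃ s : ℝ, 0 < s ∧ s ≤ 1 ∧ s ≤ σ₁ ∧ s ≤ e := by
    refine ⟨min (min σ₁ 1) e, lt_min (lt_min hσ₁ one_pos) he0, ?_, ?_, min_le_right _ _⟩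
    · exact (min_le_left _ _).trans (min_le_right _ _)
    · exact (min_le_left _ _).trans (min_le_left _ _)
  set K : ℝ := 12 + 24 * 2 ^ j * A + 4 * C₁ with hK
  have hpow : (0 : ℝ) < 2 ^ j := by positivity
  have hK1 : 1 ≤ K := by
    have : 0 ≤ 24 * 2 ^ j * A := by positivity
    linarith
  refine ⟨s / 2, K + (j + 4), by linarith, by positivity, ?_⟩
  intro N a lo hi hN hD hlo hA2 hlow hup
  have hX1 : (1 : ℝ) ≤ N := by exact_mod_cast hN
  have hX0 : (0 : ℝ) < N := by linarith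
  have hone : (1 : ℝ) ≤ (N : ℝ) ^ (1 - s / 2) := Real.one_le_rpow hX1 (by linarith)
  by_cases hsmall : N < j + 4
  · have h1 : (N : ℝ) ≤ j + 4 := by exact_mod_cast hsmall.le
    calc ‖∑ n ∈ range N, ee (a n)‖ ≤ N := W4_triv N a
      _ ≤ (j + 4) * 1 := by linarith
      _ ≤ (K + (j + 4)) * (N : ℝ) ^ (1 - s / 2) := by
          apply mul_le_mul _ hone (by norm_num) (by positivity)
          linarith
  push Not at hsmall
  have hX4 : (4 : ℝ) ≤ N := by
    have : 4 ≤ N := by omega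
    exact_mod_cast this
  -- hi is positive
  have hhi : 0 < hi := by
    have := hD.1 0 (by omega)
    linarith [this.1, this.2]
  -- powers
  have hlow' : (N : ℝ) ^ (-((j : ℝ) + 1) + 2 * e) ≤ lo := by
    refine le_trans (Real.rpow_le_rpow_of_exponent_le hX1 ?_) hlow
    push_cast; linarith
  have hup' : hi ≤ (N : ℝ) ^ (-(2 * e)) :=
    hup.trans (Real.rpow_le_rpow_of_exponent_le hX1 (by linarith))
  set q : ℝ := (N : ℝ) ^ (-e) with hq
  have hq0 : 0 < q := Real.rpow_pos_of_pos hX0 _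
  have hq1 : q ≤ 1 := Real.rpow_le_one_of_one_le_of_nonpos hX1 (by linarith)
  have hNq : 1 / (N : ℝ) ≤ q := by
    rw [one_div, ← Real.rpow_neg_one]
    exact Real.rpow_le_rpow_of_exponent_le hX1 (by linarith)
  have hqq : (N : ℝ) ^ (-(2 * e)) = q * q := by
    rw [hq, ← Real.rpow_add hX0]; congr 1; ring
  have hqinv : (N : ℝ) ^ e = q⁻¹ := by
    rw [hq, Real.rpow_neg hX0.le, inv_inv]
  have hhiq : hi ≤ q * q := by rw [← hqq]; exact hup'
  set Y : ℝ := min ((N : ℝ) / 2) (q / hi) with hY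
  have hYa : Y ≤ N / 2 := min_le_left _ _
  have hYb : Y ≤ q / hi := min_le_right _ _
  have hY1 : 1 ≤ Y := by
    refine le_min (by linarith) ?_
    rw [le_div_iff₀ hhi, one_mul]
    nlinarith
  have hYinv : 1 / Y ≤ 3 * q := by
    rcases min_choice ((N : ℝ) / 2) (q / hi) with hc | hc
    · rw [hY, hc]
      have : 1 / ((N : ℝ) / 2) = 2 * (1 / N) := by field_simp
      rw [this]; linarith
    · rw [hY, hc, one_div_div, div_le_iff₀ hq0]
      nlinarith
  set H : ℕ := ⌊Y⌋₊ with hH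
  have hHY : (H : ℝ) ≤ Y := Nat.floor_le (by linarith)
  have hHpos : 0 < H := Nat.floor_pos.2 hY1
  have hH1 : (1 : ℝ) ≤ H := by exact_mod_cast hHpos
  have hYH : Y < H + 1 := Nat.lt_floor_add_one Y
  have hHinv : 1 / (H : ℝ) ≤ 2 * (1 / Y) := by
    rw [mul_one_div, div_le_div_iff₀ (by linarith) (by linarith)]
    linarith
  have hHN2 : (H : ℝ) ≤ N / 2 := hHY.trans hYa
  have hHN : H ≤ N := by
    have : (H : ℝ) ≤ N := by linarith
    exact_mod_cast this
  have hv := vdc N H hHpos hHN (fun n => ee (a n)) (fun n => (norm_ee _).le)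
  -- the threshold
  set h₀ : ℝ := 2 ^ j * (N : ℝ) ^ (-(j : ℝ) + e) / lo with hh₀
  have hh0 : 0 < h₀ := by
    have := Real.rpow_pos_of_pos hX0 (-(j : ℝ) + e)
    positivity
  have hterm : ∀ h ∈ Ico 1 H, ‖∑ n ∈ range (N - h), ee (a (n + h)) * (starRingEnd ℂ) (ee (a n))‖ ≤
      (if (h : ℝ) < h₀ then (N : ℝ) else 0) + C₁ * (N : ℝ) ^ (1 - s) := by
    intro h hh
    rw [mem_Ico] at hh
    have hhH : (h : ℝ) ≤ H := by exact_mod_cast hh.2.le
    have hh1 : (1 : ℝ) ≤ h := by exact_mod_cast hh.1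
    have hhN : h ≤ N := by omega
    have hcast : ((N - h : ℕ) : ℝ) = N - h := by rw [Nat.cast_sub hhN]
    have hhalf : (N : ℝ) / 2 ≤ ((N - h : ℕ) : ℝ) := by rw [hcast]; linarith
    have hle : ((N - h : ℕ) : ℝ) ≤ N := by rw [hcast]; linarith
    have hge1 : (1 : ℝ) ≤ ((N - h : ℕ) : ℝ) := by linarith
    have hsum : ∑ n ∈ range (N - h), ee (a (n + h)) * (starRingEnd ℂ) (ee (a n)) =
        ∑ n ∈ range (N - h), ee ((fun n => a (n + h) - a n) n) :=
      sum_congr rfl fun n _ => W4_conj _ _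
    rw [hsum]
    have hnn : 0 ≤ C₁ * (N : ℝ) ^ (1 - s) := by positivity
    split_ifs with hlt
    · have := W4_triv (N - h) (fun n => a (n + h) - a n)
      linarith
    · push Not at hlt
      rw [zero_add]
      have hDD := DD_shift j N h lo hi a (by omega) hD
      have hb := hP (N - h) (fun n => a (n + h) - a n) (h * lo) (h * hi)
        (by exact_mod_cast hge1) hDD (by positivity)
        (by nlinarith) ?_ ?_
      · refine hb.trans ?_
        apply mul_le_mul_of_nonneg_left _ hC₁.le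
        calc ((N - h : ℕ) : ℝ) ^ (1 - σ₁) ≤ ((N - h : ℕ) : ℝ) ^ (1 - s) :=
              Real.rpow_le_rpow_of_exponent_le hge1 (by linarith)
          _ ≤ (N : ℝ) ^ (1 - s) := Real.rpow_le_rpow (by linarith) hle (by linarith)
      · -- lower condition
        have hjr : (1 : ℝ) ≤ j := by exact_mod_cast hj
        have hexp : -(j : ℝ) + e ≤ 0 := by linarith
        calc ((N - h : ℕ) : ℝ) ^ (-(j : ℝ) + e) ≤ ((N : ℝ) / 2) ^ (-(j : ℝ) + e) :=
              Real.rpow_le_rpow_of_nonpos (by linarith) hhalf hexp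
          _ = (N : ℝ) ^ (-(j : ℝ) + e) * (2 : ℝ) ^ (j - e : ℝ) := by
              rw [Real.div_rpow hX0.le (by norm_num), div_eq_mul_inv, ← Real.rpow_neg (by norm_num)]
              congr 2; ring
          _ ≤ (N : ℝ) ^ (-(j : ℝ) + e) * (2 : ℝ) ^ (j : ℝ) := by
              apply mul_le_mul_of_nonneg_left _ (by positivity)
              exact Real.rpow_le_rpow_of_exponent_le (by norm_num) (by linarith)
          _ = h₀ * lo := by
              rw [Real.rpow_natCast, hh₀, div_mul_cancel₀ _ hlo.ne']; ring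
          _ ≤ h * lo := by apply mul_le_mul_of_nonneg_right hlt hlo.le
      · -- upper condition
        calc (h : ℝ) * hi ≤ Y * hi := by
              apply mul_le_mul_of_nonneg_right _ hhi.le; linarith
          _ ≤ q := by rw [← le_div_iff₀ hhi]; exact hYb
          _ ≤ ((N - h : ℕ) : ℝ) ^ (-e) :=
              Real.rpow_le_rpow_of_nonpos (by linarith) hle (by linarith)
  have hsumle : ∑ h ∈ Ico 1 H, ‖∑ n ∈ range (N - h), ee (a (n + h)) * (starRingEnd ℂ) (ee (a n))‖ ≤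
      N * h₀ + H * (C₁ * (N : ℝ) ^ (1 - s)) := by
    refine (sum_le_sum hterm).trans ?_
    rw [sum_add_distrib, ← sum_filter, sum_const, sum_const, nsmul_eq_mul, nsmul_eq_mul]
    refine add_le_add ?_ ?_
    · rw [mul_comm]
      exact mul_le_mul_of_nonneg_left (W4_count H h₀ hh0) hX0.le
    · apply mul_le_mul_of_nonneg_right _ (by positivity)
      rw [Nat.card_Ico]
      exact_mod_cast Nat.sub_le _ _
  -- h₀ / H is small
  have hXq : h₀ * (1 / N) ≤ 2 ^ j * q := by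
    have h1 : (N : ℝ) ^ (-(j : ℝ) + e) * (1 / N) = q * (N : ℝ) ^ (-((j : ℝ) + 1) + 2 * e) := by
      rw [one_div, ← Real.rpow_neg_one, hq, ← Real.rpow_add hX0, ← Real.rpow_add hX0]
      congr 1; ring
    have h2 : h₀ * (1 / N) = 2 ^ j * (q * (N : ℝ) ^ (-((j : ℝ) + 1) + 2 * e)) / lo := by
      rw [← h1, hh₀]; ring
    rw [h2, div_le_iff₀ hlo]
    have : q * (N : ℝ) ^ (-((j : ℝ) + 1) + 2 * e) ≤ q * lo := mul_le_mul_of_nonneg_left hlow' hq0.le
    calc 2 ^ j * (q * (N : ℝ) ^ (-((j : ℝ) + 1) + 2 * e)) ≤ 2 ^ j * (q * lo) :=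
          mul_le_mul_of_nonneg_left this hpow.le
      _ = 2 ^ j * q * lo := by ring
  have hXh : h₀ * (hi / q) ≤ 2 ^ j * A * q := by
    have hjr : (1 : ℝ) ≤ j := by exact_mod_cast hj
    have h1 : (N : ℝ) ^ (-(j : ℝ) + e) ≤ q * q := by
      rw [← hqq]
      exact Real.rpow_le_rpow_of_exponent_le hX1 (by linarith)
    have h2 : h₀ * (hi / q) = 2 ^ j * ((N : ℝ) ^ (-(j : ℝ) + e) / q) * (hi / lo) := by
      rw [hh₀]; ring
    rw [h2]
    have h3 : (N : ℝ) ^ (-(j : ℝ) + e) / q ≤ q := by rw [div_le_iff₀ hq0]; exact h1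
    have h4 : hi / lo ≤ A := by rw [div_le_iff₀ hlo]; exact hA2
    have h5 : 0 ≤ (N : ℝ) ^ (-(j : ℝ) + e) / q := by positivity
    calc 2 ^ j * ((N : ℝ) ^ (-(j : ℝ) + e) / q) * (hi / lo) ≤ 2 ^ j * q * A := by
          apply mul_le_mul _ h4 (by positivity) (by positivity)
          exact mul_le_mul_of_nonneg_left h3 hpow.le
      _ = 2 ^ j * A * q := by ring
  have hYinv2 : 1 / Y ≤ 2 * (1 / N) + hi / q := by
    rcases min_choice ((N : ℝ) / 2) (q / hi) with hc | hc
    · rw [hY, hc]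
      have : 1 / ((N : ℝ) / 2) = 2 * (1 / N) := by field_simp
      rw [this]
      have : 0 ≤ hi / q := by positivity
      linarith
    · rw [hY, hc, one_div_div]
      have : 0 ≤ 2 * (1 / (N : ℝ)) := by positivity
      linarith
  have hratio : h₀ * (1 / H) ≤ 6 * 2 ^ j * A * q := by
    have h1 : h₀ * (1 / H) ≤ h₀ * (2 * (2 * (1 / N) + hi / q)) :=
      mul_le_mul_of_nonneg_left (by linarith) hh0.le
    have h2 : 2 ^ j * q ≤ 2 ^ j * A * q := by
      have : 0 < 2 ^ j * q := by positivity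
      nlinarith
    have h3 : h₀ * (2 * (2 * (1 / N) + hi / q)) = 4 * (h₀ * (1 / N)) + 2 * (h₀ * (hi / q)) := by ring
    rw [h3] at h1
    linarith
  have hqs : q ≤ (N : ℝ) ^ (-s) := Real.rpow_le_rpow_of_exponent_le hX1 (by linarith)
  have hNs : (N : ℝ) ^ (1 - s) = N * (N : ℝ) ^ (-s) := by
    rw [sub_eq_add_neg, Real.rpow_add hX0, Real.rpow_one]
  set t : ℝ := (N : ℝ) ^ (-s) with ht
  have ht0 : 0 < t := Real.rpow_pos_of_pos hX0 _
  have hmain : ‖∑ n ∈ range N, ee (a n)‖ ^ 2 ≤ K * ((N : ℝ) ^ 2 * t) := by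
    refine hv.trans ?_
    have hH0 : (0 : ℝ) < H := by linarith
    have h1 : 2 * (N : ℝ) ^ 2 / H ≤ 12 * ((N : ℝ) ^ 2 * t) := by
      have : 1 / (H : ℝ) ≤ 6 * t := by linarith
      calc 2 * (N : ℝ) ^ 2 / H = 2 * (N : ℝ) ^ 2 * (1 / H) := by ring
        _ ≤ 2 * (N : ℝ) ^ 2 * (6 * t) := mul_le_mul_of_nonneg_left this (by positivity)
        _ = 12 * ((N : ℝ) ^ 2 * t) := by ring
    have h2 : 4 * (N : ℝ) / H *
        ∑ h ∈ Ico 1 H, ‖∑ n ∈ range (N - h), ee (a (n + h)) * (starRingEnd ℂ) (ee (a n))‖ ≤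
        (24 * 2 ^ j * A + 4 * C₁) * ((N : ℝ) ^ 2 * t) := by
      calc 4 * (N : ℝ) / H *
            ∑ h ∈ Ico 1 H, ‖∑ n ∈ range (N - h), ee (a (n + h)) * (starRingEnd ℂ) (ee (a n))‖
          ≤ 4 * (N : ℝ) / H * (N * h₀ + H * (C₁ * (N : ℝ) ^ (1 - s))) :=
            mul_le_mul_of_nonneg_left hsumle (by positivity)
        _ = 4 * (N : ℝ) ^ 2 * (h₀ * (1 / H)) + 4 * C₁ * ((N : ℝ) ^ 2 * t) := by
            rw [hNs]; field_simp
        _ ≤ 4 * (N : ℝ) ^ 2 * (6 * 2 ^ j * A * t) + 4 * C₁ * ((N : ℝ) ^ 2 * t) := by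
            have : h₀ * (1 / H) ≤ 6 * 2 ^ j * A * t := hratio.trans
              (mul_le_mul_of_nonneg_left hqs (by positivity))
            gcongr
        _ = (24 * 2 ^ j * A + 4 * C₁) * ((N : ℝ) ^ 2 * t) := by ring
    rw [hK]
    linarith
  have hsq : (N : ℝ) ^ 2 * t = ((N : ℝ) ^ (1 - s / 2)) ^ 2 := by
    rw [ht, ← Real.rpow_natCast, ← Real.rpow_natCast, ← Real.rpow_mul hX0.le, ← Real.rpow_add hX0]
    congr 1; push_cast; ring
  have hfin : ‖∑ n ∈ range N, ee (a n)‖ ^ 2 ≤ (K * (N : ℝ) ^ (1 - s / 2)) ^ 2 := by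
    rw [mul_pow, ← hsq]
    refine hmain.trans ?_
    apply mul_le_mul_of_nonneg_right _ (by positivity)
    nlinarith
  have hroot := abs_le_of_sq_le_sq hfin (by positivity)
  have h3 := (abs_le.1 hroot).2
  calc ‖∑ n ∈ range N, ee (a n)‖ ≤ K * (N : ℝ) ^ (1 - s / 2) := h3
    _ ≤ (K + (j + 4)) * (N : ℝ) ^ (1 - s / 2) := by
        apply mul_le_mul_of_nonneg_right _ (by positivity)
        linarith [(Nat.cast_nonneg j : (0 : ℝ) ≤ j)]

/-- ROW W4. -/
theorem PP_five : PP 5 :=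
  PP_step 4 (by norm_num) (PP_step 3 (by norm_num) (PP_step 2 (by norm_num) (PP_step 1 le_rfl PP_one)))

end Pool.Agent.Lib.MP_4ae430_nt
end

section
/-! Row W5 (about 70 lines): finite differences and derivatives. -/

set_option autoImplicit false

namespace Pool.Agent.Lib.MP_4ae430_nt

open Finset MeasureTheory

/-- ROW W5.  Induction on `j` for all families `G`: the family `G' i x = G i (x+1) - G i x` on `[A, B-1]` has
`G' (j-1) x = G j ξ` (mean value theorem `exists_deriv_eq_slope` / `image_sub_le_mul_sub_of_deriv_le`), hence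
in `[lo,hi]`, and `dl^[j] (k ↦ G 0 (x₀+k)) = dl^[j-1] (k ↦ G' 0 (x₀+k))` (`Function.iterate_succ_apply`). -/
theorem fd (j : ℕ) (G : ℕ → ℝ → ℝ) (A B : ℝ)
    (hG : ∀ i < j, ∀ x ∈ Set.Icc A B, HasDerivAt (G i) (G (i + 1) x) x) (lo hi : ℝ)
    (hj : ∀ x ∈ Set.Icc A B, lo ≤ G j x ∧ G j x ≤ hi) (x₀ : ℝ) (n : ℕ) (h1 : A ≤ x₀ + n)
    (h2 : x₀ + n + j ≤ B) :
    lo ≤ (dl^[j] (fun k : ℕ => G 0 (x₀ + k))) n ∧ (dl^[j] (fun k : ℕ => G 0 (x₀ + k))) n ≤ hi := by
  induction j generalizing G B with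
  | zero =>
    simp only [Function.iterate_zero, id_eq]
    exact hj _ ⟨h1, by simpa using h2⟩
  | succ j ih =>
    rw [Function.iterate_succ_apply]
    have hfun : dl (fun k : ℕ => G 0 (x₀ + k)) =
        fun k : ℕ => (fun (i : ℕ) (x : ℝ) => G i (x + 1) - G i x) 0 (x₀ + k) := by
      funext k
      simp only [dl]
      push_cast
      ring_nf
    rw [hfun]
    refine ih (fun i x => G i (x + 1) - G i x) (B - 1) ?_ ?_ ?_
    · intro i hi x hx
      have e1 : HasDerivAt (G i) (G (i + 1) (x + 1)) (x + 1) :=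
        hG i (by omega) (x + 1) ⟨by linarith [hx.1], by linarith [hx.2]⟩
      have e2 : HasDerivAt (G i) (G (i + 1) x) x :=
        hG i (by omega) x ⟨hx.1, by linarith [hx.2]⟩
      exact (e1.comp_add_const x 1).sub e2
    · intro x hx
      have hlt : x < x + 1 := by linarith
      obtain ⟨ξ, hξ, hξ2⟩ := exists_hasDerivAt_eq_slope (G j) (G (j + 1)) hlt
        (fun y hy => (hG j (by omega) y ⟨by linarith [hx.1, hy.1],
          by linarith [hx.2, hy.2]⟩).continuousAt.continuousWithinAt)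
        (fun y hy => hG j (by omega) y ⟨by linarith [hx.1, hy.1], by linarith [hx.2, hy.2]⟩)
      have e3 : G j (x + 1) - G j x = G (j + 1) ξ := by
        rw [hξ2]
        have : x + 1 - x = 1 := by ring
        rw [this, div_one]
      have e4 := hj ξ ⟨by linarith [hx.1, hξ.1], by linarith [hx.2, hξ.2]⟩
      simp only [e3]
      exact e4
    · push_cast at h2
      linarith

end Pool.Agent.Lib.MP_4ae430_nt
end
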