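import Pool.Agent.Lib.MP_d9bc60_nt.UV.PVaughan
import Pool.Agent.Lib.MP_4ae430_nt.VDC

/-! # Equal products of two disjoint blocks: definitions -/

set_option autoImplicit false

namespace Pool.Agent.Lib.MP_4ae430_nt

open Finset
open Pool.Agent.Lib.MP_d9bc60_nt.UV (e vm)

/-- `B m k = (m+1)(m+2)...(m+k)` -/
def B (m k : ℕ) : ℕ := ∏ i ∈ Icc 1 k, (m + i)

/-- `(m₁,k₁,m₂,k₂)` is a solution of the problem. -/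
def Sol (m₁ k₁ m₂ k₂ : ℕ) : Prop :=
  B m₁ k₁ = B m₂ k₂ ∧ 3 < k₁ ∧ 3 < k₂ ∧ m₁ + k₁ ≤ m₂

/-- Exponential sum hypothesis: all sums of `e(T/n)` over intervals `(u,v]` inside `[A,8A]`,
`a₀ ≤ A ≤ a₁`, `0 < |T| ≤ T₁`, are at most `A/Z + 144 A²/|T|`. -/
def ES (a₀ a₁ Z T₁ : ℝ) : Prop :=
  ∀ A u v : ℕ, a₀ ≤ A → (A : ℝ) ≤ a₁ → A ≤ u → u ≤ v → v ≤ 8 * A →
    ∀ T : ℝ, 0 < |T| → |T| ≤ T₁ →
      ‖∑ n ∈ Ioc u v, e (T / n)‖ ≤ A / Z + 144 * (A : ℝ) ^ 2 / |T|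

/-- `e(T/n)` on `n > D`, zero otherwise -/
noncomputable def ph (D : ℕ) (T : ℝ) (n : ℕ) : ℂ := if D < n then e (T / n) else 0

theorem ee_eq_e (x : ℝ) : ee x = e x := rfl

theorem ES.mono {a₀ a₁ Z T₁ a₀' a₁' Z' T₁' : ℝ} (h : ES a₀ a₁ Z T₁) (h0 : a₀ ≤ a₀') (h1 : a₁' ≤ a₁)
    (hZ' : 0 < Z') (hZ : Z' ≤ Z) (hT : T₁' ≤ T₁) : ES a₀' a₁' Z' T₁' := by
  intro A u v hA hA' hu huv hv T hT0 hT1
  refine (h A u v (h0.trans hA) (hA'.trans h1) hu huv hv T hT0 (hT1.trans hT)).trans ?_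
  have h2 : (A : ℝ) / Z ≤ A / Z' := div_le_div_of_nonneg_left (Nat.cast_nonneg A) hZ' hZ
  linarith

end Pool.Agent.Lib.MP_4ae430_nt
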