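import Pool.Agent.Lib.MP_4ae430_nt.Defs

/-! Row E0 (about 90 lines). -/

set_option autoImplicit false

namespace Pool.Agent.Lib.MP_4ae430_nt

open Finset
open Pool.Agent.Lib.MP_d9bc60_nt.UV (e vm)

private theorem e0_pos (A u v : ℕ) (hA : 1 ≤ A) (hu : A ≤ u) (huv : u ≤ v) (hv : v ≤ 8 * A) (T : ℝ)
    (h0 : 0 < T) (h1 : T ≤ (A : ℝ) ^ 2 / 2) :
    ‖∑ n ∈ Ioc u v, e (-T / n)‖ ≤ 144 * (A : ℝ) ^ 2 / T := by
  have hA1 : (1 : ℝ) ≤ A := by exact_mod_cast hA
  have hA0 : (0 : ℝ) < A := by linarith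
  set a : ℕ → ℝ := fun n => -T / ((u : ℝ) + 1 + n) with ha
  set lo : ℝ := T / (64 * (A : ℝ) ^ 2) with hlo
  have hu' : (A : ℝ) ≤ u := by exact_mod_cast hu
  have hsum : ∑ n ∈ Ioc u v, e (-T / n) = ∑ n ∈ range (v - u), ee (a n) := by
    symm
    refine Finset.sum_bij (fun n _ => u + 1 + n) ?_ ?_ ?_ ?_
    · intro n hn
      rw [mem_range] at hn
      rw [mem_Ioc]; omega
    · intro x _ y _ hxy
      omega
    · intro m hm
      rw [mem_Ioc] at hm
      refine ⟨m - (u + 1), ?_, ?_⟩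
      · rw [mem_range]; omega
      · omega
    · intro n _
      rw [ee_eq_e]
      congr 2
      push_cast
      ring
  have hdl : ∀ n : ℕ, dl a n = T / (((u : ℝ) + 1 + n) * ((u : ℝ) + 2 + n)) := by
    intro n
    have h2 : (0 : ℝ) < (u : ℝ) + 1 + n := by positivity
    have h3 : (0 : ℝ) < (u : ℝ) + 2 + n := by positivity
    have h4 : (u : ℝ) + 1 + ((n + 1 : ℕ) : ℝ) = (u : ℝ) + 2 + n := by push_cast; ring
    simp only [dl, ha]
    rw [h4]
    field_simp
    ring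
  have hlo0 : 0 < lo := by rw [hlo]; positivity
  have hlo2 : lo ≤ 1 / 2 := by
    rw [hlo, div_le_iff₀ (by positivity)]
    nlinarith
  rw [hsum]
  refine (kusmin_landau (v - u) a lo hlo0 hlo2 ?_ ?_).trans ?_
  · intro n hn
    rw [hdl]
    have h2 : (0 : ℝ) < (u : ℝ) + 1 + n := by positivity
    have h3 : (0 : ℝ) < (u : ℝ) + 2 + n := by positivity
    have h5 : ((u : ℝ) + 2 + n) ≤ 8 * A := by
      have : u + 2 + n ≤ 8 * A := by omega
      exact_mod_cast this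
    have h6 : ((u : ℝ) + 1 + n) ≤ 8 * A := by linarith
    have hn0 : (0 : ℝ) ≤ n := Nat.cast_nonneg n
    constructor
    · rw [hlo]
      refine div_le_div_of_nonneg_left h0.le (by positivity) ?_
      calc ((u : ℝ) + 1 + n) * ((u : ℝ) + 2 + n) ≤ (8 * A) * (8 * A) :=
            mul_le_mul h6 h5 h3.le (by positivity)
        _ = 64 * (A : ℝ) ^ 2 := by ring
    · rw [div_le_iff₀ (by positivity)]
      have h7 : (A : ℝ) ^ 2 ≤ ((u : ℝ) + 1 + n) * ((u : ℝ) + 2 + n) := by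
        rw [sq]
        exact mul_le_mul (by linarith) (by linarith) hA0.le h2.le
      linarith
  · right
    intro n _
    rw [hdl, hdl]
    have h2 : (0 : ℝ) < (u : ℝ) + 1 + n := by positivity
    have h3 : (0 : ℝ) < (u : ℝ) + 2 + n := by positivity
    refine div_le_div_of_nonneg_left h0.le (by positivity) ?_
    push_cast
    exact mul_le_mul (by linarith) (by linarith) h3.le (by positivity)
  · rw [hlo, div_div_eq_mul_div]
    refine div_le_div_of_nonneg_right ?_ h0.le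
    nlinarith [sq_nonneg (A : ℝ)]

/-- ROW E0 (Kusmin-Landau for `T/n`).  Passing to complex conjugates (`e_neg`, the norm of the conjugate) we may
assume `T > 0` and bound `∑ e(-T/n)`.  With `N = v - u`, `a n = -T/(u+1+n)` the sum is `∑_{n ∈ range N} ee (a n)`
(`Finset.sum_bij` or `Finset.range_eq_Ico`, `Finset.sum_Ico_eq_sum_range`);
`dl a n = T/((u+1+n)(u+2+n))` is decreasing, `≤ T/A² ≤ 1/2`, and for `n + 1 < N` it is `≥ lo := T/(64 A²)`
since `u+2+n ≤ v ≤ 8A`.  `kusmin_landau N a lo` gives `≤ 2/lo = 128 A²/T`. -/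
theorem kl_inv (A u v : ℕ) (hA : 1 ≤ A) (hu : A ≤ u) (huv : u ≤ v) (hv : v ≤ 8 * A) (T : ℝ) (h0 : 0 < |T|)
    (h1 : |T| ≤ (A : ℝ) ^ 2 / 2) : ‖∑ n ∈ Ioc u v, e (T / n)‖ ≤ 144 * (A : ℝ) ^ 2 / |T| := by
  rcases lt_or_ge T 0 with hT | hT
  · have h2 : |T| = -T := abs_of_neg hT
    have h3 := e0_pos A u v hA hu huv hv |T| h0 h1
    rw [h2, neg_neg] at h3
    rw [h2]
    exact h3
  · have h2 : |T| = T := abs_of_nonneg hT
    have h3 := e0_pos A u v hA hu huv hv |T| h0 h1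
    rw [h2] at h3 ⊢
    have h4 : ∑ n ∈ Ioc u v, e (T / n) = (starRingEnd ℂ) (∑ n ∈ Ioc u v, e (-T / n)) := by
      rw [map_sum]
      refine Finset.sum_congr rfl (fun n _ => ?_)
      rw [← ee_eq_e, ← ee_eq_e, neg_div, ee_neg, Complex.conj_conj]
    rw [h4, RCLike.norm_conj]
    exact h3

end Pool.Agent.Lib.MP_4ae430_nt
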