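import Pool.Agent.Lib.MP_4ae430_nt.Defs

/-! Row E1 (about 160 lines). -/

set_option autoImplicit false

namespace Pool.Agent.Lib.MP_4ae430_nt

open Finset
open Pool.Agent.Lib.MP_d9bc60_nt.UV (e vm)

/-- Induction from `PP_one` and `PP_step`. -/
theorem PP_all (j : ℕ) (hj : 1 ≤ j) : PP j := by
  induction j, hj using Nat.le_induction with
  | base => exact PP_one
  | succ j hj ih => exact PP_step j hj ih

private theorem E1_neg (u v : ℕ) (T : ℝ) :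
    ‖∑ n ∈ Ioc u v, ee (-T / n)‖ = ‖∑ n ∈ Ioc u v, ee (T / n)‖ := by
  have h : ∑ n ∈ Ioc u v, ee (-T / n) = (starRingEnd ℂ) (∑ n ∈ Ioc u v, ee (T / n)) := by
    rw [map_sum]
    refine sum_congr rfl fun n _ => ?_
    rw [neg_div, ee_neg]
  rw [h, Complex.norm_conj]

private theorem E1_shift (u v : ℕ) (f : ℕ → ℂ) :
    ∑ n ∈ Ioc u v, f n = ∑ n ∈ range (v - u), f (u + 1 + n) := by
  have h : Ioc u v = Ico (u + 1) (v + 1) := by
    ext x
    simp only [mem_Ioc, mem_Ico]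
    omega
  rw [h, sum_Ico_eq_sum_range]
  congr 2
  omega

private theorem E1_triv (u v : ℕ) (T : ℝ) : ‖∑ n ∈ Ioc u v, ee (T / n)‖ ≤ ((v - u : ℕ) : ℝ) := by
  refine (norm_sum_le _ _).trans ?_
  simp [norm_ee]

/-- the derivatives of `± |T|/x` -/
private noncomputable def E1_G (j : ℕ) (S : ℝ) (i : ℕ) (x : ℝ) : ℝ :=
  (-1) ^ j * S * (-1) ^ i * (i.factorial : ℝ) / x ^ (i + 1)

private theorem E1_deriv (j : ℕ) (S : ℝ) (i : ℕ) (x : ℝ) (hx : 0 < x) :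
    HasDerivAt (E1_G j S i) (E1_G j S (i + 1) x) x := by
  have h1 := (hasDerivAt_const x ((-1) ^ j * S * (-1) ^ i * (i.factorial : ℝ))).div
    (hasDerivAt_pow (i + 1) x) (pow_pos hx _).ne'
  have h2 : E1_G j S (i + 1) x = (0 * x ^ (i + 1) -
      ((-1) ^ j * S * (-1) ^ i * (i.factorial : ℝ)) * (((i + 1 : ℕ) : ℝ) * x ^ (i + 1 - 1))) / (x ^ (i + 1)) ^ 2 := by
    unfold E1_G
    rw [Nat.factorial_succ, Nat.add_sub_cancel]
    push_cast
    field_simp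
    ring
  rw [h2]
  exact h1

private theorem E1_val (j : ℕ) (S x : ℝ) : E1_G j S j x = (j.factorial : ℝ) * S / x ^ (j + 1) := by
  unfold E1_G
  have h : ((-1 : ℝ)) ^ j * (-1) ^ j = 1 := by
    rw [← mul_pow]; norm_num
  congr 1
  calc (-1 : ℝ) ^ j * S * (-1) ^ j * (j.factorial : ℝ) = ((-1 : ℝ) ^ j * (-1) ^ j) * (S * (j.factorial : ℝ)) := by ring
    _ = (j.factorial : ℝ) * S := by rw [h]; ring

private theorem E1_val' (j : ℕ) (S x : ℝ) :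
    E1_G j S (j + 1) x = -(((j + 1).factorial : ℝ) * S / x ^ (j + 2)) := by
  unfold E1_G
  have h : ((-1 : ℝ)) ^ j * (-1) ^ (j + 1) = -1 := by
    rw [pow_succ, ← mul_assoc, ← mul_pow]; norm_num
  rw [neg_div']
  congr 1
  calc (-1 : ℝ) ^ j * S * (-1) ^ (j + 1) * ((j + 1).factorial : ℝ)
      = ((-1 : ℝ) ^ j * (-1) ^ (j + 1)) * (S * ((j + 1).factorial : ℝ)) := by ring
    _ = -(((j + 1).factorial : ℝ) * S) := by rw [h]; ring

/-- the hypothesis of `PP` -/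
private theorem E1_DD (j A u v : ℕ) (hA : 1 ≤ A) (hu : A ≤ u) (hv : v ≤ 8 * A) (S : ℝ) (hS : 0 < S) :
    DD j (v - u) ((j.factorial : ℝ) * S / (8 * A) ^ (j + 1)) ((j.factorial : ℝ) * S / A ^ (j + 1))
      (fun k : ℕ => E1_G j S 0 ((u + 1 : ℝ) + k)) := by
  have hA0 : (0 : ℝ) < A := by exact_mod_cast hA
  have huA : (A : ℝ) ≤ u := by exact_mod_cast hu
  have hvA : (v : ℝ) ≤ 8 * A := by exact_mod_cast hv
  have hpos : ∀ x ∈ Set.Icc ((u : ℝ) + 1) (v : ℝ), 0 < x := by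
    intro x hx
    linarith [hx.1]
  refine ⟨fun n hn => ?_, Or.inr fun n hn => ?_⟩
  · have hn' : ((n + j + 1 : ℕ) : ℝ) ≤ ((v - u : ℕ) : ℝ) := by exact_mod_cast hn
    have huv : u ≤ v := by omega
    rw [Nat.cast_sub huv] at hn'
    push_cast at hn'
    refine fd j (E1_G j S) ((u : ℝ) + 1) (v : ℝ) (fun i _ x hx => E1_deriv j S i x (hpos x hx)) _ _ ?_
      ((u + 1 : ℝ)) n ?_ ?_
    · intro x hx
      have hx0 := hpos x hx
      rw [E1_val]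
      constructor
      · apply div_le_div_of_nonneg_left (by positivity) (by positivity)
        apply pow_le_pow_left₀ hx0.le
        linarith [hx.2]
      · apply div_le_div_of_nonneg_left (by positivity) (by positivity)
        apply pow_le_pow_left₀ hA0.le
        linarith [hx.1]
    · have : (0 : ℝ) ≤ n := Nat.cast_nonneg n
      linarith
    · linarith
  · have hn' : ((n + j + 1 + 1 : ℕ) : ℝ) ≤ ((v - u : ℕ) : ℝ) := by exact_mod_cast hn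
    have huv : u ≤ v := by omega
    rw [Nat.cast_sub huv] at hn'
    push_cast at hn'
    have h := fd (j + 1) (E1_G j S) ((u : ℝ) + 1) (v : ℝ) (fun i _ x hx => E1_deriv j S i x (hpos x hx))
      (-(((j + 1).factorial : ℝ) * S / A ^ (j + 2))) 0 ?_ ((u + 1 : ℝ)) n ?_ ?_
    · rw [Function.iterate_succ_apply'] at h
      have h2 := h.2
      simp only [dl] at h2 ⊢
      linarith
    · intro x hx
      have hx0 := hpos x hx
      rw [E1_val']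
      constructor
      · apply neg_le_neg
        apply div_le_div_of_nonneg_left (by positivity) (by positivity)
        apply pow_le_pow_left₀ hA0.le
        linarith [hx.1]
      · have : 0 ≤ ((j + 1).factorial : ℝ) * S / x ^ (j + 2) := by positivity
        linarith
    · have : (0 : ℝ) ≤ n := Nat.cast_nonneg n
      linarith
    · push_cast
      linarith

private theorem E1_lo (Q : ℕ) (hQr : (2 : ℝ) ≤ Q) (A N fc S : ℝ) (hA1 : 1 ≤ A) (hfc1 : 1 ≤ fc)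
    (hb : (2 * 8 ^ (Q + 1)) ^ 4 ≤ A) (hsm : A ^ (1 - 1 / (4 * (Q : ℝ))) ≤ N) (hT1 : A ^ 2 / 2 ≤ S) :
    N ^ (-(Q : ℝ) + 1 / 2) ≤ fc * S / (8 * A) ^ (Q + 1) := by
  have hA0 : 0 < A := by linarith
  have e1 : N ^ (-(Q : ℝ) + 1 / 2) ≤ (A ^ (1 - 1 / (4 * (Q : ℝ)))) ^ (-(Q : ℝ) + 1 / 2) :=
    Real.rpow_le_rpow_of_nonpos (by positivity) hsm (by linarith)
  have e2 : (A ^ (1 - 1 / (4 * (Q : ℝ)))) ^ (-(Q : ℝ) + 1 / 2) ≤ A ^ (-(Q : ℝ) + 3 / 4) := by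
    rw [← Real.rpow_mul hA0.le]
    apply Real.rpow_le_rpow_of_exponent_le hA1
    have hq : (1 : ℝ) / (4 * Q) * Q = 1 / 4 := by
      have : (Q : ℝ) ≠ 0 := by linarith
      field_simp
    have hq2 : 0 ≤ (1 : ℝ) / (4 * Q) := by positivity
    nlinarith
  refine e1.trans (e2.trans ?_)
  rw [le_div_iff₀ (by positivity)]
  set B : ℝ := 8 ^ (Q + 1) with hB
  have hB0 : 0 < B := by positivity
  have e3 : A ^ (-(Q : ℝ) + 3 / 4) * (8 * A) ^ (Q + 1) = B * A ^ (7 / 4 : ℝ) := by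
    rw [mul_pow, ← hB, mul_left_comm]
    congr 1
    rw [← Real.rpow_natCast A (Q + 1), ← Real.rpow_add hA0]
    congr 1
    push_cast
    ring
  have e4 : 2 * B ≤ A ^ (1 / 4 : ℝ) := by
    have h1 : 2 * B = ((2 * B) ^ 4) ^ (1 / 4 : ℝ) := by
      rw [← Real.rpow_natCast (2 * B) 4, ← Real.rpow_mul (by positivity)]
      norm_num
    rw [h1]
    exact Real.rpow_le_rpow (by positivity) hb (by norm_num)
  have e5 : A ^ (7 / 4 : ℝ) * A ^ (1 / 4 : ℝ) = A ^ 2 := by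
    rw [← Real.rpow_add hA0, ← Real.rpow_natCast]
    norm_num
  have e6 : 0 < A ^ (7 / 4 : ℝ) := Real.rpow_pos_of_pos hA0 _
  have e7 : A ^ (7 / 4 : ℝ) * (2 * B) ≤ A ^ 2 := by
    rw [← e5]
    exact mul_le_mul_of_nonneg_left e4 e6.le
  rw [e3]
  have e8 : A ^ 2 / 2 ≤ fc * S := by
    have h0 : 0 < A ^ 2 / 2 := by positivity
    calc A ^ 2 / 2 ≤ S := hT1
      _ = 1 * S := (one_mul S).symm
      _ ≤ fc * S := mul_le_mul_of_nonneg_right hfc1 (by linarith)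
  linarith

private theorem E1_hi (Q : ℕ) (A N fc S : ℝ) (hA1 : 1 ≤ A) (hN0 : 0 < N) (hfc1 : 1 ≤ fc)
    (hb : 7 * fc ^ 2 ≤ A) (hN7 : N ≤ 7 * A) (hT2 : S ≤ A ^ Q) :
    fc * S / A ^ (Q + 1) ≤ N ^ (-(1 / 2) : ℝ) := by
  have hA0 : 0 < A := by linarith
  have hfc0 : 0 < fc := by linarith
  have e1 : fc * S / A ^ (Q + 1) ≤ fc / A := by
    rw [div_le_div_iff₀ (by positivity) hA0, pow_succ]
    have h1 : fc * S ≤ fc * A ^ Q := mul_le_mul_of_nonneg_left hT2 hfc0.le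
    calc fc * S * A ≤ fc * A ^ Q * A := mul_le_mul_of_nonneg_right h1 hA0.le
      _ = fc * (A ^ Q * A) := by ring
  have e2 : (7 * A) ^ (-(1 / 2) : ℝ) ≤ N ^ (-(1 / 2) : ℝ) :=
    Real.rpow_le_rpow_of_nonpos hN0 hN7 (by norm_num)
  refine e1.trans (le_trans ?_ e2)
  rw [Real.rpow_neg (by positivity), ← Real.sqrt_eq_rpow, div_le_iff₀ hA0]
  have e3 : 0 < Real.sqrt (7 * A) := Real.sqrt_pos.2 (by positivity)
  rw [inv_mul_eq_div, le_div_iff₀ e3]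
  have e4 : fc * Real.sqrt (7 * A) ≤ Real.sqrt (A ^ 2) := by
    rw [← Real.sqrt_sq hfc0.le, ← Real.sqrt_mul (by positivity)]
    apply Real.sqrt_le_sqrt
    nlinarith
  rwa [Real.sqrt_sq hA0.le] at e4

/-- ROW E1.  `j = Q`.  For the sign `s = ±1` with `s T (-1)^j > 0` the norm does not change if `T/n` is replaced
by `s T/n` (conjugation).  Apply `PP_all j` with `ε = 1/2`, constant `A := 8^(j+1)` to `N = v - u`,
`a n = s T/(u+1+n)`: by `fd` with `G i x = s T (-1)^i i!/x^(i+1)` on `[u+1, v]` the `j`-th differences lie in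
`[lo,hi] = [j! |T|/(8A)^(j+1), j! |T|/A^(j+1)]`, and they are monotone (the `(j+1)`-st differences are `≤ 0`,
`fd (j+1)`).  Conditions, for `A ≥ A₀(Q)` and `N ≥ A^(1-1/(4j))`:
`hi ≤ j!/A ≤ (7A)^(-1/2) ≤ N^(-1/2)`;
`N^(-j+1/2) ≤ A^((1-1/(4j))(-j+1/2)) ≤ A^(-j+3/4) ≤ j! A²/(2 (8A)^(j+1)) ≤ lo`.
If `N < A^(1-1/(4j))` use the trivial bound `N` (`norm_sum_le`, `norm_e`), if `A < A₀` the trivial bound `7A`.
Result: `σ = min(σ_PP, 1/(4j))` (note `N^(1-σ) ≤ (7A)^(1-σ) ≤ 7 A^(1-σ)`). -/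
theorem pp_inv (Q : ℕ) (hQ : 2 ≤ Q) : ∃ σ C : ℝ, 0 < σ ∧ 0 < C ∧ ∀ A u v : ℕ, 1 ≤ A → A ≤ u → u ≤ v →
    v ≤ 8 * A → ∀ T : ℝ, (A : ℝ) ^ 2 / 2 ≤ |T| → |T| ≤ (A : ℝ) ^ Q →
      ‖∑ n ∈ Ioc u v, e (T / n)‖ ≤ C * (A : ℝ) ^ (1 - σ) := by
  have hQ1 : 1 ≤ Q := by omega
  have hQr : (2 : ℝ) ≤ Q := by exact_mod_cast hQ
  obtain ⟨σ₀, C₀, hσ₀, hC₀, hP⟩ := PP_all Q hQ1 (1 / 2) (by norm_num) (by norm_num) (8 ^ (Q + 1))
    (one_le_pow₀ (by norm_num))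
  obtain ⟨σ, hσ, hσ1, hσ2, hσ3⟩ : ∃ σ : ℝ, 0 < σ ∧ σ ≤ σ₀ ∧ σ ≤ 1 / (4 * Q) ∧ σ ≤ 1 := by
    refine ⟨min σ₀ (1 / (4 * Q)), lt_min hσ₀ (by positivity), min_le_left _ _, min_le_right _ _, ?_⟩
    refine (min_le_right _ _).trans ?_
    rw [div_le_one (by positivity)]
    linarith
  set fc : ℝ := (Q.factorial : ℝ) with hfc
  have hfc1 : 1 ≤ fc := by
    rw [hfc]
    exact_mod_cast Nat.one_le_iff_ne_zero.2 (Nat.factorial_ne_zero Q)
  set A₀ : ℝ := 7 * fc ^ 2 + (2 * 8 ^ (Q + 1)) ^ 4 with hA₀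
  have hA₀pos : 0 < A₀ := by positivity
  refine ⟨σ, 7 * A₀ + 7 * C₀ + 1, hσ, by positivity, ?_⟩
  intro A u v hA hu huv hv T hT1 hT2
  have hA1 : (1 : ℝ) ≤ A := by exact_mod_cast hA
  have hA0 : (0 : ℝ) < A := by linarith
  have hpow1 : 1 ≤ (A : ℝ) ^ (1 - σ) := Real.one_le_rpow hA1 (by linarith)
  have hpow0 : 0 < (A : ℝ) ^ (1 - σ) := by linarith
  have hN7 : ((v - u : ℕ) : ℝ) ≤ 7 * A := by
    have : v - u ≤ 7 * A := by omega
    exact_mod_cast this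
  have htriv := E1_triv u v T
  simp only [← ee_eq_e]
  by_cases hbig : (A : ℝ) < A₀
  · refine htriv.trans (hN7.trans ?_)
    have h1 : 7 * (A : ℝ) ≤ 7 * A₀ := by linarith
    have h2 : 7 * A₀ ≤ 7 * A₀ * (A : ℝ) ^ (1 - σ) := by nlinarith
    have h3 : 0 ≤ (7 * C₀ + 1) * (A : ℝ) ^ (1 - σ) := by positivity
    nlinarith
  push Not at hbig
  by_cases hsm : ((v - u : ℕ) : ℝ) < (A : ℝ) ^ (1 - 1 / (4 * (Q : ℝ)))
  · refine htriv.trans (hsm.le.trans ?_)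
    have h1 : (A : ℝ) ^ (1 - 1 / (4 * (Q : ℝ))) ≤ (A : ℝ) ^ (1 - σ) :=
      Real.rpow_le_rpow_of_exponent_le hA1 (by linarith)
    have h3 : 0 ≤ (7 * A₀ + 7 * C₀) * (A : ℝ) ^ (1 - σ) := by positivity
    nlinarith
  push Not at hsm
  set N : ℕ := v - u with hN
  have h14 : 1 / (4 * (Q : ℝ)) ≤ 1 := by
    rw [div_le_one (by positivity)]
    linarith
  have hN1 : (1 : ℝ) ≤ N := le_trans (Real.one_le_rpow hA1 (by linarith)) hsm
  have hN1' : 1 ≤ N := by exact_mod_cast hN1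
  have hN0 : (0 : ℝ) < N := by linarith
  have hT0 : 0 < |T| := by
    have : (0 : ℝ) < (A : ℝ) ^ 2 / 2 := by positivity
    linarith
  have hDD := E1_DD Q A u v hA hu hv |T| hT0
  have key := hP N _ _ _ hN1' hDD (by positivity) ?_ ?_ ?_
  · -- conclusion
    have hsum : ∑ n ∈ range N, ee ((fun k : ℕ => E1_G Q |T| 0 ((u + 1 : ℝ) + k)) n) =
        ∑ n ∈ Ioc u v, ee (((-1) ^ Q * |T|) / n) := by
      rw [E1_shift]
      refine sum_congr rfl fun n _ => ?_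
      congr 1
      simp only [E1_G]
      push_cast
      simp
    rw [hsum] at key
    have hor : (-1 : ℝ) ^ Q * |T| = T ∨ (-1 : ℝ) ^ Q * |T| = -T := by
      rcases neg_one_pow_eq_or ℝ Q with h | h <;> rcases abs_choice T with h' | h' <;> rw [h, h'] <;> simp
    have key2 : ‖∑ n ∈ Ioc u v, ee (T / n)‖ ≤ C₀ * (N : ℝ) ^ (1 - σ₀) := by
      rcases hor with h | h
      · rw [h] at key; exact key
      · rw [h, E1_neg] at key; exact key
    refine key2.trans ?_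
    have h1 : (N : ℝ) ^ (1 - σ₀) ≤ (N : ℝ) ^ (1 - σ) :=
      Real.rpow_le_rpow_of_exponent_le hN1 (by linarith)
    have h2 : (N : ℝ) ^ (1 - σ) ≤ (7 * A : ℝ) ^ (1 - σ) :=
      Real.rpow_le_rpow hN0.le hN7 (by linarith)
    have h3 : (7 * A : ℝ) ^ (1 - σ) = 7 ^ (1 - σ) * (A : ℝ) ^ (1 - σ) :=
      Real.mul_rpow (by norm_num) hA0.le
    have h4 : (7 : ℝ) ^ (1 - σ) ≤ 7 := by
      calc (7 : ℝ) ^ (1 - σ) ≤ 7 ^ (1 : ℝ) := Real.rpow_le_rpow_of_exponent_le (by norm_num) (by linarith)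
        _ = 7 := Real.rpow_one _
    have h5 : (N : ℝ) ^ (1 - σ₀) ≤ 7 * (A : ℝ) ^ (1 - σ) := by
      refine h1.trans (h2.trans ?_)
      rw [h3]
      exact mul_le_mul_of_nonneg_right h4 hpow0.le
    have h6 : C₀ * (N : ℝ) ^ (1 - σ₀) ≤ C₀ * (7 * (A : ℝ) ^ (1 - σ)) := mul_le_mul_of_nonneg_left h5 hC₀.le
    have h7 : 0 ≤ (7 * A₀ + 1) * (A : ℝ) ^ (1 - σ) := by positivity
    nlinarith
  · -- hi ≤ 8^(Q+1) lo
    rw [mul_pow]
    apply le_of_eq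
    field_simp
  · -- lower bound for lo
    refine E1_lo Q hQr A N fc |T| hA1 hfc1 ?_ hsm hT1
    have : 0 ≤ 7 * fc ^ 2 := by positivity
    linarith
  · -- upper bound for hi
    refine E1_hi Q A N fc |T| hA1 hN0 hfc1 ?_ hN7 hT2
    have : 0 < (2 * 8 ^ (Q + 1) : ℝ) ^ 4 := by positivity
    linarith

end Pool.Agent.Lib.MP_4ae430_nt
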