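import Pool.Agent.Lib.MP_4ae430_nt.E0
import Pool.Agent.Lib.MP_4ae430_nt.E1

/-! Row E2 (about 80 lines). -/

set_option autoImplicit false

namespace Pool.Agent.Lib.MP_4ae430_nt

open Finset
open Pool.Agent.Lib.MP_d9bc60_nt.UV (e vm)

private lemma e2_log (C : ℕ) (C' r : ℝ) (hC' : 0 < C') (hr : 0 < r) :
    ∃ K₀ : ℕ, ∀ k : ℕ, K₀ ≤ k → C' * Real.log k ^ C ≤ (k : ℝ) ^ r := by
  have h := (isLittleO_log_rpow_rpow_atTop (C : ℝ) hr).bound (c := 1 / C') (by positivity)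
  have h2 := (tendsto_natCast_atTop_atTop (R := ℝ)).eventually h
  obtain ⟨K₀, hK⟩ := Filter.eventually_atTop.1 h2
  refine ⟨max K₀ 1, fun k hk => ?_⟩
  have h3 := hK k ((le_max_left _ _).trans hk)
  have hk1 : 1 ≤ k := (le_max_right _ _).trans hk
  have hk1' : (1 : ℝ) ≤ (k : ℝ) := by exact_mod_cast hk1
  have hl : 0 ≤ Real.log k := Real.log_nonneg hk1'
  rw [Real.rpow_natCast, Real.norm_of_nonneg (pow_nonneg hl C),
    Real.norm_of_nonneg (Real.rpow_nonneg (by linarith) r)] at h3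
  have h4 := mul_le_mul_of_nonneg_left h3 hC'.le
  have h5 : C' * (1 / C' * (k : ℝ) ^ r) = (k : ℝ) ^ r := by field_simp
  linarith

/-- ROW E2.  Let `Q` be a natural number `≥ 2`, `≥ 15/δ + 1`.  If `|T| ≤ A²/2` use `kl_inv`.  Otherwise
`|T| ≤ k^(3/δ) ≤ (A^5)^(3/δ) ≤ A^Q` (as `A ≥ k^(1/5)`, `A ≥ 1`), and `pp_inv Q` gives `C' A^(1-σ) = A · C' A^(-σ)
≤ A · C' k^(-σ/5) ≤ A/(log k)^C` for large `k` (`isLittleO_log_rpow_rpow_atTop` or similar). -/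
theorem es_large (δ : ℝ) (hδ : 0 < δ) (C : ℕ) : ∃ K₀ : ℕ, ∀ k : ℕ, K₀ ≤ k →
    ES ((k : ℝ) ^ (1 / 5 : ℝ)) ((k : ℝ) ^ 2) (Real.log k ^ C) (((k : ℝ) ^ (1 / δ)) ^ 3) := by
  obtain ⟨Q, hQ⟩ := exists_nat_ge (max 2 (15 / δ))
  have hQ2 : 2 ≤ Q := by exact_mod_cast (le_max_left _ _).trans hQ
  have hQδ : 15 / δ ≤ (Q : ℝ) := (le_max_right _ _).trans hQ
  obtain ⟨σ, C', hσ, hC', hpp⟩ := pp_inv Q hQ2
  obtain ⟨K₀, hK₀⟩ := e2_log C C' (σ / 5) hC' (by positivity)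
  refine ⟨max K₀ 3, fun k hk => ?_⟩
  have hkK : K₀ ≤ k := (le_max_left _ _).trans hk
  have hk3 : 3 ≤ k := (le_max_right _ _).trans hk
  have hk3' : (3 : ℝ) ≤ (k : ℝ) := by exact_mod_cast hk3
  have hk0 : (0 : ℝ) < (k : ℝ) := by linarith
  have hlog : 0 < Real.log k := Real.log_pos (by linarith)
  have hlogC : 0 < Real.log k ^ C := pow_pos hlog C
  intro A u v hA hA' hu huv hv T hT0 hT1
  have hkA1 : (1 : ℝ) ≤ (k : ℝ) ^ (1 / 5 : ℝ) := Real.one_le_rpow (by linarith) (by norm_num)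
  have hA1' : (1 : ℝ) ≤ (A : ℝ) := hkA1.trans hA
  have hA1 : 1 ≤ A := by exact_mod_cast hA1'
  have hA0 : (0 : ℝ) < (A : ℝ) := by linarith
  by_cases hc : |T| ≤ (A : ℝ) ^ 2 / 2
  · have h := kl_inv A u v hA1 hu huv hv T hT0 hc
    have h2 : 0 ≤ (A : ℝ) / Real.log k ^ C := by positivity
    linarith
  · push Not at hc
    have hkA5 : (k : ℝ) ≤ (A : ℝ) ^ 5 := by
      have h := pow_le_pow_left₀ (by positivity) hA 5
      rw [← Real.rpow_natCast, ← Real.rpow_mul hk0.le] at h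
      norm_num at h
      exact h
    have hTQ : |T| ≤ (A : ℝ) ^ Q := by
      refine hT1.trans ?_
      have e1 : ((k : ℝ) ^ (1 / δ)) ^ 3 = (k : ℝ) ^ (3 / δ) := by
        rw [← Real.rpow_natCast, ← Real.rpow_mul hk0.le]
        congr 1
        push_cast
        ring
      have e2 : (k : ℝ) ^ (3 / δ) ≤ ((A : ℝ) ^ 5) ^ (3 / δ) :=
        Real.rpow_le_rpow hk0.le hkA5 (by positivity)
      have e3 : ((A : ℝ) ^ 5) ^ (3 / δ) = (A : ℝ) ^ (15 / δ) := by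
        rw [← Real.rpow_natCast (A : ℝ) 5, ← Real.rpow_mul hA0.le]
        congr 1
        push_cast
        ring
      have e4 : (A : ℝ) ^ (15 / δ) ≤ (A : ℝ) ^ (Q : ℝ) := Real.rpow_le_rpow_of_exponent_le hA1' hQδ
      rw [Real.rpow_natCast] at e4
      rw [e1]
      exact (e2.trans_eq e3).trans e4
    have h := hpp A u v hA1 hu huv hv T hc.le hTQ
    have hAσ : C' * Real.log k ^ C ≤ (A : ℝ) ^ σ := by
      refine (hK₀ k hkK).trans ?_
      have e5 : (k : ℝ) ^ (σ / 5) = ((k : ℝ) ^ (1 / 5 : ℝ)) ^ σ := by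
        rw [← Real.rpow_mul hk0.le]
        congr 1
        ring
      rw [e5]
      exact Real.rpow_le_rpow (by positivity) hA hσ.le
    have hmain : C' * (A : ℝ) ^ (1 - σ) ≤ (A : ℝ) / Real.log k ^ C := by
      rw [le_div_iff₀ hlogC]
      have e6 : (A : ℝ) ^ (1 - σ) * (A : ℝ) ^ σ = A := by
        rw [← Real.rpow_add hA0]
        simp
      calc C' * (A : ℝ) ^ (1 - σ) * Real.log k ^ C = (A : ℝ) ^ (1 - σ) * (C' * Real.log k ^ C) := by ring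
        _ ≤ (A : ℝ) ^ (1 - σ) * (A : ℝ) ^ σ := mul_le_mul_of_nonneg_left hAσ (by positivity)
        _ = A := e6
    have h2 : 0 ≤ 144 * (A : ℝ) ^ 2 / |T| := by positivity
    linarith

end Pool.Agent.Lib.MP_4ae430_nt
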