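import Pool.Agent.Lib.MP_4ae430_nt.Defs

/-! Row F1a (about 50 lines). -/

set_option autoImplicit false

namespace Pool.Agent.Lib.MP_4ae430_nt

open Finset
open Pool.Agent.Lib.MP_d9bc60_nt.UV (e vm nn PS dicho)

/-- ROW F1a.  If `nn(m/p + k/(8D)) < k/(8D)` and `D < p ≤ 4D` then `m/p + ρ = n + t`, `|t| < ρ`, `ρ = k/(8D)`, so
`j := p n - m = p (ρ - t) ∈ (0, 2ρp] ⊂ (0, k]` is an integer and `p ∣ m + j`. -/
theorem dvd_of_nn (m k D p : ℕ) (hk : 1 ≤ k) (hD : 1 ≤ D) (hp : D < p) (hp2 : p ≤ 4 * D)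
    (h : nn ((m : ℝ) / p + (k : ℝ) / (8 * D)) < (k : ℝ) / (8 * D)) : ∃ j ∈ Icc 1 k, p ∣ m + j := by
  have hp0 : (0 : ℝ) < p := by
    have : 0 < p := by omega
    exact_mod_cast this
  have hD0 : (0 : ℝ) < D := by exact_mod_cast hD
  set ρ : ℝ := (k : ℝ) / (8 * D) with hρ
  set n : ℤ := round ((m : ℝ) / p + ρ) with hn
  have h1 : |(m : ℝ) / p + ρ - n| < ρ := h
  obtain ⟨h2, h3⟩ := abs_lt.1 h1
  have hmp : (p : ℝ) * ((m : ℝ) / p) = m := by field_simp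
  have hlow : (0 : ℝ) < (p : ℝ) * n - m := by
    have h4 : (0 : ℝ) < p * (n - (m : ℝ) / p) := by
      apply mul_pos hp0
      linarith
    have h5 : (p : ℝ) * (n - (m : ℝ) / p) = p * n - m := by rw [mul_sub, hmp]
    linarith
  have hup : (p : ℝ) * n - m ≤ k := by
    have h4 : (p : ℝ) * (n - (m : ℝ) / p) ≤ p * (2 * ρ) := by
      apply mul_le_mul_of_nonneg_left _ hp0.le
      linarith
    have h5 : (p : ℝ) * (n - (m : ℝ) / p) = p * n - m := by rw [mul_sub, hmp]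
    have h6 : (p : ℝ) * (2 * ρ) ≤ k := by
      have h7 : (p : ℝ) ≤ 4 * D := by exact_mod_cast hp2
      have hρ0 : 0 ≤ 2 * ρ := by positivity
      calc (p : ℝ) * (2 * ρ) ≤ 4 * D * (2 * ρ) := by gcongr
        _ = k := by rw [hρ]; field_simp; norm_num
    linarith
  have hlow' : 0 < (p : ℤ) * n - m := by exact_mod_cast hlow
  have hup' : (p : ℤ) * n - m ≤ k := by exact_mod_cast hup
  refine ⟨((p : ℤ) * n - m).toNat, ?_, ?_⟩
  · rw [Finset.mem_Icc]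
    constructor <;> omega
  · have h8 : (((p : ℤ) * n - m).toNat : ℤ) = (p : ℤ) * n - m := Int.toNat_of_nonneg hlow'.le
    have h9 : (p : ℤ) ∣ ((m + ((p : ℤ) * n - m).toNat : ℕ) : ℤ) := by
      push_cast
      rw [h8]
      exact ⟨n, by ring⟩
    exact_mod_cast h9

end Pool.Agent.Lib.MP_4ae430_nt
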