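import Pool.Agent.Lib.MP_4ae430_nt.M1a

/-! Row M1b (about 180 lines). -/

set_option autoImplicit false

namespace Pool.Agent.Lib.MP_4ae430_nt

open Finset
open Pool.Agent.Lib.MP_d9bc60_nt.UV (e vm nn PS dicho)

theorem M1b_e_add (x y : ℝ) : e (x + y) = e x * e y := by
  unfold Pool.Agent.Lib.MP_d9bc60_nt.UV.e
  rw [← Complex.exp_add]; congr 1; push_cast; ring

theorem M1b_norm_e (x : ℝ) : ‖e x‖ = 1 := by
  unfold Pool.Agent.Lib.MP_d9bc60_nt.UV.e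
  exact Complex.norm_exp_ofReal_mul_I _

theorem M1b_e_zero : e 0 = 1 := by
  unfold Pool.Agent.Lib.MP_d9bc60_nt.UV.e
  simp

theorem M1b_cos (y : ℝ) : ((Real.cos (2 * Real.pi * y) : ℝ) : ℂ) = (e y + e (-y)) / 2 := by
  unfold Pool.Agent.Lib.MP_d9bc60_nt.UV.e
  rw [Complex.ofReal_cos, Complex.cos]
  congr 3
  push_cast; ring

/-- expansion of the square of the kernel times the cosine -/
theorem M1b_g (J : ℕ) (y c : ℝ) :
    ((((‖∑ a ∈ range J, e (a * y)‖ ^ 2) ^ 2 * (Real.cos (2 * Real.pi * y) - c) : ℝ)) : ℂ) =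
      ∑ h ∈ Ioo (-(J : ℤ)) J, ∑ h' ∈ Ioo (-(J : ℤ)) J,
        ((((J : ℝ) - |(h : ℝ)|) * ((J : ℝ) - |(h' : ℝ)|) : ℝ) : ℂ) *
          ((e (((h + h' + 1 : ℤ) : ℝ) * y) + e (((h + h' - 1 : ℤ) : ℝ) * y)) / 2 -
            (c : ℂ) * e (((h + h' : ℤ) : ℝ) * y)) := by
  have h1 : ((((‖∑ a ∈ range J, e (a * y)‖ ^ 2) ^ 2 * (Real.cos (2 * Real.pi * y) - c) : ℝ)) : ℂ) =
      ((‖∑ a ∈ range J, e (a * y)‖ ^ 2 : ℝ) : ℂ) * ((‖∑ a ∈ range J, e (a * y)‖ ^ 2 : ℝ) : ℂ) *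
        (((Real.cos (2 * Real.pi * y) : ℝ) : ℂ) - (c : ℂ)) := by
    push_cast; ring
  rw [h1, fejer, M1b_cos, Finset.sum_mul_sum, Finset.sum_mul]
  refine Finset.sum_congr rfl (fun h _ => ?_)
  rw [Finset.sum_mul]
  refine Finset.sum_congr rfl (fun h' _ => ?_)
  have e1 : (((h + h' + 1 : ℤ) : ℝ) * y) = (h : ℝ) * y + (h' : ℝ) * y + y := by push_cast; ring
  have e2 : (((h + h' - 1 : ℤ) : ℝ) * y) = (h : ℝ) * y + (h' : ℝ) * y + (-y) := by push_cast; ring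
  have e3 : (((h + h' : ℤ) : ℝ) * y) = (h : ℝ) * y + (h' : ℝ) * y := by push_cast; ring
  rw [e1, e2, e3, M1b_e_add _ y, M1b_e_add _ (-y), M1b_e_add ((h : ℝ) * y)]
  push_cast
  ring

/-- total mass of the kernel -/
theorem M1b_sumK (J : ℕ) : ∑ h ∈ Ioo (-(J : ℤ)) J, ((J : ℝ) - |(h : ℝ)|) = (J : ℝ) ^ 2 := by
  have h := fejer J 0
  have h2 : ((‖∑ a ∈ range J, e (a * (0 : ℝ))‖ ^ 2 : ℝ) : ℂ) = (((J : ℝ) ^ 2 : ℝ) : ℂ) := by
    simp only [mul_zero, M1b_e_zero, Finset.sum_const, Finset.card_range, nsmul_eq_mul, mul_one,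
      Complex.norm_natCast]
  have h3 : ∑ h ∈ Ioo (-(J : ℤ)) J, ((J : ℝ) - |(h : ℝ)| : ℝ) * e (h * (0 : ℝ)) =
      ((∑ h ∈ Ioo (-(J : ℤ)) J, ((J : ℝ) - |(h : ℝ)|) : ℝ) : ℂ) := by
    rw [Complex.ofReal_sum]
    refine Finset.sum_congr rfl (fun h _ => ?_)
    rw [mul_zero, M1b_e_zero, mul_one]
  rw [h2, h3] at h
  exact_mod_cast h.symm

theorem M1b_E0 (J : ℕ) : (J : ℝ) ^ 3 ≤ 2 * ∑ h ∈ Ioo (-(J : ℤ)) J, ((J : ℝ) - |(h : ℝ)|) ^ 2 := by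
  rcases Nat.eq_zero_or_pos J with rfl | hJ
  · simp
  have hJ' : (0 : ℝ) < J := by exact_mod_cast hJ
  have h1 := sq_sum_le_card_mul_sum_sq (s := Ioo (-(J : ℤ)) J) (f := fun h : ℤ => ((J : ℝ) - |(h : ℝ)|))
  rw [M1b_sumK] at h1
  have h2 : ((Ioo (-(J : ℤ)) (J : ℤ)).card : ℝ) ≤ 2 * J := by
    rw [Int.card_Ioo]
    have : ((J : ℤ) - (-(J : ℤ)) - 1).toNat ≤ 2 * J := by omega
    exact_mod_cast this
  have h3 : 0 ≤ ∑ h ∈ Ioo (-(J : ℤ)) J, ((J : ℝ) - |(h : ℝ)|) ^ 2 :=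
    Finset.sum_nonneg (fun h _ => sq_nonneg _)
  have h4 : (J : ℝ) * (J : ℝ) ^ 3 ≤
      (J : ℝ) * (2 * ∑ h ∈ Ioo (-(J : ℤ)) J, ((J : ℝ) - |(h : ℝ)|) ^ 2) := by
    calc (J : ℝ) * (J : ℝ) ^ 3 = ((J : ℝ) ^ 2) ^ 2 := by ring
      _ ≤ _ := h1
      _ ≤ 2 * J * ∑ h ∈ Ioo (-(J : ℤ)) J, ((J : ℝ) - |(h : ℝ)|) ^ 2 := by gcongr
      _ = _ := by ring
  exact le_of_mul_le_mul_left h4 hJ'

/-- picking one term -/
theorem M1b_pick (J : ℕ) (a : ℤ) (ha : |a| ≤ J) :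
    ∑ h' ∈ Ioo (-(J : ℤ)) J, ((J : ℝ) - |(h' : ℝ)|) * (if h' = a then (1 : ℝ) else 0) =
      (J : ℝ) - |(a : ℝ)| := by
  simp only [mul_ite, mul_one, mul_zero]
  rw [Finset.sum_ite_eq' (Ioo (-(J : ℤ)) J) a (fun h' => ((J : ℝ) - |(h' : ℝ)|))]
  split_ifs with h
  · rfl
  · rw [Finset.mem_Ioo, not_and_or, not_lt, not_lt] at h
    have h2 : |a| = (J : ℤ) := by
      rw [abs_le] at ha
      rcases h with h | h
      · have : a = -(J : ℤ) := by omega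
        rw [this, abs_neg, abs_of_nonneg (by positivity)]
      · have : a = (J : ℤ) := by omega
        rw [this, abs_of_nonneg (by positivity)]
    have h3 : |(a : ℝ)| = (J : ℝ) := by
      have : ((|a| : ℤ) : ℝ) = ((J : ℤ) : ℝ) := by rw [h2]
      push_cast at this
      exact this
    rw [h3, sub_self]

/-- the main coefficient -/
theorem M1b_coef (J : ℕ) (hJ : 1 ≤ J) (c : ℝ) :
    ∑ h ∈ Ioo (-(J : ℤ)) J, ∑ h' ∈ Ioo (-(J : ℤ)) J,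
        (((J : ℝ) - |(h : ℝ)|) * ((J : ℝ) - |(h' : ℝ)|)) *
          (((if h + h' + 1 = 0 then (1 : ℝ) else 0) + (if h + h' - 1 = 0 then (1 : ℝ) else 0)) / 2 -
            c * (if h + h' = 0 then (1 : ℝ) else 0)) =
      (1 - c) * (∑ h ∈ Ioo (-(J : ℤ)) J, ((J : ℝ) - |(h : ℝ)|) ^ 2) - J := by
  have h1 : ∀ h ∈ Ioo (-(J : ℤ)) J, ∑ h' ∈ Ioo (-(J : ℤ)) J,
        (((J : ℝ) - |(h : ℝ)|) * ((J : ℝ) - |(h' : ℝ)|)) *
          (((if h + h' + 1 = 0 then (1 : ℝ) else 0) + (if h + h' - 1 = 0 then (1 : ℝ) else 0)) / 2 -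
            c * (if h + h' = 0 then (1 : ℝ) else 0)) =
      (1 - c) * ((J : ℝ) - |(h : ℝ)|) ^ 2 - (if h = 0 then (J : ℝ) else 0) := by
    intro h hh
    rw [Finset.mem_Ioo] at hh
    have p1 := M1b_pick J (-h - 1) (by rw [abs_le]; constructor <;> omega)
    have p2 := M1b_pick J (-h + 1) (by rw [abs_le]; constructor <;> omega)
    have p3 := M1b_pick J (-h) (by rw [abs_le]; constructor <;> omega)
    have q1 : ∀ h' : ℤ, (if h + h' + 1 = 0 then (1 : ℝ) else 0) = if h' = -h - 1 then 1 else 0 := by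
      intro h'
      by_cases hc : h' = -h - 1
      · rw [if_pos hc, if_pos (by omega)]
      · rw [if_neg hc, if_neg (by omega)]
    have q2 : ∀ h' : ℤ, (if h + h' - 1 = 0 then (1 : ℝ) else 0) = if h' = -h + 1 then 1 else 0 := by
      intro h'
      by_cases hc : h' = -h + 1
      · rw [if_pos hc, if_pos (by omega)]
      · rw [if_neg hc, if_neg (by omega)]
    have q3 : ∀ h' : ℤ, (if h + h' = 0 then (1 : ℝ) else 0) = if h' = -h then 1 else 0 := by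
      intro h'
      by_cases hc : h' = -h
      · rw [if_pos hc, if_pos (by omega)]
      · rw [if_neg hc, if_neg (by omega)]
    have e1 : ∑ h' ∈ Ioo (-(J : ℤ)) J,
        (((J : ℝ) - |(h : ℝ)|) * ((J : ℝ) - |(h' : ℝ)|)) *
          (((if h + h' + 1 = 0 then (1 : ℝ) else 0) + (if h + h' - 1 = 0 then (1 : ℝ) else 0)) / 2 -
            c * (if h + h' = 0 then (1 : ℝ) else 0)) =
        ((J : ℝ) - |(h : ℝ)|) * ((∑ h' ∈ Ioo (-(J : ℤ)) J, ((J : ℝ) - |(h' : ℝ)|) *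
            (if h' = -h - 1 then (1 : ℝ) else 0)) / 2 +
          (∑ h' ∈ Ioo (-(J : ℤ)) J, ((J : ℝ) - |(h' : ℝ)|) *
            (if h' = -h + 1 then (1 : ℝ) else 0)) / 2 -
          c * ∑ h' ∈ Ioo (-(J : ℤ)) J, ((J : ℝ) - |(h' : ℝ)|) *
            (if h' = -h then (1 : ℝ) else 0)) := by
      rw [Finset.sum_div, Finset.sum_div, Finset.mul_sum (Ioo (-(J : ℤ)) J) _ c,
        ← Finset.sum_add_distrib, ← Finset.sum_sub_distrib, Finset.mul_sum]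
      refine Finset.sum_congr rfl (fun h' _ => ?_)
      rw [q1 h', q2 h', q3 h']
      ring
    rw [e1, p1, p2, p3]
    push_cast
    rcases lt_trichotomy h 0 with hneg | hz | hpos
    · have hn : (h : ℝ) ≤ -1 := by exact_mod_cast (by omega : h ≤ -1)
      rw [if_neg hneg.ne, abs_of_neg (by linarith : (h : ℝ) < 0),
        abs_of_nonneg (by linarith : (0 : ℝ) ≤ -(h : ℝ) - 1),
        abs_of_nonneg (by linarith : (0 : ℝ) ≤ -(h : ℝ) + 1),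
        abs_of_nonneg (by linarith : (0 : ℝ) ≤ -(h : ℝ))]
      ring
    · subst hz
      simp
      ring
    · have hn : (1 : ℝ) ≤ (h : ℝ) := by exact_mod_cast (by omega : 1 ≤ h)
      rw [if_neg hpos.ne', abs_of_pos (by linarith : (0 : ℝ) < (h : ℝ)),
        abs_of_nonpos (by linarith : -(h : ℝ) - 1 ≤ (0 : ℝ)),
        abs_of_nonpos (by linarith : -(h : ℝ) + 1 ≤ (0 : ℝ)),
        abs_of_nonpos (by linarith : -(h : ℝ) ≤ (0 : ℝ))]
      ring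
  rw [Finset.sum_congr rfl h1, Finset.sum_sub_distrib, ← Finset.mul_sum]
  congr 1
  rw [Finset.sum_ite_eq' (Ioo (-(J : ℤ)) J) 0 (fun _ => (J : ℝ)), if_pos]
  rw [Finset.mem_Ioo]
  constructor <;> omega

theorem M1b_cos_nn (y : ℝ) : Real.cos (2 * Real.pi * y) = Real.cos (2 * Real.pi * nn y) := by
  unfold Pool.Agent.Lib.MP_d9bc60_nt.UV.nn
  have h1 : 2 * Real.pi * |y - round y| = |2 * Real.pi * (y - round y)| := by
    rw [abs_mul, abs_of_pos (by positivity : (0 : ℝ) < 2 * Real.pi)]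
  rw [h1, Real.cos_abs]
  have h2 : 2 * Real.pi * (y - round y) = 2 * Real.pi * y - (round y : ℝ) * (2 * Real.pi) := by ring
  rw [h2, Real.cos_sub_int_mul_two_pi]

/-- ROW M1 (a minorant of a short arc).  Put `F(y) = ‖∑_{a<J} e(a y)‖²` and
`g(y) = F(y)² (cos 2πy - cos 2πρ)`.  `g(y) ≤ 0` if `nn y ≥ ρ` and `g(y) ≤ J⁴ (1 - cos 2πρ) ≤ 20 J⁴ ρ²` always
(`1 - cos x ≤ x²/2`).  By `fejer`, `F² = ∑_{h,h'} (J-|h|)(J-|h'|) e((h+h')y)` and
`cos 2πy = (e(y) + e(-y))/2`, so `∑_p w_p g(y_p)` is a combination of the sums `S_h = ∑_p w_p e(h y_p)`, `|h| ≤ 2J`;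
the total of the absolute values of the coefficients is `≤ 2J⁴` and the coefficient of `S_0 = ∑ w_p` is
`E₁ - E₀ cos 2πρ` with `E₀ = ∑_{|h|<J} (J-|h|)²`, `E₁ = ∑_{h} (J-|h|)₊ (J-|h+1|)₊`.
`E₀ - E₁ = (1/2) ∑_h ((J-|h|)₊ - (J-|h+1|)₊)² = J`, `E₀ ≥ 2J³/3`, `1 - cos 2πρ = 2 sin²(πρ) ≥ 8ρ²`, so the coefficient
is `≥ (16/3) J³ρ² - J ≥ (13/3) J`.  Hence
`(13/3) J W - 2J⁴ E ≤ ∑_p w_p g(y_p) ≤ 20 J⁴ρ² ∑_{nn(y_p) < ρ} w_p`, and `J³ρ² ≤ 8/ρ`, so dividing by `20 J⁴ ρ²` gives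
`≥ (13/480) ρ W - E/(10ρ²)`. -/
theorem minorant (J : ℕ) (ρ : ℝ) (hρ : 0 < ρ) (hρ2 : ρ ≤ 1 / 2) (hJ1 : 1 ≤ J * ρ) (hJ2 : J * ρ ≤ 2)
    (s : Finset ℕ) (w : ℕ → ℝ) (hw : ∀ p ∈ s, 0 ≤ w p) (y : ℕ → ℝ) (E : ℝ)
    (hE : ∀ h : ℤ, h ≠ 0 → |h| ≤ 2 * J → ‖∑ p ∈ s, (w p : ℂ) * e (h * y p)‖ ≤ E) :
    ρ / 40 * ∑ p ∈ s, w p - E / ρ ^ 2 ≤ ∑ p ∈ s.filter (fun p => nn (y p) < ρ), w p := by
  have hJ0 : (0 : ℝ) < J := by
    rcases Nat.eq_zero_or_pos J with rfl | h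
    · exfalso; simp at hJ1; linarith
    · exact_mod_cast h
  have hJn : 1 ≤ J := by exact_mod_cast hJ0
  have hpi := Real.pi_pos
  set c : ℝ := Real.cos (2 * Real.pi * ρ) with hc
  set η : ℝ := 1 - c with hη
  have hη8 : 8 * ρ ^ 2 ≤ η := by
    have h1 : c = 1 - 2 * Real.sin (Real.pi * ρ) ^ 2 := by
      have h2 := Real.cos_two_mul (Real.pi * ρ)
      have h3 := Real.sin_sq_add_cos_sq (Real.pi * ρ)
      have h4 : 2 * Real.pi * ρ = 2 * (Real.pi * ρ) := by ring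
      rw [hc, h4, h2]; linarith
    have h2 : 2 / Real.pi * (Real.pi * ρ) ≤ Real.sin (Real.pi * ρ) :=
      Real.mul_le_sin (by positivity) (by nlinarith)
    have h3 : 2 / Real.pi * (Real.pi * ρ) = 2 * ρ := by field_simp
    rw [h3] at h2
    rw [hη, h1]
    nlinarith
  have hη0 : 0 < η := by nlinarith [sq_pos_of_pos hρ]
  have hc1 : |c| ≤ 1 := Real.abs_cos_le_one _
  have hE0 : 0 ≤ E := by
    refine (norm_nonneg _).trans (hE 1 one_ne_zero ?_)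
    rw [abs_one]; omega
  set W : ℝ := ∑ p ∈ s, w p with hW
  have hW0 : 0 ≤ W := Finset.sum_nonneg hw
  set A : ℝ := ∑ p ∈ s.filter (fun p => nn (y p) < ρ), w p with hA
  set Fy : ℕ → ℝ := fun p => (‖∑ a ∈ range J, e (a * y p)‖ ^ 2) ^ 2 with hFy
  have hFy0 : ∀ p, 0 ≤ Fy p := fun p => by rw [hFy]; positivity
  have hFy1 : ∀ p, Fy p ≤ (J : ℝ) ^ 4 := by
    intro p
    have h1 : ‖∑ a ∈ range J, e (a * y p)‖ ≤ J := by
      refine (norm_sum_le _ _).trans ?_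
      simp only [M1b_norm_e, Finset.sum_const, Finset.card_range, nsmul_eq_mul, mul_one, le_refl]
    calc Fy p = ‖∑ a ∈ range J, e (a * y p)‖ ^ 4 := by rw [hFy]; ring
      _ ≤ _ := pow_le_pow_left₀ (norm_nonneg _) h1 4
  -- upper bound
  have hupper : ∑ p ∈ s, w p * (Fy p * (Real.cos (2 * Real.pi * y p) - c)) ≤ (J : ℝ) ^ 4 * η * A := by
    rw [hA, Finset.mul_sum, Finset.sum_filter]
    refine Finset.sum_le_sum (fun p hp => ?_)
    split_ifs with h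
    · have h1 : Real.cos (2 * Real.pi * y p) - c ≤ η := by
        rw [hη]; linarith [Real.cos_le_one (2 * Real.pi * y p)]
      calc w p * (Fy p * (Real.cos (2 * Real.pi * y p) - c)) ≤ w p * (Fy p * η) :=
            mul_le_mul_of_nonneg_left (mul_le_mul_of_nonneg_left h1 (hFy0 p)) (hw p hp)
        _ ≤ w p * ((J : ℝ) ^ 4 * η) :=
            mul_le_mul_of_nonneg_left (mul_le_mul_of_nonneg_right (hFy1 p) hη0.le) (hw p hp)
        _ = _ := by ring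
    · rw [not_lt] at h
      have h1 : Real.cos (2 * Real.pi * y p) ≤ c := by
        rw [M1b_cos_nn, hc]
        have h2 : nn (y p) ≤ 1 / 2 := by
          unfold Pool.Agent.Lib.MP_d9bc60_nt.UV.nn
          exact abs_sub_round _
        apply Real.cos_le_cos_of_nonneg_of_le_pi (by positivity) (by nlinarith)
        nlinarith
      have h2 : Fy p * (Real.cos (2 * Real.pi * y p) - c) ≤ 0 :=
        mul_nonpos_of_nonneg_of_nonpos (hFy0 p) (by linarith)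
      exact mul_nonpos_of_nonneg_of_nonpos (hw p hp) h2
  -- lower bound
  set E0 : ℝ := ∑ h ∈ Ioo (-(J : ℤ)) J, ((J : ℝ) - |(h : ℝ)|) ^ 2 with hE0def
  have hE0' := M1b_E0 J
  rw [← hE0def] at hE0'
  set S : ℤ → ℂ := fun n => ∑ p ∈ s, (w p : ℂ) * e (n * y p) with hS
  have hS' : ∀ n : ℤ, |n| ≤ 2 * J → ‖S n - ((W * (if n = 0 then (1 : ℝ) else 0) : ℝ) : ℂ)‖ ≤ E := by
    intro n hn
    by_cases h0 : n = 0
    · subst h0
      have h1 : S 0 = ((W * (if (0 : ℤ) = 0 then (1 : ℝ) else 0) : ℝ) : ℂ) := by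
        rw [if_pos rfl, mul_one, hW, hS]
        simp only [Int.cast_zero, zero_mul, M1b_e_zero, mul_one, Complex.ofReal_sum]
      rw [h1, sub_self, norm_zero]
      exact hE0
    · rw [if_neg h0, mul_zero, Complex.ofReal_zero, sub_zero]
      exact hE n h0 hn
  have hsum : ((∑ p ∈ s, w p * (Fy p * (Real.cos (2 * Real.pi * y p) - c)) : ℝ) : ℂ) =
      ∑ h ∈ Ioo (-(J : ℤ)) J, ∑ h' ∈ Ioo (-(J : ℤ)) J,
        ((((J : ℝ) - |(h : ℝ)|) * ((J : ℝ) - |(h' : ℝ)|) : ℝ) : ℂ) *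
          ((S (h + h' + 1) + S (h + h' - 1)) / 2 - (c : ℂ) * S (h + h')) := by
    rw [Complex.ofReal_sum]
    have h1 : ∀ p ∈ s, ((w p * (Fy p * (Real.cos (2 * Real.pi * y p) - c)) : ℝ) : ℂ) =
        ∑ h ∈ Ioo (-(J : ℤ)) J, ∑ h' ∈ Ioo (-(J : ℤ)) J, (w p : ℂ) *
        (((((J : ℝ) - |(h : ℝ)|) * ((J : ℝ) - |(h' : ℝ)|) : ℝ) : ℂ) *
          ((e (((h + h' + 1 : ℤ) : ℝ) * y p) + e (((h + h' - 1 : ℤ) : ℝ) * y p)) / 2 -
            (c : ℂ) * e (((h + h' : ℤ) : ℝ) * y p))) := by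
      intro p _
      rw [Complex.ofReal_mul]
      have := M1b_g J (y p) c
      rw [hFy]
      simp only
      rw [this, Finset.mul_sum]
      refine Finset.sum_congr rfl (fun h _ => ?_)
      rw [Finset.mul_sum]
    rw [Finset.sum_congr rfl h1, Finset.sum_comm]
    refine Finset.sum_congr rfl (fun h _ => ?_)
    rw [Finset.sum_comm]
    refine Finset.sum_congr rfl (fun h' _ => ?_)
    rw [hS]
    simp only
    rw [← Finset.sum_add_distrib, Finset.sum_div, Finset.mul_sum, ← Finset.sum_sub_distrib,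
      Finset.mul_sum]
    refine Finset.sum_congr rfl (fun p _ => ?_)
    ring
  have hmainc : (((W * (η * E0 - J) : ℝ)) : ℂ) =
      ∑ h ∈ Ioo (-(J : ℤ)) J, ∑ h' ∈ Ioo (-(J : ℤ)) J,
        ((((J : ℝ) - |(h : ℝ)|) * ((J : ℝ) - |(h' : ℝ)|) : ℝ) : ℂ) *
          ((((W * (if h + h' + 1 = 0 then (1 : ℝ) else 0) : ℝ) : ℂ) +
            ((W * (if h + h' - 1 = 0 then (1 : ℝ) else 0) : ℝ) : ℂ)) / 2 -
            (c : ℂ) * ((W * (if h + h' = 0 then (1 : ℝ) else 0) : ℝ) : ℂ)) := by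
    have h1 := M1b_coef J hJn c
    rw [← hE0def] at h1
    rw [hη, ← h1, Finset.mul_sum, Complex.ofReal_sum]
    refine Finset.sum_congr rfl (fun h _ => ?_)
    rw [Finset.mul_sum, Complex.ofReal_sum]
    refine Finset.sum_congr rfl (fun h' _ => ?_)
    push_cast
    ring
  have hdiff : ‖((∑ p ∈ s, w p * (Fy p * (Real.cos (2 * Real.pi * y p) - c)) : ℝ) : ℂ) -
      (((W * (η * E0 - J) : ℝ)) : ℂ)‖ ≤ 2 * (J : ℝ) ^ 4 * E := by
    rw [hsum, hmainc, ← Finset.sum_sub_distrib]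
    have hterm : ∀ h ∈ Ioo (-(J : ℤ)) J, ∀ h' ∈ Ioo (-(J : ℤ)) J,
        ‖((((J : ℝ) - |(h : ℝ)|) * ((J : ℝ) - |(h' : ℝ)|) : ℝ) : ℂ) *
          ((S (h + h' + 1) + S (h + h' - 1)) / 2 - (c : ℂ) * S (h + h')) -
        ((((J : ℝ) - |(h : ℝ)|) * ((J : ℝ) - |(h' : ℝ)|) : ℝ) : ℂ) *
          ((((W * (if h + h' + 1 = 0 then (1 : ℝ) else 0) : ℝ) : ℂ) +
            ((W * (if h + h' - 1 = 0 then (1 : ℝ) else 0) : ℝ) : ℂ)) / 2 -
            (c : ℂ) * ((W * (if h + h' = 0 then (1 : ℝ) else 0) : ℝ) : ℂ))‖ ≤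
        ((J : ℝ) - |(h : ℝ)|) * ((J : ℝ) - |(h' : ℝ)|) * (2 * E) := by
      intro h hh h' hh'
      rw [Finset.mem_Ioo] at hh hh'
      have k1 : (0 : ℝ) ≤ (J : ℝ) - |(h : ℝ)| := by
        have : |h| ≤ (J : ℤ) := by rw [abs_le]; constructor <;> omega
        have h2 : ((|h| : ℤ) : ℝ) ≤ ((J : ℤ) : ℝ) := by exact_mod_cast this
        push_cast at h2
        linarith
      have k2 : (0 : ℝ) ≤ (J : ℝ) - |(h' : ℝ)| := by
        have : |h'| ≤ (J : ℤ) := by rw [abs_le]; constructor <;> omega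
        have h2 : ((|h'| : ℤ) : ℝ) ≤ ((J : ℤ) : ℝ) := by exact_mod_cast this
        push_cast at h2
        linarith
      have d1 := hS' (h + h' + 1) (by rw [abs_le]; constructor <;> omega)
      have d2 := hS' (h + h' - 1) (by rw [abs_le]; constructor <;> omega)
      have d3 := hS' (h + h') (by rw [abs_le]; constructor <;> omega)
      rw [← mul_sub, norm_mul, Complex.norm_real, Real.norm_of_nonneg (mul_nonneg k1 k2)]
      apply mul_le_mul_of_nonneg_left _ (mul_nonneg k1 k2)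
      set x1 := ((W * (if h + h' + 1 = 0 then (1 : ℝ) else 0) : ℝ) : ℂ)
      set x2 := ((W * (if h + h' - 1 = 0 then (1 : ℝ) else 0) : ℝ) : ℂ)
      set x3 := ((W * (if h + h' = 0 then (1 : ℝ) else 0) : ℝ) : ℂ)
      have e1 : ((S (h + h' + 1) + S (h + h' - 1)) / 2 - (c : ℂ) * S (h + h')) -
          ((x1 + x2) / 2 - (c : ℂ) * x3) = (S (h + h' + 1) - x1) / 2 + (S (h + h' - 1) - x2) / 2 -
          (c : ℂ) * (S (h + h') - x3) := by ring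
      rw [e1]
      refine (norm_sub_le _ _).trans ?_
      refine (add_le_add (norm_add_le _ _) le_rfl).trans ?_
      rw [norm_div, norm_div, norm_mul, Complex.norm_real, Real.norm_eq_abs]
      have n2 : ‖(2 : ℂ)‖ = 2 := by simp
      rw [n2]
      have f1 : |c| * ‖S (h + h') - x3‖ ≤ 1 * E :=
        mul_le_mul hc1 d3 (norm_nonneg _) zero_le_one
      linarith
    calc ‖∑ h ∈ Ioo (-(J : ℤ)) J, ((∑ h' ∈ Ioo (-(J : ℤ)) J,
        ((((J : ℝ) - |(h : ℝ)|) * ((J : ℝ) - |(h' : ℝ)|) : ℝ) : ℂ) *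
          ((S (h + h' + 1) + S (h + h' - 1)) / 2 - (c : ℂ) * S (h + h'))) -
        ∑ h' ∈ Ioo (-(J : ℤ)) J, ((((J : ℝ) - |(h : ℝ)|) * ((J : ℝ) - |(h' : ℝ)|) : ℝ) : ℂ) *
          ((((W * (if h + h' + 1 = 0 then (1 : ℝ) else 0) : ℝ) : ℂ) +
            ((W * (if h + h' - 1 = 0 then (1 : ℝ) else 0) : ℝ) : ℂ)) / 2 -
            (c : ℂ) * ((W * (if h + h' = 0 then (1 : ℝ) else 0) : ℝ) : ℂ)))‖
        ≤ ∑ h ∈ Ioo (-(J : ℤ)) J, ∑ h' ∈ Ioo (-(J : ℤ)) J,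
          ((J : ℝ) - |(h : ℝ)|) * ((J : ℝ) - |(h' : ℝ)|) * (2 * E) := by
          refine (norm_sum_le _ _).trans (Finset.sum_le_sum (fun h hh => ?_))
          rw [← Finset.sum_sub_distrib]
          exact (norm_sum_le _ _).trans (Finset.sum_le_sum (fun h' hh' => hterm h hh h' hh'))
      _ = (∑ h ∈ Ioo (-(J : ℤ)) J, ((J : ℝ) - |(h : ℝ)|)) *
          (∑ h' ∈ Ioo (-(J : ℤ)) J, ((J : ℝ) - |(h' : ℝ)|)) * (2 * E) := by
          rw [Finset.sum_mul_sum, Finset.sum_mul]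
          refine Finset.sum_congr rfl (fun h _ => ?_)
          rw [Finset.sum_mul]
      _ = 2 * (J : ℝ) ^ 4 * E := by rw [M1b_sumK]; ring
  have hlower : W * (η * E0 - J) - 2 * (J : ℝ) ^ 4 * E ≤
      ∑ p ∈ s, w p * (Fy p * (Real.cos (2 * Real.pi * y p) - c)) := by
    rw [← Complex.ofReal_sub, Complex.norm_real, Real.norm_eq_abs, abs_le] at hdiff
    linarith [hdiff.1]
  -- final computation
  have hfin : W * (η * E0 - J) - 2 * (J : ℝ) ^ 4 * E ≤ (J : ℝ) ^ 4 * η * A := hlower.trans hupper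
  have hρ2' : 0 < ρ ^ 2 := by positivity
  have hJ4 : 0 < (J : ℝ) ^ 4 * η := by positivity
  have hJ2' : (1 : ℝ) ≤ ((J : ℝ) * ρ) ^ 2 := by nlinarith
  have hJ3 : (J : ℝ) ≤ (J : ℝ) ^ 3 * η / 8 := by
    calc (J : ℝ) = (J : ℝ) * 1 := by ring
      _ ≤ (J : ℝ) * ((J : ℝ) * ρ) ^ 2 := by gcongr
      _ = (J : ℝ) ^ 3 * (8 * ρ ^ 2) / 8 := by ring
      _ ≤ _ := by gcongr
  have ha : (J : ℝ) ^ 4 * η * (ρ / 40 * W) ≤ W * (η * E0 - J) := by
    have h1 : (J : ℝ) ^ 4 * η * (ρ / 40) ≤ (J : ℝ) ^ 3 * η / 20 := by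
      calc (J : ℝ) ^ 4 * η * (ρ / 40) = (J : ℝ) ^ 3 * η * (J * ρ) / 40 := by ring
        _ ≤ (J : ℝ) ^ 3 * η * 2 / 40 := by gcongr
        _ = _ := by ring
    have h2 : (J : ℝ) ^ 3 * η / 2 ≤ η * E0 := by
      calc (J : ℝ) ^ 3 * η / 2 = η * ((J : ℝ) ^ 3) / 2 := by ring
        _ ≤ η * (2 * E0) / 2 := by gcongr
        _ = _ := by ring
    have h3 : 0 < (J : ℝ) ^ 3 * η := by positivity
    calc (J : ℝ) ^ 4 * η * (ρ / 40 * W) = W * ((J : ℝ) ^ 4 * η * (ρ / 40)) := by ring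
      _ ≤ W * (η * E0 - J) := by
        apply mul_le_mul_of_nonneg_left _ hW0
        linarith
  have hb : 2 * (J : ℝ) ^ 4 * E ≤ (J : ℝ) ^ 4 * η * (E / ρ ^ 2) := by
    have h1 : 2 * E ≤ η * (E / ρ ^ 2) := by
      rw [mul_div_assoc', le_div_iff₀ hρ2']
      have : 8 * ρ ^ 2 * E ≤ η * E := mul_le_mul_of_nonneg_right hη8 hE0
      have h5 : 0 ≤ E * ρ ^ 2 := by positivity
      linarith
    calc 2 * (J : ℝ) ^ 4 * E = (J : ℝ) ^ 4 * (2 * E) := by ring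
      _ ≤ (J : ℝ) ^ 4 * (η * (E / ρ ^ 2)) := by gcongr
      _ = _ := by ring
  have hfinal : (J : ℝ) ^ 4 * η * (ρ / 40 * W - E / ρ ^ 2) ≤ (J : ℝ) ^ 4 * η * A := by
    rw [mul_sub]
    linarith
  exact le_of_mul_le_mul_left hfinal hJ4

end Pool.Agent.Lib.MP_4ae430_nt
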