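import Pool.Agent.Lib.MP_4ae430_nt.Defs

/-! Row P1 (about 80 lines). -/

set_option autoImplicit false

namespace Pool.Agent.Lib.MP_4ae430_nt

open Finset
open Pool.Agent.Lib.MP_d9bc60_nt.UV (e vm nn)

private theorem P1_log : ∃ x₀ : ℝ, ∀ x : ℝ, x₀ ≤ x → Real.log x ≤ (1 / 100) * x ^ (1 / 4 : ℝ) := by
  have h := (isLittleO_log_rpow_atTop (r := (1 / 4 : ℝ)) (by norm_num)).bound
    (show (0 : ℝ) < 1 / 100 by norm_num)
  obtain ⟨x₀, hx₀⟩ := Filter.eventually_atTop.1 h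
  refine ⟨max x₀ 1, fun x hx => ?_⟩
  have h1 := hx₀ x ((le_max_left _ _).trans hx)
  have hx1 : 1 ≤ x := (le_max_right _ _).trans hx
  rw [Real.norm_of_nonneg (Real.log_nonneg hx1),
    Real.norm_of_nonneg (Real.rpow_nonneg (by linarith) _)] at h1
  exact h1

/-- ROW P1.  `∑_{n ∈ Ioc D (4D)} Λ(n) = ψ(4D) - ψ(D)` (`Chebyshev.psi` is `∑ n ∈ Ioc 0 ⌊x⌋₊, Λ n`), `Chebyshev.psi_ge`,
`psi_sub_theta_le`, `theta_le_log4_mul_x`: `ψ(4D) ≥ 4D log 2 - log(4D+1)`, `ψ(D) ≤ 2D log 2 + 2√D log D`;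
`2 log 2 > 1.38`.  Second claim: `Chebyshev.psi_sub_theta_eq_sum_not_prime` / `psi_sub_theta_le` at `x = 4D`. -/
theorem psi_low : ∃ N₀ : ℕ, ∀ D : ℕ, N₀ ≤ D → (D : ℝ) ≤ ∑ n ∈ Ioc D (4 * D), vm n ∧
    ∑ n ∈ (Ioc D (4 * D)).filter (fun n => ¬ n.Prime), vm n ≤ (D : ℝ) ^ (3 / 4 : ℝ) := by
  obtain ⟨x₀, hx₀⟩ := P1_log
  refine ⟨max ⌈x₀⌉₊ 1, fun D hD => ?_⟩
  have hD1 : 1 ≤ D := (le_max_right _ _).trans hD
  have hDx : x₀ ≤ D := (Nat.le_ceil x₀).trans (by exact_mod_cast (le_max_left _ _).trans hD)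
  have hDr : (1 : ℝ) ≤ D := by exact_mod_cast hD1
  have hl1 := hx₀ (D : ℝ) hDx
  have hl2 := hx₀ (4 * D : ℝ) (by linarith)
  have hl3 := hx₀ (4 * D + 1 : ℝ) (by linarith)
  -- powers
  have hq : (0 : ℝ) ≤ (D : ℝ) ^ (1 / 4 : ℝ) := Real.rpow_nonneg (by linarith) _
  have hsq : √(D : ℝ) = (D : ℝ) ^ (1 / 2 : ℝ) := Real.sqrt_eq_rpow _
  have hs4 : √(4 * D : ℝ) = 2 * (D : ℝ) ^ (1 / 2 : ℝ) := by
    rw [Real.sqrt_mul (by norm_num), hsq]
    congr 1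
    rw [show (4 : ℝ) = 2 ^ 2 by norm_num, Real.sqrt_sq (by norm_num)]
  have h34 : (D : ℝ) ^ (1 / 2 : ℝ) * (D : ℝ) ^ (1 / 4 : ℝ) = (D : ℝ) ^ (3 / 4 : ℝ) := by
    rw [← Real.rpow_add (by linarith)]
    norm_num
  have h34D : (D : ℝ) ^ (3 / 4 : ℝ) ≤ D := by
    have := Real.rpow_le_rpow_of_exponent_le hDr (show (3 / 4 : ℝ) ≤ 1 by norm_num)
    rwa [Real.rpow_one] at this
  have h4q : (4 * D : ℝ) ^ (1 / 4 : ℝ) ≤ 4 * (D : ℝ) ^ (1 / 4 : ℝ) := by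
    rw [Real.mul_rpow (by norm_num) (by linarith)]
    apply mul_le_mul_of_nonneg_right _ hq
    have := Real.rpow_le_rpow_of_exponent_le (show (1 : ℝ) ≤ 4 by norm_num)
      (show (1 / 4 : ℝ) ≤ 1 by norm_num)
    rwa [Real.rpow_one] at this
  have h41 : (4 * D + 1 : ℝ) ^ (1 / 4 : ℝ) ≤ 4 * D + 1 := by
    have := Real.rpow_le_rpow_of_exponent_le (show (1 : ℝ) ≤ 4 * D + 1 by linarith)
      (show (1 / 4 : ℝ) ≤ 1 by norm_num)
    rwa [Real.rpow_one] at this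
  have hhalf : (0 : ℝ) ≤ (D : ℝ) ^ (1 / 2 : ℝ) := Real.rpow_nonneg (by linarith) _
  have hcast : (((4 * D : ℕ) : ℝ)) = 4 * D := by push_cast; ring
  constructor
  · have hsplit : Chebyshev.psi ((4 * D : ℕ) : ℝ) =
        Chebyshev.psi (D : ℝ) + ∑ n ∈ Ioc D (4 * D), vm n := by
      unfold Chebyshev.psi vm
      rw [Nat.floor_natCast, Nat.floor_natCast]
      rw [← Finset.sum_union]
      · congr 1
        ext n
        simp only [Finset.mem_union, Finset.mem_Ioc]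
        omega
      · rw [Finset.disjoint_left]
        intro n h1 h2
        rw [Finset.mem_Ioc] at h1 h2
        omega
    have h1 := Chebyshev.psi_ge (4 * D)
    have h2 := Chebyshev.psi_sub_theta_le hDr
    have h3 := Chebyshev.theta_le_log4_mul_x (show (0 : ℝ) ≤ D by linarith)
    have hlog4 : Real.log 4 = 2 * Real.log 2 := by
      rw [show (4 : ℝ) = 2 ^ 2 by norm_num, Real.log_pow]
      norm_num
    rw [hlog4] at h3
    rw [hcast] at h1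
    rw [hcast] at hsplit
    rw [hsq] at h2
    have h5 : 2 * (D : ℝ) ^ (1 / 2 : ℝ) * Real.log D ≤ 2 / 100 * D := by
      calc 2 * (D : ℝ) ^ (1 / 2 : ℝ) * Real.log D
          ≤ 2 * (D : ℝ) ^ (1 / 2 : ℝ) * (1 / 100 * (D : ℝ) ^ (1 / 4 : ℝ)) := by gcongr
        _ = 2 / 100 * ((D : ℝ) ^ (1 / 2 : ℝ) * (D : ℝ) ^ (1 / 4 : ℝ)) := by ring
        _ ≤ 2 / 100 * D := by rw [h34]; gcongr
    have h6 := Real.log_two_gt_d9
    have h7 : (1.38 : ℝ) * D ≤ 2 * Real.log 2 * D := by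
      apply mul_le_mul_of_nonneg_right _ (by linarith)
      linarith
    have h8 : Real.log (4 * D + 1) ≤ 5 / 100 * D := by
      refine hl3.trans ?_
      nlinarith
    nlinarith
  · have h1 : ∑ n ∈ (Ioc D (4 * D)).filter (fun n => ¬ n.Prime), vm n ≤
        Chebyshev.psi ((4 * D : ℕ) : ℝ) - Chebyshev.theta ((4 * D : ℕ) : ℝ) := by
      rw [Chebyshev.psi_sub_theta_eq_sum_not_prime, Nat.floor_natCast]
      apply Finset.sum_le_sum_of_subset_of_nonneg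
      · intro n hn
        rw [Finset.mem_filter, Finset.mem_Ioc] at hn ⊢
        exact ⟨⟨by omega, hn.1.2⟩, hn.2⟩
      · intro n _ _
        exact ArithmeticFunction.vonMangoldt_nonneg
    refine h1.trans ?_
    rw [hcast]
    refine (Chebyshev.psi_sub_theta_le (show (1 : ℝ) ≤ 4 * D by linarith)).trans ?_
    rw [hs4]
    calc 2 * (2 * (D : ℝ) ^ (1 / 2 : ℝ)) * Real.log (4 * D)
        ≤ 2 * (2 * (D : ℝ) ^ (1 / 2 : ℝ)) * (1 / 100 * (4 * (D : ℝ) ^ (1 / 4 : ℝ))) := by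
          gcongr
          exact hl2.trans (by gcongr)
      _ = 16 / 100 * ((D : ℝ) ^ (1 / 2 : ℝ) * (D : ℝ) ^ (1 / 4 : ℝ)) := by ring
      _ ≤ (D : ℝ) ^ (3 / 4 : ℝ) := by
          rw [h34]
          have : 0 ≤ (D : ℝ) ^ (3 / 4 : ℝ) := Real.rpow_nonneg (by linarith) _
          linarith

end Pool.Agent.Lib.MP_4ae430_nt
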