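import Pool.Agent.Lib.MP_4ae430_nt.V2b

/-! Row V3a: type II sums. -/

set_option autoImplicit false

namespace Pool.Agent.Lib.MP_4ae430_nt

open Finset
open Pool.Agent.Lib.MP_d9bc60_nt.UV (e vm nn PS dicho)

private lemma v3a_event (A : ℕ) : ∃ N₀ : ℕ, ∀ D : ℕ, N₀ ≤ D →
    8 * Real.log (4 * (D : ℝ)) ^ A ≤ (4 * (D : ℝ)) ^ (1 / 4 : ℝ) ∧
      36864 * 2 ^ (A + 1) ≤ Real.log (D : ℝ) ∧ 1024 ≤ D := by
  have hE1 : ∀ᶠ D : ℕ in Filter.atTop,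
      8 * Real.log (4 * (D : ℝ)) ^ A ≤ (4 * (D : ℝ)) ^ (1 / 4 : ℝ) := by
    have h1 := (isLittleO_log_rpow_rpow_atTop (A : ℝ)
      (show (0 : ℝ) < 1 / 4 by norm_num)).bound (show (0 : ℝ) < 1 / 8 by norm_num)
    have h2 : Filter.Tendsto (fun D : ℕ => 4 * (D : ℝ)) Filter.atTop Filter.atTop :=
      tendsto_natCast_atTop_atTop.const_mul_atTop (by norm_num)
    have h3 := h2.eventually h1
    filter_upwards [h3, Filter.eventually_ge_atTop 1] with D hD hD1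
    have hD1' : (1 : ℝ) ≤ D := by exact_mod_cast hD1
    have h4 : 0 ≤ Real.log (4 * (D : ℝ)) := Real.log_nonneg (by linarith)
    rw [Real.norm_of_nonneg (Real.rpow_nonneg h4 _),
      Real.norm_of_nonneg (Real.rpow_nonneg (by positivity) _), Real.rpow_natCast] at hD
    linarith
  have hE2 : ∀ᶠ D : ℕ in Filter.atTop, (36864 * 2 ^ (A + 1) : ℝ) ≤ Real.log (D : ℝ) :=
    (Real.tendsto_log_atTop.comp tendsto_natCast_atTop_atTop).eventually_ge_atTop _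
  have h := hE1.and (hE2.and (Filter.eventually_ge_atTop 1024))
  obtain ⟨N₀, hN₀⟩ := Filter.eventually_atTop.1 h
  exact ⟨N₀, fun D hD => hN₀ D hD⟩

private lemma v3a_t3 (P N l L x T : ℝ) (A : ℕ) (hP0 : 0 ≤ P) (hP : P ≤ N) (hl : 1 ≤ l)
    (hlA : 36864 * 2 ^ (A + 1) ≤ l) (hL0 : 1 ≤ L) (hL : L ≤ 2 * l) (hx0 : 0 ≤ x) (hx : x ≤ 2 * L)
    (hT0 : 0 < T) (hT : N / 4 * l ^ (A + 2) ≤ T) :
    1152 * P ^ 3 * x * L ^ A / T ≤ N ^ 2 / 4 := by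
  have hN : 0 ≤ N := hP0.trans hP
  rw [div_le_iff₀ hT0]
  have h1 : P ^ 3 ≤ N ^ 3 := pow_le_pow_left₀ hP0 hP 3
  have h2 : L ^ (A + 1) ≤ 2 ^ (A + 1) * l ^ (A + 1) := by
    rw [← mul_pow]
    exact pow_le_pow_left₀ (by linarith) hL _
  have h3 : x * L ^ A ≤ 2 * (2 ^ (A + 1) * l ^ (A + 1)) := by
    calc x * L ^ A ≤ 2 * L * L ^ A := mul_le_mul_of_nonneg_right hx (by positivity)
      _ = 2 * L ^ (A + 1) := by ring
      _ ≤ _ := by linarith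
  have h4 : 36864 * 2 ^ (A + 1) * l ^ (A + 1) ≤ l ^ (A + 2) := by
    calc 36864 * 2 ^ (A + 1) * l ^ (A + 1) ≤ l * l ^ (A + 1) :=
          mul_le_mul_of_nonneg_right hlA (by positivity)
      _ = l ^ (A + 2) := by ring
  calc 1152 * P ^ 3 * x * L ^ A = 1152 * P ^ 3 * (x * L ^ A) := by ring
    _ ≤ 1152 * N ^ 3 * (2 * (2 ^ (A + 1) * l ^ (A + 1))) :=
        mul_le_mul (by linarith) h3 (by positivity) (by positivity)
    _ = N ^ 3 / 16 * (36864 * 2 ^ (A + 1) * l ^ (A + 1)) := by ring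
    _ ≤ N ^ 3 / 16 * l ^ (A + 2) := mul_le_mul_of_nonneg_left h4 (by positivity)
    _ = N ^ 2 / 4 * (N / 4 * l ^ (A + 2)) := by ring
    _ ≤ N ^ 2 / 4 * T := mul_le_mul_of_nonneg_left hT (by positivity)

private lemma v3a_t2 (P N l L : ℝ) (A : ℕ) (hP0 : 0 ≤ P) (hP : P ≤ N) (hl : 1 ≤ l)
    (hlA : 36864 * 2 ^ (A + 1) ≤ l) (hL0 : 1 ≤ L) (hL : L ≤ 2 * l) :
    P ^ 2 * L ^ A / l ^ (A + 2) ≤ N ^ 2 / 4 := by
  have hN : 0 ≤ N := hP0.trans hP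
  rw [div_le_iff₀ (by positivity)]
  have h1 : P ^ 2 ≤ N ^ 2 := pow_le_pow_left₀ hP0 hP 2
  have h2 : L ^ A ≤ 2 ^ A * l ^ A := by
    rw [← mul_pow]
    exact pow_le_pow_left₀ (by linarith) hL _
  have h5 : (0 : ℝ) < 2 ^ A := by positivity
  have h6 : (2 : ℝ) ^ (A + 1) = 2 * 2 ^ A := by ring
  have h3 : 4 * (2 ^ A * l ^ A) ≤ l ^ (A + 2) := by
    calc 4 * (2 ^ A * l ^ A) = 4 * 2 ^ A * l ^ A := by ring
      _ ≤ (l * l) * l ^ A := by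
          refine mul_le_mul_of_nonneg_right ?_ (by positivity)
          rw [h6] at hlA
          nlinarith
      _ = l ^ (A + 2) := by ring
  calc P ^ 2 * L ^ A ≤ N ^ 2 * (2 ^ A * l ^ A) := mul_le_mul h1 h2 (by positivity) (by positivity)
    _ = N ^ 2 / 4 * (4 * (2 ^ A * l ^ A)) := by ring
    _ ≤ N ^ 2 / 4 * l ^ (A + 2) := mul_le_mul_of_nonneg_left h3 (by positivity)

/-- ROW V3a (type II). -/
theorem typeII (A : ℕ) : ∃ C N₀ : ℕ, ∀ D : ℕ, N₀ ≤ D → ∀ T T₁ : ℝ,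
    ES ((D : ℝ) ^ (1 / 5 : ℝ)) (4 * D) (Real.log D ^ C) T₁ → D * Real.log D ^ C ≤ |T| → |T| ≤ T₁ →
    ∀ M K : ℕ, ((4 * D : ℕ) : ℝ) ^ (1 / 4 : ℝ) / 2 ≤ M → ((4 * D : ℕ) : ℝ) ^ (1 / 4 : ℝ) / 2 ≤ K → M * K ≤ 4 * D →
      PS (ph D T) M K (4 * D) < ((4 * D : ℕ) : ℝ) ^ 2 / (M * Real.log ((4 * D : ℕ) : ℝ) ^ A) := by
  obtain ⟨N₀, hN₀⟩ := v3a_event A
  refine ⟨A + 2, N₀, ?_⟩
  intro D hD T T₁ hES hT1 hT2 M K hM hK hMK
  obtain ⟨h1, h2, h3⟩ := hN₀ D hD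
  have hDr : (1024 : ℝ) ≤ D := by exact_mod_cast h3
  have hNc : ((4 * D : ℕ) : ℝ) = 4 * (D : ℝ) := by push_cast; ring
  rw [hNc] at hM hK ⊢
  obtain ⟨N, hN⟩ : ∃ N : ℝ, N = 4 * (D : ℝ) := ⟨_, rfl⟩
  rw [← hN] at hM hK h1 ⊢
  obtain ⟨l, hl⟩ : ∃ l : ℝ, l = Real.log D := ⟨_, rfl⟩
  obtain ⟨L, hL⟩ : ∃ L : ℝ, L = Real.log N := ⟨_, rfl⟩
  rw [← hl] at hES hT1 h2
  rw [← hL] at h1 ⊢
  obtain ⟨q, hq⟩ : ∃ q : ℝ, q = N ^ (1 / 4 : ℝ) := ⟨_, rfl⟩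
  rw [← hq] at hM hK h1
  have hN0 : 0 < N := by rw [hN]; linarith
  have hq0 : 0 < q := by rw [hq]; exact Real.rpow_pos_of_pos hN0 _
  have h2A : (1 : ℝ) ≤ 2 ^ (A + 1) := one_le_pow₀ (by norm_num)
  have hl1 : 1 ≤ l := by nlinarith
  have hLl : L ≤ 2 * l := by
    rw [hL, hN, hl, two_mul, Real.log_mul (by norm_num) (by linarith)]
    have : Real.log 4 ≤ Real.log D := Real.log_le_log (by norm_num) (by linarith)
    linarith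
  have hlL : l ≤ L := by
    rw [hL, hN, hl]
    exact Real.log_le_log (by linarith) (by linarith)
  have hL1 : 1 ≤ L := hl1.trans hlL
  have hK0 : (0 : ℝ) < K := by linarith
  have hM0 : (0 : ℝ) < M := by linarith
  have hK1 : 1 ≤ K := by exact_mod_cast hK0
  have hM1 : 1 ≤ M := by exact_mod_cast hM0
  have hK1' : (1 : ℝ) ≤ K := by exact_mod_cast hK1
  have hM1' : (1 : ℝ) ≤ M := by exact_mod_cast hM1
  have hMKr : (M : ℝ) * K ≤ N := by rw [hN]; exact_mod_cast hMK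
  have hMN : (M : ℝ) ≤ 4 * D := by rw [← hN]; nlinarith
  have hKN : (K : ℝ) ≤ N := by nlinarith
  have hT0 : 0 < |T| := lt_of_lt_of_le (by positivity) hT1
  have ha0 : (D : ℝ) ^ (1 / 5 : ℝ) ≤ M := by
    refine le_trans ?_ hM
    rw [le_div_iff₀ (by norm_num : (0 : ℝ) < 2), hq, hN,
      Real.mul_rpow (by norm_num) (by linarith)]
    have h4 : (4 : ℝ) ^ (1 / 4 : ℝ) = (2 : ℝ) ^ (1 / 2 : ℝ) := by
      rw [show (4 : ℝ) = (2 : ℝ) ^ (2 : ℝ) by norm_num, ← Real.rpow_mul (by norm_num)]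
      norm_num
    have h5 : (D : ℝ) ^ (1 / 4 : ℝ) = (D : ℝ) ^ (1 / 5 : ℝ) * (D : ℝ) ^ (1 / 20 : ℝ) := by
      rw [← Real.rpow_add (by linarith)]
      norm_num
    have h6 : (2 : ℝ) ^ (1 / 2 : ℝ) ≤ (D : ℝ) ^ (1 / 20 : ℝ) := by
      calc (2 : ℝ) ^ (1 / 2 : ℝ) = (1024 : ℝ) ^ (1 / 20 : ℝ) := by
            rw [show (1024 : ℝ) = (2 : ℝ) ^ (10 : ℝ) by norm_num, ← Real.rpow_mul (by norm_num)]
            norm_num
        _ ≤ (D : ℝ) ^ (1 / 20 : ℝ) := Real.rpow_le_rpow (by norm_num) hDr (by norm_num)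
    have h7 : (2 : ℝ) = (2 : ℝ) ^ (1 / 2 : ℝ) * (2 : ℝ) ^ (1 / 2 : ℝ) := by
      rw [← Real.rpow_add (by norm_num)]
      norm_num
    have h8 : (0 : ℝ) < (2 : ℝ) ^ (1 / 2 : ℝ) := by positivity
    have h9 : (0 : ℝ) < (D : ℝ) ^ (1 / 5 : ℝ) := Real.rpow_pos_of_pos (by linarith) _
    rw [h4, h5]
    calc (D : ℝ) ^ (1 / 5 : ℝ) * 2 =
          (D : ℝ) ^ (1 / 5 : ℝ) * ((2 : ℝ) ^ (1 / 2 : ℝ) * (2 : ℝ) ^ (1 / 2 : ℝ)) := by rw [← h7]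
      _ ≤ (D : ℝ) ^ (1 / 5 : ℝ) * ((2 : ℝ) ^ (1 / 2 : ℝ) * (D : ℝ) ^ (1 / 20 : ℝ)) := by gcongr
      _ = (2 : ℝ) ^ (1 / 2 : ℝ) * ((D : ℝ) ^ (1 / 5 : ℝ) * (D : ℝ) ^ (1 / 20 : ℝ)) := by ring
  have hPS := PS_le D (4 * D) M K T _ _ _ T₁ hES hT0 hT2 ha0 hMN (by positivity) hK1
  refine lt_of_le_of_lt hPS ?_
  rw [lt_div_iff₀ (by positivity)]
  obtain ⟨P, hP⟩ : ∃ P : ℝ, P = M * K := ⟨_, rfl⟩
  rw [← hP] at hMKr
  have hP0 : 0 ≤ P := by rw [hP]; positivity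
  have hx : 1 + Real.log K ≤ 2 * L := by
    have : Real.log K ≤ L := by
      rw [hL]
      exact Real.log_le_log hK0 hKN
    linarith
  have hx0 : 0 ≤ 1 + Real.log K := by
    have := Real.log_nonneg hK1'
    linarith
  have hT' : N / 4 * l ^ (A + 2) ≤ |T| := by
    have : N / 4 = (D : ℝ) := by rw [hN]; ring
    rw [this]
    exact hT1
  have t3 := v3a_t3 P N l L (1 + Real.log K) |T| A hP0 hMKr hl1 h2 hL1 hLl hx0 hx hT0 hT'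
  have t2 := v3a_t2 P N l L A hP0 hMKr hl1 h2 hL1 hLl
  have t1 : P * M * L ^ A ≤ N ^ 2 / 4 := by
    have h4 : (M : ℝ) * q ≤ 2 * N := by
      have h5 : (M : ℝ) * (q / 2) ≤ M * K := mul_le_mul_of_nonneg_left hK hM0.le
      rw [← hP] at h5
      linarith
    calc P * M * L ^ A ≤ N * M * (q / 8) := by
          refine mul_le_mul (mul_le_mul_of_nonneg_right hMKr hM0.le) (by linarith)
            (by positivity) (by positivity)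
      _ = N / 8 * (M * q) := by ring
      _ ≤ N / 8 * (2 * N) := mul_le_mul_of_nonneg_left h4 (by positivity)
      _ = N ^ 2 / 4 := by ring
  have heq : (K * M + K ^ 2 * M / l ^ (A + 2) +
      1152 * (M : ℝ) ^ 2 * K ^ 3 * (1 + Real.log K) / |T|) * (M * L ^ A) =
      P * M * L ^ A + P ^ 2 * L ^ A / l ^ (A + 2) +
        1152 * P ^ 3 * (1 + Real.log K) * L ^ A / |T| := by
    rw [hP]
    ring
  rw [heq]
  have hN2 : 0 < N ^ 2 := by positivity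
  linarith

end Pool.Agent.Lib.MP_4ae430_nt
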