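import Pool.Agent.Lib.MP_4ae430_nt.V1
import Pool.Agent.Lib.MP_4ae430_nt.V3a

/-! Row V3b (about 120 lines). -/

set_option autoImplicit false

namespace Pool.Agent.Lib.MP_4ae430_nt

open Finset
open Pool.Agent.Lib.MP_d9bc60_nt.UV (e vm nn PS dicho)

private lemma V3b_norm_e (x : ℝ) : ‖e x‖ = 1 := by
  unfold e
  rw [Complex.norm_exp]
  simp

private lemma V3b_norm_ph (D : ℕ) (T : ℝ) (n : ℕ) : ‖ph D T n‖ ≤ 1 := by
  unfold ph
  split_ifs
  · rw [V3b_norm_e]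
  · simp

private lemma V3b_sum (D : ℕ) (T : ℝ) : ∑ n ∈ Icc 1 (4 * D), (vm n : ℂ) * ph D T n =
    ∑ n ∈ Ioc D (4 * D), (vm n : ℂ) * e (T / n) := by
  have h1 : Ioc D (4 * D) ⊆ Icc 1 (4 * D) := by
    intro n hn
    rw [mem_Ioc] at hn
    rw [mem_Icc]
    omega
  rw [← sum_subset h1]
  · refine sum_congr rfl fun n hn => ?_
    rw [mem_Ioc] at hn
    unfold ph
    rw [if_pos hn.1]
  · intro n hn hn2
    rw [mem_Icc] at hn
    rw [mem_Ioc] at hn2
    have : ¬ D < n := fun h => hn2 ⟨h, hn.2⟩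
    unfold ph
    rw [if_neg this, mul_zero]

/-- ROW V3b (Vaughan).  `dicho A'` (UV/PVaughan.lean, `A' = A + 3`) with `N = 4D`, `V = ⌊N^(1/4)⌋`, `φ = ph D T`
(`‖φ‖ ≤ 1`): `∑_{n ∈ Icc 1 N} Λ(n) φ(n) = ∑_{n ∈ Ioc D (4D)} Λ(n) e(T/n)`.  If it is `> D/(log D)^A ≥ N/(log N)^(A')`
one of the two alternatives holds; the first one (`d ≤ V² ≤ √N = 2√D`) contradicts `typeI (A'+4)`, the second one
contradicts `typeII (2A'+13)` (`V ≥ N^(1/4)/2`).  `C` = the maximum of the two constants (`ES` and the condition on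
`|T|` for the larger `C` imply those for the smaller one as `log D ≥ 1`). -/
theorem vm_inv (A : ℕ) : ∃ C N₀ : ℕ, ∀ D : ℕ, N₀ ≤ D → ∀ T T₁ : ℝ,
    ES ((D : ℝ) ^ (1 / 5 : ℝ)) (4 * D) (Real.log D ^ C) T₁ → D * Real.log D ^ C ≤ |T| → |T| ≤ T₁ →
      ‖∑ n ∈ Ioc D (4 * D), (vm n : ℂ) * e (T / n)‖ ≤ D / Real.log D ^ A := by
  obtain ⟨C1, N1, h1⟩ := typeI (A + 3 + 4)
  obtain ⟨C2, N2, h2⟩ := typeII (2 * (A + 3) + 13)
  obtain ⟨N3, h3⟩ := dicho (A + 3)
  refine ⟨max C1 C2, max (max N1 N2) (max N3 8), fun D hD T T₁ hES hT hT1 => ?_⟩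
  have hDN1 : N1 ≤ D := (le_max_left _ _).trans ((le_max_left _ _).trans hD)
  have hDN2 : N2 ≤ D := (le_max_right _ _).trans ((le_max_left _ _).trans hD)
  have hDN3 : N3 ≤ D := (le_max_left _ _).trans ((le_max_right _ _).trans hD)
  have hD8 : 8 ≤ D := (le_max_right _ _).trans ((le_max_right _ _).trans hD)
  have hD8' : (8 : ℝ) ≤ D := by exact_mod_cast hD8
  have hD0 : (0 : ℝ) < D := by linarith
  have hlog2 : 2 ≤ Real.log D := by
    have h4 : Real.exp 2 ≤ D := by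
      have h5 : Real.exp 2 = Real.exp 1 * Real.exp 1 := by rw [← Real.exp_add]; norm_num
      have h6 := Real.exp_one_lt_d9
      have h7 := Real.exp_pos 1
      rw [h5]
      nlinarith
    calc (2 : ℝ) = Real.log (Real.exp 2) := (Real.log_exp 2).symm
      _ ≤ Real.log D := Real.log_le_log (Real.exp_pos 2) h4
  have hlog0 : 0 < Real.log D := by linarith
  by_contra hcon
  push Not at hcon
  -- the conditions for the two constants
  have hmono : ∀ C' : ℕ, C' ≤ max C1 C2 → ES ((D : ℝ) ^ (1 / 5 : ℝ)) (4 * D) (Real.log D ^ C') T₁ ∧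
      D * Real.log D ^ C' ≤ |T| := by
    intro C' hC'
    have h4 : Real.log D ^ C' ≤ Real.log D ^ (max C1 C2) := pow_le_pow_right₀ (by linarith) hC'
    refine ⟨hES.mono le_rfl le_rfl (by positivity) h4 le_rfl, le_trans ?_ hT⟩
    exact mul_le_mul_of_nonneg_left h4 hD0.le
  obtain ⟨hES1, hT1'⟩ := hmono C1 (le_max_left _ _)
  obtain ⟨hES2, hT2'⟩ := hmono C2 (le_max_right _ _)
  -- the parameter V
  set x : ℝ := ((4 * D : ℕ) : ℝ) ^ (1 / 4 : ℝ) with hx
  have hN16 : (16 : ℝ) ≤ ((4 * D : ℕ) : ℝ) := by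
    push_cast
    linarith
  have hN0 : (0 : ℝ) ≤ ((4 * D : ℕ) : ℝ) := by linarith
  have hx0 : 0 ≤ x := Real.rpow_nonneg hN0 _
  have hx4 : x ^ 4 = ((4 * D : ℕ) : ℝ) := by
    rw [hx, ← Real.rpow_natCast, ← Real.rpow_mul hN0]
    norm_num
  have hx2 : 2 ≤ x := by
    by_contra hlt
    push Not at hlt
    have h4 : x ^ 4 < 2 ^ 4 := pow_lt_pow_left₀ hlt hx0 (by norm_num)
    rw [hx4] at h4
    linarith
  set V : ℕ := ⌊x⌋₊ with hV
  have hVx : (V : ℝ) ≤ x := Nat.floor_le hx0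
  have hVx2 : x / 2 ≤ V := by
    have h4 := Nat.lt_floor_add_one x
    have h5 : x < (V : ℝ) + 1 := h4
    linarith
  have hV1 : 1 ≤ V := by
    have : (1 : ℝ) ≤ V := by linarith
    exact_mod_cast this
  have hbig : ((4 * D : ℕ) : ℝ) / Real.log ((4 * D : ℕ) : ℝ) ^ (A + 3) ≤
      ‖∑ n ∈ Icc 1 (4 * D), (vm n : ℂ) * ph D T n‖ := by
    rw [V3b_sum]
    refine le_trans ?_ hcon.le
    have hlogN : Real.log D ≤ Real.log ((4 * D : ℕ) : ℝ) := by
      apply Real.log_le_log hD0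
      push_cast
      linarith
    have h4 : 4 * Real.log D ^ A ≤ Real.log ((4 * D : ℕ) : ℝ) ^ (A + 3) := by
      calc 4 * Real.log D ^ A ≤ Real.log D ^ 3 * Real.log D ^ A := by
            apply mul_le_mul_of_nonneg_right _ (by positivity)
            calc (4 : ℝ) ≤ 2 ^ 3 := by norm_num
              _ ≤ Real.log D ^ 3 := pow_le_pow_left₀ (by norm_num) hlog2 3
        _ = Real.log D ^ (A + 3) := by ring
        _ ≤ _ := pow_le_pow_left₀ hlog0.le hlogN _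
    have hpos : 0 < Real.log ((4 * D : ℕ) : ℝ) ^ (A + 3) := pow_pos (by linarith) _
    rw [div_le_div_iff₀ hpos (by positivity)]
    push_cast at h4 ⊢
    calc 4 * (D : ℝ) * Real.log D ^ A = D * (4 * Real.log D ^ A) := by ring
      _ ≤ D * Real.log (4 * (D : ℝ)) ^ (A + 3) := mul_le_mul_of_nonneg_left h4 hD0.le
  have hdi := h3 (4 * D) (by omega) V hV1 hVx (ph D T) (V3b_norm_ph D T) hbig
  rcases hdi with ⟨d, hd, t, ht, hle⟩ | ⟨M, K, hM, hK, hMK, hle⟩
  · rw [mem_Icc] at hd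
    have hd4 : (d : ℝ) ≤ 4 * Real.sqrt D := by
      have h4 : (d : ℝ) ≤ (V : ℝ) * V := by exact_mod_cast hd.2
      have h5 : (V : ℝ) * V ≤ x * x := mul_le_mul hVx hVx (by positivity) hx0
      have h6 : x * x = 2 * Real.sqrt D := by
        have h7 : 0 ≤ 2 * Real.sqrt D := by positivity
        have h8 : (x * x) ^ 2 = (2 * Real.sqrt D) ^ 2 := by
          have h9 : (x * x) ^ 2 = x ^ 4 := by ring
          rw [h9, hx4, mul_pow, Real.sq_sqrt hD0.le]
          push_cast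
          ring
        exact (pow_left_inj₀ (by positivity) h7 (by norm_num)).1 h8
      have h10 : 0 ≤ Real.sqrt D := Real.sqrt_nonneg _
      linarith
    have := h1 D hDN1 T T₁ hES1 hT1' hT1 d t hd.1 hd4 ht
    linarith
  · have hMV : x / 2 ≤ M := hVx2.trans (by exact_mod_cast hM)
    have hKV : x / 2 ≤ K := hVx2.trans (by exact_mod_cast hK)
    have := h2 D hDN2 T T₁ hES2 hT2' hT1 M K hMV hKV hMK
    linarith

end Pool.Agent.Lib.MP_4ae430_nt
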