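import Pool.Agent.Lib.MP_4ae430_nt.F1a
import Pool.Agent.Lib.MP_4ae430_nt.V3b
import Pool.Agent.Lib.MP_4ae430_nt.M1b
import Pool.Agent.Lib.MP_4ae430_nt.P1

/-! Row F1b (about 200 lines). -/

set_option autoImplicit false

namespace Pool.Agent.Lib.MP_4ae430_nt

open Finset
open Pool.Agent.Lib.MP_d9bc60_nt.UV (e vm nn PS dicho)

theorem f1b_log (n : ℕ) (s ε : ℝ) (hs : 0 < s) (hε : 0 < ε) :
    ∀ᶠ k : ℕ in Filter.atTop, Real.log (k : ℝ) ^ n ≤ ε * (k : ℝ) ^ s := by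
  have h1 := (isLittleO_log_rpow_rpow_atTop (n : ℝ) hs).def hε
  have h2 := h1.natCast_atTop
  filter_upwards [h2] with k hk
  rw [Real.rpow_natCast, Real.norm_of_nonneg (pow_nonneg (Real.log_natCast_nonneg k) n),
    Real.norm_of_nonneg (Real.rpow_nonneg (Nat.cast_nonneg k) s)] at hk
  exact hk

theorem f1b_vm_nonneg (n : ℕ) : 0 ≤ vm n := ArithmeticFunction.vonMangoldt_nonneg

theorem f1b_vm_prime {p : ℕ} (hp : p.Prime) : vm p = Real.log p :=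
  ArithmeticFunction.vonMangoldt_apply_prime hp

/-- the phase of the shifted point -/
theorem f1b_norm (D : ℕ) (h : ℤ) (m ρ : ℝ) :
    ‖∑ n ∈ Ioc D (4 * D), (vm n : ℂ) * e (h * (m / n + ρ))‖ =
      ‖∑ n ∈ Ioc D (4 * D), (vm n : ℂ) * e ((h * m) / n)‖ := by
  have h1 : ∑ n ∈ Ioc D (4 * D), (vm n : ℂ) * e (h * (m / n + ρ)) =
      e (h * ρ) * ∑ n ∈ Ioc D (4 * D), (vm n : ℂ) * e ((h * m) / n) := by
    rw [Finset.mul_sum]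
    refine Finset.sum_congr rfl fun n _ => ?_
    have h2 : (h : ℝ) * (m / n + ρ) = h * ρ + h * m / n := by ring
    rw [h2, Pool.Agent.Lib.MP_d9bc60_nt.UV.e_add]
    ring
  rw [h1, norm_mul, Pool.Agent.Lib.MP_d9bc60_nt.UV.norm_e, one_mul]

/-- ROW F1b.  `ρ = k/(8D) ≤ 1/64`, `J = ⌈1/ρ⌉` (so `1 ≤ Jρ ≤ 2`, `2J ≤ 32 D/k ≤ k`), `s = Ioc D (4D)`, `w = vm`,
`y n = m/n + ρ`.  For `h ≠ 0`, `|h| ≤ 2J`: `e(h y_n) = e(hρ) e((hm)/n)`, `T = h m`, `|T| ≤ k m ≤ T₁`,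
`|T| ≥ k^(3/2) ≥ D (log D)^C'`; `vm_inv A` with `A = 3c + 2` (its hypothesis `ES (D^(1/5)) (4D) ((log D)^C') T₁` follows from
`ES (k^(1/5)) (k²) ((log k)^C) T₁` with `C = 2C'`, as `k ≤ D`, `4D ≤ k²`, `log D ≤ 2 log k ≤ (log k)^2`, for large `k`)
gives `E = D/(log D)^A ≤ D/(log k)^A`.  `minorant` and `psi_low`:
`∑_{nn(y_n)<ρ} Λ(n) ≥ ρ D/40 - E/ρ² ≥ k/320 - 64 D³/(k² (log k)^A) ≥ k/320 - 64 k/(log k)^2`.  Subtract the prime powers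
(`≤ D^(3/4)`), and use `dvd_of_nn`; `Λ(p) = log p`. -/
theorem many_primes (c : ℕ) : ∃ C K₀ : ℕ, ∀ k D m : ℕ, K₀ ≤ k → 8 * k ≤ D → (D : ℝ) ≤ k * Real.log k ^ c →
    (k : ℝ) ^ (3 / 2 : ℝ) ≤ m → ∀ T₁ : ℝ, ES ((k : ℝ) ^ (1 / 5 : ℝ)) ((k : ℝ) ^ 2) (Real.log k ^ C) T₁ →
    (k : ℝ) * m ≤ T₁ →
    (k : ℝ) / 700 ≤ ∑ p ∈ (Ioc D (4 * D)).filter (fun p => p.Prime ∧ ∃ j ∈ Icc 1 k, p ∣ m + j), Real.log p := by
  obtain ⟨C', N₁, hvm⟩ := vm_inv (3 * c + 2)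
  obtain ⟨N₂, hpsi⟩ := psi_low
  have E1 : ∀ᶠ k : ℕ in Filter.atTop, (300 : ℝ) ≤ Real.log k :=
    (Real.tendsto_log_atTop.comp tendsto_natCast_atTop_atTop).eventually_ge_atTop 300
  have E2 := f1b_log c 1 (1 / 32) (by norm_num) (by norm_num)
  have E3 := f1b_log (c + 2 * C') (1 / 2) 1 (by norm_num) (by norm_num)
  have E4 := f1b_log c (1 / 6) 1 (by norm_num) (by norm_num)
  have E5 : ∀ᶠ k : ℕ in Filter.atTop, (5000 : ℝ) ≤ (k : ℝ) ^ (1 / 8 : ℝ) :=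
    ((tendsto_rpow_atTop (by norm_num : (0 : ℝ) < 1 / 8)).comp tendsto_natCast_atTop_atTop).eventually_ge_atTop 5000
  have E6 : ∀ᶠ k : ℕ in Filter.atTop, N₁ + N₂ + 2 ≤ k := Filter.eventually_ge_atTop _
  obtain ⟨K₀, hK⟩ := Filter.eventually_atTop.1 ((((E1.and E2).and E3).and E4).and (E5.and E6))
  refine ⟨2 * C', K₀, fun k D m hk hD hDk hm T₁ hES hT₁ => ?_⟩
  obtain ⟨⟨⟨⟨e1, e2⟩, e3⟩, e4⟩, e5, e6⟩ := hK k hk
  rw [Real.rpow_one] at e2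
  rw [one_mul] at e3 e4
  set ℓ := Real.log (k : ℝ) with hℓ
  have hkpos : 0 < k := by omega
  have hk0 : (0 : ℝ) < k := by exact_mod_cast hkpos
  have hk1 : (1 : ℝ) ≤ k := by exact_mod_cast hkpos
  have hkD : (k : ℝ) ≤ D := by exact_mod_cast (by omega : k ≤ D)
  have h8kD : (8 : ℝ) * k ≤ D := by exact_mod_cast hD
  have hD0 : (0 : ℝ) < D := lt_of_lt_of_le hk0 hkD
  have hℓ0 : 0 < ℓ := by linarith
  have hℓ1 : 1 ≤ ℓ := by linarith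
  have h4D : (4 : ℝ) * D ≤ (k : ℝ) ^ 2 := by nlinarith
  -- logarithms
  have hlD : ℓ ≤ Real.log D := Real.log_le_log hk0 hkD
  have hlD2 : Real.log D ≤ ℓ ^ 2 := by
    have h1 : Real.log D ≤ Real.log ((k : ℝ) ^ 2) := Real.log_le_log hD0 (by linarith)
    rw [Real.log_pow] at h1
    push_cast at h1
    nlinarith
  have hlD0 : 0 < Real.log D := lt_of_lt_of_le hℓ0 hlD
  have hZ : Real.log D ^ C' ≤ ℓ ^ (2 * C') := by
    rw [pow_mul]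
    exact pow_le_pow_left₀ hlD0.le hlD2 C'
  have hES' : ES ((D : ℝ) ^ (1 / 5 : ℝ)) (4 * D) (Real.log D ^ C') T₁ :=
    hES.mono (Real.rpow_le_rpow hk0.le hkD (by norm_num)) h4D (pow_pos hlD0 _) hZ le_rfl
  -- the parameters
  set ρ : ℝ := (k : ℝ) / (8 * D) with hρ
  have hρ0 : 0 < ρ := by positivity
  have hρ1 : ρ ≤ 1 / 64 := by
    rw [hρ, div_le_iff₀ (by positivity)]
    linarith
  set J : ℕ := ⌈1 / ρ⌉₊ with hJ
  have hJ1 : 1 / ρ ≤ J := Nat.le_ceil _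
  have hJ2 : (J : ℝ) < 1 / ρ + 1 := Nat.ceil_lt_add_one (by positivity)
  have hρi : 1 / ρ * ρ = 1 := by field_simp
  have hJρ1 : 1 ≤ J * ρ := by
    calc (1 : ℝ) = 1 / ρ * ρ := hρi.symm
      _ ≤ J * ρ := mul_le_mul_of_nonneg_right hJ1 hρ0.le
  have hJρ2 : J * ρ ≤ 2 := by
    have : J * ρ ≤ (1 / ρ + 1) * ρ := mul_le_mul_of_nonneg_right hJ2.le hρ0.le
    nlinarith
  have hJk : (2 : ℝ) * J ≤ k := by
    have h1 : 1 / ρ = 8 * D / k := by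
      rw [hρ]
      field_simp
    have h2 : (8 : ℝ) * D / k ≤ 8 * ℓ ^ c := by
      rw [div_le_iff₀ hk0]
      nlinarith
    have h3 : (1 : ℝ) ≤ ℓ ^ c := one_le_pow₀ hℓ1
    rw [h1] at hJ2
    linarith
  -- the exponential sums
  have hlog : (D : ℝ) * Real.log D ^ C' ≤ m := by
    refine le_trans ?_ hm
    calc (D : ℝ) * Real.log D ^ C' ≤ (k * ℓ ^ c) * ℓ ^ (2 * C') :=
          mul_le_mul hDk hZ (pow_nonneg hlD0.le _) (by positivity)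
      _ = k * ℓ ^ (c + 2 * C') := by rw [pow_add]; ring
      _ ≤ k * (k : ℝ) ^ (1 / 2 : ℝ) := mul_le_mul_of_nonneg_left e3 hk0.le
      _ = (k : ℝ) ^ (3 / 2 : ℝ) := by
          rw [show (3 / 2 : ℝ) = 1 + 1 / 2 by norm_num, Real.rpow_add hk0, Real.rpow_one]
  have hm0 : (0 : ℝ) ≤ m := Nat.cast_nonneg m
  have hE : ∀ h : ℤ, h ≠ 0 → |h| ≤ 2 * J →
      ‖∑ n ∈ Ioc D (4 * D), (vm n : ℂ) * e (h * ((m : ℝ) / n + ρ))‖ ≤ D / ℓ ^ (3 * c + 2) := by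
    intro h h0 hJh
    rw [f1b_norm]
    have a1 : (1 : ℝ) ≤ |(h : ℝ)| := by
      have : (1 : ℤ) ≤ |h| := Int.one_le_abs h0
      exact_mod_cast this
    have a2 : |(h : ℝ)| ≤ 2 * J := by exact_mod_cast hJh
    have a3 : |(h : ℝ) * m| = |(h : ℝ)| * m := by rw [abs_mul, abs_of_nonneg hm0]
    have a4 : (D : ℝ) * Real.log D ^ C' ≤ |(h : ℝ) * m| := by
      rw [a3]
      nlinarith
    have a5 : |(h : ℝ) * m| ≤ T₁ := by
      rw [a3]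
      refine le_trans ?_ hT₁
      exact mul_le_mul_of_nonneg_right (a2.trans hJk) hm0
    refine (hvm D (by omega) ((h : ℝ) * m) T₁ hES' a4 a5).trans ?_
    exact div_le_div_of_nonneg_left hD0.le (pow_pos hℓ0 _) (pow_le_pow_left₀ hℓ0.le hlD _)
  have hmin := minorant J ρ hρ0 (by linarith) hJρ1 hJρ2 (Ioc D (4 * D)) vm (fun p _ => f1b_vm_nonneg p)
    (fun n => (m : ℝ) / n + ρ) (D / ℓ ^ (3 * c + 2)) hE
  obtain ⟨hp1, hp2⟩ := hpsi D (by omega)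
  -- the main term
  have b1 : (k : ℝ) / 320 ≤ ρ / 40 * ∑ p ∈ Ioc D (4 * D), vm p := by
    have : ρ / 40 * D ≤ ρ / 40 * ∑ p ∈ Ioc D (4 * D), vm p := mul_le_mul_of_nonneg_left hp1 (by positivity)
    have e' : ρ / 40 * D = k / 320 := by
      rw [hρ]
      field_simp
      norm_num
    linarith
  have b2 : (D : ℝ) / ℓ ^ (3 * c + 2) / ρ ^ 2 ≤ k / 1000 := by
    have c1 : (D : ℝ) / ℓ ^ (3 * c + 2) / ρ ^ 2 = 64 * (D : ℝ) ^ 3 / (k ^ 2 * ℓ ^ (3 * c + 2)) := by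
      rw [hρ]
      field_simp
      norm_num
    have c2 : (D : ℝ) ^ 3 ≤ (k * ℓ ^ c) ^ 3 := pow_le_pow_left₀ hD0.le hDk 3
    rw [c1, div_le_iff₀ (by positivity)]
    have c3 : (k : ℝ) / 1000 * (k ^ 2 * ℓ ^ (3 * c + 2)) = (k * ℓ ^ c) ^ 3 * (ℓ ^ 2 / 1000) := by
      rw [mul_pow, ← pow_mul, pow_add, mul_comm c 3]
      ring
    rw [c3]
    have c4 : (64 : ℝ) ≤ ℓ ^ 2 / 1000 := by nlinarith
    calc 64 * (D : ℝ) ^ 3 ≤ 64 * (k * ℓ ^ c) ^ 3 := by linarith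
      _ = (k * ℓ ^ c) ^ 3 * 64 := by ring
      _ ≤ (k * ℓ ^ c) ^ 3 * (ℓ ^ 2 / 1000) := mul_le_mul_of_nonneg_left c4 (by positivity)
  have b3 : (D : ℝ) ^ (3 / 4 : ℝ) ≤ k / 5000 := by
    have c1 : (D : ℝ) ≤ (k : ℝ) ^ (7 / 6 : ℝ) := by
      refine hDk.trans ?_
      calc (k : ℝ) * ℓ ^ c ≤ k * (k : ℝ) ^ (1 / 6 : ℝ) := mul_le_mul_of_nonneg_left e4 hk0.le
        _ = (k : ℝ) ^ (7 / 6 : ℝ) := by
          rw [show (7 / 6 : ℝ) = 1 + 1 / 6 by norm_num, Real.rpow_add hk0, Real.rpow_one]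
    have c2 : (D : ℝ) ^ (3 / 4 : ℝ) ≤ (k : ℝ) ^ (7 / 8 : ℝ) := by
      calc (D : ℝ) ^ (3 / 4 : ℝ) ≤ ((k : ℝ) ^ (7 / 6 : ℝ)) ^ (3 / 4 : ℝ) :=
            Real.rpow_le_rpow hD0.le c1 (by norm_num)
        _ = (k : ℝ) ^ (7 / 8 : ℝ) := by
            rw [← Real.rpow_mul hk0.le]
            norm_num
    have c3 : (k : ℝ) = (k : ℝ) ^ (7 / 8 : ℝ) * (k : ℝ) ^ (1 / 8 : ℝ) := by
      rw [← Real.rpow_add hk0]
      norm_num
    have c4 : 0 ≤ (k : ℝ) ^ (7 / 8 : ℝ) := Real.rpow_nonneg hk0.le _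
    rw [le_div_iff₀ (by norm_num)]
    calc (D : ℝ) ^ (3 / 4 : ℝ) * 5000 ≤ (k : ℝ) ^ (7 / 8 : ℝ) * (k : ℝ) ^ (1 / 8 : ℝ) :=
          mul_le_mul c2 e5 (by norm_num) c4
      _ = k := c3.symm
  -- from prime powers to primes
  have b4 : ∑ p ∈ (Ioc D (4 * D)).filter (fun p : ℕ => nn ((m : ℝ) / p + ρ) < ρ), vm p ≤
      ∑ p ∈ (Ioc D (4 * D)).filter (fun n => ¬ n.Prime), vm p +
        ∑ p ∈ (Ioc D (4 * D)).filter (fun p => p.Prime ∧ ∃ j ∈ Icc 1 k, p ∣ m + j), vm p := by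
    rw [← Finset.sum_union]
    · refine Finset.sum_le_sum_of_subset_of_nonneg ?_ (fun p _ _ => f1b_vm_nonneg p)
      intro p hp
      rw [Finset.mem_filter] at hp
      rw [Finset.mem_union, Finset.mem_filter, Finset.mem_filter]
      by_cases hpp : p.Prime
      · right
        refine ⟨hp.1, hpp, ?_⟩
        have h1 := Finset.mem_Ioc.1 hp.1
        exact dvd_of_nn m k D p hkpos (by omega) h1.1 h1.2 hp.2
      · left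
        exact ⟨hp.1, hpp⟩
    · rw [Finset.disjoint_left]
      intro p hp hp'
      exact (Finset.mem_filter.1 hp).2 (Finset.mem_filter.1 hp').2.1
  have b5 : ∑ p ∈ (Ioc D (4 * D)).filter (fun p => p.Prime ∧ ∃ j ∈ Icc 1 k, p ∣ m + j), vm p =
      ∑ p ∈ (Ioc D (4 * D)).filter (fun p => p.Prime ∧ ∃ j ∈ Icc 1 k, p ∣ m + j), Real.log p :=
    Finset.sum_congr rfl fun p hp => f1b_vm_prime (Finset.mem_filter.1 hp).2.1
  rw [← b5]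
  have hmin' : ρ / 40 * ∑ p ∈ Ioc D (4 * D), vm p - D / ℓ ^ (3 * c + 2) / ρ ^ 2 ≤
      ∑ p ∈ (Ioc D (4 * D)).filter (fun p : ℕ => nn ((m : ℝ) / p + ρ) < ρ), vm p := hmin
  linarith

end Pool.Agent.Lib.MP_4ae430_nt
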