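import Pool.Agent.Lib.MP_4ae430_nt.M2b

/-! Row F2 (about 180 lines). -/

set_option autoImplicit false

namespace Pool.Agent.Lib.MP_4ae430_nt

open Finset
open Pool.Agent.Lib.MP_d9bc60_nt.UV (e vm nn)

private theorem f2_large : ∃ K₀ : ℕ, ∀ k : ℕ, K₀ ≤ k →
    (10 : ℝ) ≤ Real.log k ∧ 516096 * Real.log k ^ 18 ≤ k := by
  have h1 : ∀ᶠ x : ℝ in Filter.atTop, (10 : ℝ) ≤ Real.log x :=
    Real.tendsto_log_atTop.eventually_ge_atTop 10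
  have h2 : ∀ᶠ x : ℝ in Filter.atTop, ‖Real.log x ^ 18‖ ≤ (1 / 516096) * ‖x‖ :=
    (Real.isLittleO_pow_log_id_atTop (n := 18)).bound (by norm_num)
  have h3 : ∀ᶠ k : ℕ in Filter.atTop, (10 : ℝ) ≤ Real.log k ∧
      ‖Real.log k ^ 18‖ ≤ (1 / 516096) * ‖(k : ℝ)‖ :=
    (tendsto_natCast_atTop_atTop.eventually h1).and (tendsto_natCast_atTop_atTop.eventually h2)
  obtain ⟨K₀, hK⟩ := Filter.eventually_atTop.1 h3
  refine ⟨K₀, fun k hk => ?_⟩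
  obtain ⟨a, b⟩ := hK k hk
  refine ⟨a, ?_⟩
  rw [Real.norm_of_nonneg (by positivity), Real.norm_of_nonneg (by positivity)] at b
  linarith

/-- ROW F2.  `C = 10`, `ℓ = log k`, `D₀ = m₂ - m₁`.  `J = D/(2K)` (natural division), so `ℓ⁶/8 ≤ J ≤ ℓ⁶` and `2JK ≤ D`.
For `|h₁|, |h₂| < J`, not both zero, `T = h₁ m₁ + h₂ m₂ = (h₁+h₂) m₁ + h₂ D₀`: if `h₁+h₂ = 0` then `|T| ≥ D₀ ≥ kℓ²⁴/2`;
otherwise `|T| ≥ m₁ - J D₀ ≥ m₁ - ℓ⁶ · 32ℓ⁴ m₁/k ≥ m₁/2`, and `m₁ ≥ k²/(32ℓ⁴)`.  `|T| ≤ 2 J m₂ ≤ k m₂ ≤ T₁`.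
`ES` with `A := D` (`k^(1/5) ≤ D ≤ k²`), `u = D`, `v = 4D`: norm `≤ D/ℓ^C + 144 D²/|T| ≤ 2k/ℓ⁴ + ...`; with `D ≤ 2kℓ⁶`:
`144 D²/|T| ≤ 144·4k²ℓ¹²·2/(kℓ²⁴)` or `≤ 144·4k²ℓ¹²·64ℓ⁴/k²`.  `both_count`: card `≤ 7(3D/J² + E)`,
`3D/J² ≤ 3·2kℓ⁶·64/ℓ¹²`.  All this is `≤ k/ℓ²` for large `k`. -/
theorem few_both : ∃ C K₀ : ℕ, ∀ m₁ m₂ K k D : ℕ, K₀ ≤ k → k ≤ K → K ≤ 2 * k → m₁ ≤ m₂ →
    (k : ℝ) * Real.log k ^ 6 ≤ D → (D : ℝ) ≤ 2 * (k * Real.log k ^ 6) →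
    (k : ℝ) * Real.log k ^ 24 / 2 ≤ (m₂ : ℝ) - m₁ → ((m₂ : ℝ) - m₁) * k ≤ 32 * Real.log k ^ 4 * m₁ →
    (k : ℝ) ^ 2 ≤ 32 * Real.log k ^ 4 * m₁ →
    ∀ T₁ : ℝ, ES ((k : ℝ) ^ (1 / 5 : ℝ)) ((k : ℝ) ^ 2) (Real.log k ^ C) T₁ → (k : ℝ) * m₂ ≤ T₁ →
    (((Ioc D (4 * D)).filter (fun d => (∃ i ∈ Icc 1 K, d ∣ m₁ + i) ∧ (∃ j ∈ Icc 1 K, d ∣ m₂ + j))).card : ℝ) ≤
      k / Real.log k ^ 2 := by
  obtain ⟨K₀, hK₀⟩ := f2_large
  refine ⟨10, K₀, ?_⟩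
  intro m₁ m₂ K k D hk hkK hK2 hm hD1 hD2 hD0 hD0' hk2 T₁ hES hT₁
  obtain ⟨hℓ, hbig⟩ := hK₀ k hk
  set ℓ : ℝ := Real.log k with hℓdef
  have hℓ0 : 0 < ℓ := by linarith
  have hk1 : (1 : ℝ) ≤ k := by
    have h1 : (1 : ℝ) ≤ ℓ ^ 18 := one_le_pow₀ (by linarith)
    linarith
  have hk0 : (0 : ℝ) < k := by linarith
  have hp : ∀ n : ℕ, (0 : ℝ) < ℓ ^ n := fun n => pow_pos hℓ0 n
  have hpow : ∀ a b : ℕ, a ≤ b → ℓ ^ a ≤ ℓ ^ b := fun a b hab =>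
    pow_le_pow_right₀ (by linarith) hab
  have hb6 : 2 * ℓ ^ 6 ≤ k := by
    have h1 := hpow 6 18 (by norm_num)
    have h2 := hp 18
    linarith
  have hb10 : 64 * ℓ ^ 10 ≤ k := by
    have h1 := hpow 10 18 (by norm_num)
    have h2 := hp 18
    linarith
  have h106 : (1000000 : ℝ) ≤ ℓ ^ 6 := by
    have h1 : (10 : ℝ) ^ 6 ≤ ℓ ^ 6 := pow_le_pow_left₀ (by norm_num) hℓ 6
    norm_num at h1
    exact h1
  set J : ℕ := D / (2 * K) with hJ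
  have hK0 : 0 < K := by
    have : 0 < k := by exact_mod_cast hk0
    omega
  have hKr : (k : ℝ) ≤ K := by exact_mod_cast hkK
  have hKr2 : (K : ℝ) ≤ 2 * k := by exact_mod_cast hK2
  have hJK : 2 * J * K ≤ D := by
    have h1 := Nat.div_mul_le_self D (2 * K)
    calc 2 * J * K = D / (2 * K) * (2 * K) := by rw [hJ]; ring
      _ ≤ D := h1
  have hJKr : 2 * (J : ℝ) * K ≤ D := by exact_mod_cast hJK
  have hJup : (J : ℝ) ≤ ℓ ^ 6 := by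
    have h1 : 2 * (J : ℝ) * k ≤ 2 * (k * ℓ ^ 6) :=
      (mul_le_mul_of_nonneg_left hKr (by positivity)).trans (hJKr.trans hD2)
    have h2 : (J : ℝ) * k ≤ ℓ ^ 6 * k := by linarith
    exact le_of_mul_le_mul_right h2 hk0
  have hJlow : ℓ ^ 6 / 8 ≤ J := by
    have h1 : D < (J + 1) * (2 * K) := by
      have := Nat.lt_div_mul_add (a := D) (b := 2 * K) (by omega)
      calc D < D / (2 * K) * (2 * K) + 2 * K := this
        _ = (J + 1) * (2 * K) := by rw [hJ]; ring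
    have h2 : (D : ℝ) < ((J : ℝ) + 1) * (2 * K) := by exact_mod_cast h1
    have h3 : ((J : ℝ) + 1) * (2 * K) ≤ ((J : ℝ) + 1) * (2 * (2 * k)) := by
      refine mul_le_mul_of_nonneg_left ?_ (by positivity)
      linarith
    have h4 : ℓ ^ 6 * k ≤ (4 * ((J : ℝ) + 1)) * k := by
      calc ℓ ^ 6 * (k : ℝ) = (k : ℝ) * ℓ ^ 6 := by ring
        _ ≤ (D : ℝ) := hD1
        _ ≤ ((J : ℝ) + 1) * (2 * (2 * k)) := (h2.le.trans h3)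
        _ = (4 * ((J : ℝ) + 1)) * k := by ring
    have h5 := le_of_mul_le_mul_right h4 hk0
    linarith
  have hJ1 : 1 ≤ J := by
    have : (1 : ℝ) ≤ J := by linarith
    exact_mod_cast this
  have hDk : (D : ℝ) ≤ (k : ℝ) ^ 2 := by
    calc (D : ℝ) ≤ 2 * (k * ℓ ^ 6) := hD2
      _ = k * (2 * ℓ ^ 6) := by ring
      _ ≤ k * k := mul_le_mul_of_nonneg_left hb6 hk0.le
      _ = (k : ℝ) ^ 2 := by ring
  have hkD : (k : ℝ) ^ (1 / 5 : ℝ) ≤ D := by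
    calc (k : ℝ) ^ (1 / 5 : ℝ) ≤ (k : ℝ) ^ (1 : ℝ) :=
          Real.rpow_le_rpow_of_exponent_le hk1 (by norm_num)
      _ = k * 1 := by rw [Real.rpow_one, mul_one]
      _ ≤ k * ℓ ^ 6 := mul_le_mul_of_nonneg_left (by linarith) hk0.le
      _ ≤ D := hD1
  have hmr : (m₁ : ℝ) ≤ m₂ := by exact_mod_cast hm
  have hm0 : (0 : ℝ) ≤ m₁ := Nat.cast_nonneg _
  set E : ℝ := 2 * k / ℓ ^ 4 + 1152 * k / ℓ ^ 12 + 36864 * ℓ ^ 16 with hE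
  have hE0 : 0 ≤ E := by positivity
  have hDnn : (0 : ℝ) ≤ D := Nat.cast_nonneg _
  have hDsq : (D : ℝ) ^ 2 ≤ 4 * (k ^ 2 * ℓ ^ 12) := by
    calc (D : ℝ) ^ 2 ≤ (2 * (k * ℓ ^ 6)) ^ 2 := pow_le_pow_left₀ hDnn hD2 2
      _ = 4 * (k ^ 2 * ℓ ^ 12) := by ring
  have hmain : ∀ h₁ h₂ : ℤ, |h₁| < J → |h₂| < J → (h₁ ≠ 0 ∨ h₂ ≠ 0) →
      ‖∑ d ∈ Ioc D (4 * D), e (((h₁ : ℝ) * m₁ + h₂ * m₂) / d)‖ ≤ E := by
    intro h₁ h₂ hh₁ hh₂ hne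
    have a1 : |(h₁ : ℝ)| ≤ J := by
      have : ((|h₁| : ℤ) : ℝ) ≤ ((J : ℤ) : ℝ) := by exact_mod_cast hh₁.le
      rw [Int.cast_abs] at this
      exact_mod_cast this
    have a2 : |(h₂ : ℝ)| ≤ J := by
      have : ((|h₂| : ℤ) : ℝ) ≤ ((J : ℤ) : ℝ) := by exact_mod_cast hh₂.le
      rw [Int.cast_abs] at this
      exact_mod_cast this
    set T : ℝ := (h₁ : ℝ) * m₁ + h₂ * m₂ with hT
    have hTup : |T| ≤ T₁ := by
      have b1 : |T| ≤ |(h₁ : ℝ)| * m₁ + |(h₂ : ℝ)| * m₂ := by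
        rw [hT]
        refine (abs_add_le _ _).trans ?_
        rw [abs_mul, abs_mul, Nat.abs_cast, Nat.abs_cast]
      have b2 : |(h₁ : ℝ)| * m₁ ≤ ℓ ^ 6 * m₂ :=
        mul_le_mul (a1.trans hJup) hmr hm0 (hp 6).le
      have b3 : |(h₂ : ℝ)| * m₂ ≤ ℓ ^ 6 * m₂ :=
        mul_le_mul_of_nonneg_right (a2.trans hJup) (by linarith)
      have b4 : 2 * ℓ ^ 6 * (m₂ : ℝ) ≤ k * m₂ :=
        mul_le_mul_of_nonneg_right hb6 (by linarith)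
      linarith
    -- lower bound for T
    have hlow : k * ℓ ^ 24 / 2 ≤ |T| ∨ (k : ℝ) ^ 2 / (64 * ℓ ^ 4) ≤ |T| := by
      by_cases hs : h₁ + h₂ = 0
      · left
        have hh : h₁ = -h₂ := by omega
        have hh2 : h₂ ≠ 0 := by
          rintro rfl
          rcases hne with h | h
          · exact h (by omega)
          · exact h rfl
        have hT2 : T = h₂ * ((m₂ : ℝ) - m₁) := by
          rw [hT, hh]
          push_cast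
          ring
        have h1 : (1 : ℝ) ≤ |(h₂ : ℝ)| := by
          have := Int.one_le_abs hh2
          have h5 : ((1 : ℤ) : ℝ) ≤ ((|h₂| : ℤ) : ℝ) := by exact_mod_cast this
          rw [Int.cast_abs] at h5
          exact_mod_cast h5
        rw [hT2, abs_mul, abs_of_nonneg (sub_nonneg.2 hmr)]
        have h6 : 1 * ((m₂ : ℝ) - m₁) ≤ |(h₂ : ℝ)| * ((m₂ : ℝ) - m₁) :=
          mul_le_mul_of_nonneg_right h1 (sub_nonneg.2 hmr)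
        linarith
      · right
        have hT2 : T = ((h₁ + h₂ : ℤ) : ℝ) * m₁ + h₂ * ((m₂ : ℝ) - m₁) := by
          rw [hT]
          push_cast
          ring
        have h1 : (1 : ℝ) ≤ |((h₁ + h₂ : ℤ) : ℝ)| := by
          have := Int.one_le_abs hs
          have h5 : ((1 : ℤ) : ℝ) ≤ ((|h₁ + h₂| : ℤ) : ℝ) := by exact_mod_cast this
          rw [Int.cast_abs] at h5
          exact_mod_cast h5
        have h2 : (m₁ : ℝ) ≤ |((h₁ + h₂ : ℤ) : ℝ) * m₁| := by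
          rw [abs_mul, Nat.abs_cast]
          have := mul_le_mul_of_nonneg_right h1 hm0
          linarith
        have h3 : |(h₂ : ℝ) * ((m₂ : ℝ) - m₁)| ≤ m₁ / 2 := by
          rw [abs_mul, abs_of_nonneg (sub_nonneg.2 hmr)]
          have h4 : |(h₂ : ℝ)| * ((m₂ : ℝ) - m₁) ≤ ℓ ^ 6 * ((m₂ : ℝ) - m₁) :=
            mul_le_mul_of_nonneg_right (a2.trans hJup) (sub_nonneg.2 hmr)
          have h5 : (ℓ ^ 6 * ((m₂ : ℝ) - m₁)) * k ≤ (m₁ / 2) * k := by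
            calc (ℓ ^ 6 * ((m₂ : ℝ) - m₁)) * k = ℓ ^ 6 * (((m₂ : ℝ) - m₁) * k) := by ring
              _ ≤ ℓ ^ 6 * (32 * ℓ ^ 4 * m₁) := mul_le_mul_of_nonneg_left hD0' (hp 6).le
              _ = (64 * ℓ ^ 10) * (m₁ / 2) := by ring
              _ ≤ k * (m₁ / 2) := mul_le_mul_of_nonneg_right hb10 (by linarith)
              _ = (m₁ / 2) * k := by ring
          exact h4.trans (le_of_mul_le_mul_right h5 hk0)
        have h6 : (m₁ : ℝ) / 2 ≤ |T| := by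
          rw [hT2]
          have h7 := abs_sub_abs_le_abs_sub (((h₁ + h₂ : ℤ) : ℝ) * (m₁ : ℝ))
            (-((h₂ : ℝ) * ((m₂ : ℝ) - m₁)))
          rw [sub_neg_eq_add, abs_neg] at h7
          linarith
        refine le_trans ?_ h6
        rw [div_le_iff₀ (by positivity)]
        linarith
    have hTpos : 0 < |T| := by
      rcases hlow with h | h
      · exact lt_of_lt_of_le (by positivity) h
      · exact lt_of_lt_of_le (by positivity) h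
    have hsum := hES D D (4 * D) hkD hDk le_rfl (by omega) (by omega) T hTpos hTup
    refine hsum.trans ?_
    have c1 : (D : ℝ) / ℓ ^ 10 ≤ 2 * k / ℓ ^ 4 := by
      rw [div_le_div_iff₀ (hp 10) (hp 4)]
      calc (D : ℝ) * ℓ ^ 4 ≤ (2 * (k * ℓ ^ 6)) * ℓ ^ 4 := mul_le_mul_of_nonneg_right hD2 (hp 4).le
        _ = 2 * k * ℓ ^ 10 := by ring
    have c2 : 144 * (D : ℝ) ^ 2 / |T| ≤ 1152 * k / ℓ ^ 12 + 36864 * ℓ ^ 16 := by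
      rw [div_le_iff₀ hTpos]
      rcases hlow with h | h
      · have d1 : (1152 * k / ℓ ^ 12) * (k * ℓ ^ 24 / 2) ≤ (1152 * k / ℓ ^ 12) * |T| :=
          mul_le_mul_of_nonneg_left h (by positivity)
        have d2 : (1152 * k / ℓ ^ 12) * (k * ℓ ^ 24 / 2) = 576 * (k ^ 2 * ℓ ^ 12) := by
          field_simp
          norm_num
        have d3 : 0 ≤ 36864 * ℓ ^ 16 * |T| := by positivity
        rw [add_mul]
        linarith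
      · have d1 : (36864 * ℓ ^ 16) * ((k : ℝ) ^ 2 / (64 * ℓ ^ 4)) ≤ (36864 * ℓ ^ 16) * |T| :=
          mul_le_mul_of_nonneg_left h (by positivity)
        have d2 : (36864 * ℓ ^ 16) * ((k : ℝ) ^ 2 / (64 * ℓ ^ 4)) = 576 * (k ^ 2 * ℓ ^ 12) := by
          field_simp
          norm_num
        have d3 : 0 ≤ 1152 * k / ℓ ^ 12 * |T| := by positivity
        rw [add_mul]
        linarith
    rw [hE]
    linarith
  have hcard := both_count m₁ m₂ K D J hJ1 hJK E hE0 hmain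
  refine hcard.trans ?_
  have hJr : (0 : ℝ) < J := by exact_mod_cast hJ1
  have e1 : 3 * (D : ℝ) / (J : ℝ) ^ 2 ≤ 384 * k / ℓ ^ 6 := by
    rw [div_le_div_iff₀ (by positivity) (hp 6)]
    have f1 : ℓ ^ 12 / 64 ≤ (J : ℝ) ^ 2 := by
      calc ℓ ^ 12 / 64 = (ℓ ^ 6 / 8) ^ 2 := by ring
        _ ≤ (J : ℝ) ^ 2 := pow_le_pow_left₀ (by positivity) hJlow 2
    calc 3 * (D : ℝ) * ℓ ^ 6 ≤ 3 * (2 * (k * ℓ ^ 6)) * ℓ ^ 6 := by
          refine mul_le_mul_of_nonneg_right ?_ (hp 6).le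
          linarith
      _ = 384 * k * (ℓ ^ 12 / 64) := by ring
      _ ≤ 384 * k * (J : ℝ) ^ 2 := mul_le_mul_of_nonneg_left f1 (by positivity)
  have hdiv : ∀ n : ℕ, (k : ℝ) / ℓ ^ 2 * ℓ ^ (n + 2) = k * ℓ ^ n := by
    intro n
    rw [div_mul_eq_mul_div, div_eq_iff (hp 2).ne', pow_add, mul_assoc]
  have e2 : 384 * k / ℓ ^ 6 ≤ (384 / 10 ^ 4) * (k / ℓ ^ 2) := by
    rw [div_le_iff₀ (hp 6)]
    have f1 : (10 : ℝ) ^ 4 ≤ ℓ ^ 4 := pow_le_pow_left₀ (by norm_num) hℓ 4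
    have f2 : (384 / 10 ^ 4) * (k / ℓ ^ 2) * ℓ ^ 6 = (384 / 10 ^ 4) * (k * ℓ ^ 4) := by
      rw [mul_assoc, hdiv 4]
    have f3 : (k : ℝ) * 10 ^ 4 ≤ k * ℓ ^ 4 := mul_le_mul_of_nonneg_left f1 hk0.le
    rw [f2]
    linarith
  have e3 : 2 * k / ℓ ^ 4 ≤ (2 / 10 ^ 2) * (k / ℓ ^ 2) := by
    rw [div_le_iff₀ (hp 4)]
    have f1 : (10 : ℝ) ^ 2 ≤ ℓ ^ 2 := pow_le_pow_left₀ (by norm_num) hℓ 2
    have f2 : (2 / 10 ^ 2) * (k / ℓ ^ 2) * ℓ ^ 4 = (2 / 10 ^ 2) * (k * ℓ ^ 2) := by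
      rw [mul_assoc, hdiv 2]
    have f3 : (k : ℝ) * 10 ^ 2 ≤ k * ℓ ^ 2 := mul_le_mul_of_nonneg_left f1 hk0.le
    rw [f2]
    linarith
  have e4 : 1152 * k / ℓ ^ 12 ≤ (1152 / 10 ^ 10) * (k / ℓ ^ 2) := by
    rw [div_le_iff₀ (hp 12)]
    have f1 : (10 : ℝ) ^ 10 ≤ ℓ ^ 10 := pow_le_pow_left₀ (by norm_num) hℓ 10
    have f2 : (1152 / 10 ^ 10) * (k / ℓ ^ 2) * ℓ ^ 12 = (1152 / 10 ^ 10) * (k * ℓ ^ 10) := by
      rw [mul_assoc, hdiv 10]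
    have f3 : (k : ℝ) * 10 ^ 10 ≤ k * ℓ ^ 10 := mul_le_mul_of_nonneg_left f1 hk0.le
    rw [f2]
    linarith
  have e5 : 36864 * ℓ ^ 16 ≤ (36864 / 516096) * (k / ℓ ^ 2) := by
    rw [← mul_div_assoc, le_div_iff₀ (hp 2), mul_assoc, ← pow_add]
    norm_num
    linarith
  have hq : 0 ≤ k / ℓ ^ 2 := by positivity
  rw [hE]
  have hfin : 7 * (384 * k / ℓ ^ 6 + (2 * k / ℓ ^ 4 + 1152 * k / ℓ ^ 12 + 36864 * ℓ ^ 16)) ≤
      k / ℓ ^ 2 := by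
    have g1 : 7 * ((384 / 10 ^ 4) * (k / ℓ ^ 2) + ((2 / 10 ^ 2) * (k / ℓ ^ 2) +
        (1152 / 10 ^ 10) * (k / ℓ ^ 2) + (36864 / 516096) * (k / ℓ ^ 2))) ≤ k / ℓ ^ 2 := by
      linarith
    linarith
  linarith

end Pool.Agent.Lib.MP_4ae430_nt
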