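import Pool.Agent.Lib.MP_4ae430_nt.S1

/-! Row S2 (about 150 lines). -/

set_option autoImplicit false

namespace Pool.Agent.Lib.MP_4ae430_nt

open Finset

theorem s2_log_B (m k : ℕ) : Real.log (B m k : ℝ) = ∑ i ∈ Icc 1 k, Real.log ((m : ℝ) + i) := by
  rw [B, Nat.cast_prod, Real.log_prod]
  · refine Finset.sum_congr rfl fun i _ => ?_
    push_cast
    rfl
  · intro i hi
    have h1 := (Finset.mem_Icc.1 hi).1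
    have : 0 < m + i := by omega
    exact_mod_cast this.ne'

/-- ROW S2a.  `B m₁ k₁ = ∏_{j ≤ k₂} (m₁+j) · ∏_{k₂ < i ≤ k₁} (m₁+i)`, the last product is `≤ m₂^(k₁-k₂)` as
`m₁ + k₁ ≤ m₂`.  Each factor satisfies `(m₂+j)/(m₁+j) ≥ 1 + (m₂-m₁)/(m₁+k₂)`.  So
`(1 + (m₂-m₁)/(m₁+k₂))^k₂ ≤ m₂^(k₁-k₂)`; take logarithms. -/
theorem sol_log (m₁ k₁ m₂ k₂ : ℕ) (h : Sol m₁ k₁ m₂ k₂) :
    (k₂ : ℝ) * Real.log (1 + ((m₂ : ℝ) - m₁) / (m₁ + k₂)) ≤ ((k₁ : ℝ) - k₂) * Real.log m₂ := by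
  obtain ⟨hlt, -⟩ := sol_sub m₁ k₁ m₂ k₂ h
  obtain ⟨hB, hk1, hk2, hm⟩ := h
  have hlog : ∑ i ∈ Icc 1 k₁, Real.log ((m₁ : ℝ) + i) = ∑ i ∈ Icc 1 k₂, Real.log ((m₂ : ℝ) + i) := by
    rw [← s2_log_B, ← s2_log_B, hB]
  have hsplit : ∑ i ∈ Icc 1 k₁, Real.log ((m₁ : ℝ) + i) =
      ∑ i ∈ Icc 1 k₂, Real.log ((m₁ : ℝ) + i) + ∑ i ∈ Ioc k₂ k₁, Real.log ((m₁ : ℝ) + i) := by
    rw [← Finset.sum_union]
    · congr 1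
      ext i
      simp only [Finset.mem_union, Finset.mem_Icc, Finset.mem_Ioc]
      omega
    · rw [Finset.disjoint_left]
      intro i hi hi'
      have h1 := (Finset.mem_Icc.1 hi).2
      have h2 := (Finset.mem_Ioc.1 hi').1
      omega
  have hm2 : 0 < m₂ := by omega
  have hm2r : (0 : ℝ) < m₂ := by exact_mod_cast hm2
  have hm12 : (m₁ : ℝ) ≤ m₂ := by exact_mod_cast (by omega : m₁ ≤ m₂)
  have hk2r : (0 : ℝ) < k₂ := by exact_mod_cast (by omega : 0 < k₂)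
  have hup : ∑ i ∈ Ioc k₂ k₁, Real.log ((m₁ : ℝ) + i) ≤ ((k₁ : ℝ) - k₂) * Real.log m₂ := by
    have h1 : ∑ i ∈ Ioc k₂ k₁, Real.log ((m₁ : ℝ) + i) ≤ ∑ _i ∈ Ioc k₂ k₁, Real.log (m₂ : ℝ) := by
      refine Finset.sum_le_sum fun i hi => ?_
      have h2 := (Finset.mem_Ioc.1 hi).2
      have h3 := (Finset.mem_Ioc.1 hi).1
      refine Real.log_le_log ?_ ?_
      · exact_mod_cast (by omega : 0 < m₁ + i)
      · exact_mod_cast (by omega : m₁ + i ≤ m₂)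
    rw [Finset.sum_const, Nat.card_Ioc, nsmul_eq_mul, Nat.cast_sub hlt.le] at h1
    exact h1
  have hlow : (k₂ : ℝ) * Real.log (1 + ((m₂ : ℝ) - m₁) / (m₁ + k₂)) ≤
      ∑ i ∈ Icc 1 k₂, (Real.log ((m₂ : ℝ) + i) - Real.log ((m₁ : ℝ) + i)) := by
    have h1 : ∑ _i ∈ Icc 1 k₂, Real.log (1 + ((m₂ : ℝ) - m₁) / (m₁ + k₂)) ≤
        ∑ i ∈ Icc 1 k₂, (Real.log ((m₂ : ℝ) + i) - Real.log ((m₁ : ℝ) + i)) := by
      refine Finset.sum_le_sum fun i hi => ?_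
      have h2 := (Finset.mem_Icc.1 hi).2
      have h3 := (Finset.mem_Icc.1 hi).1
      have hip : (0 : ℝ) < i := by exact_mod_cast h3
      have h4 : (0 : ℝ) < (m₁ : ℝ) + i := by positivity
      have h5 : (0 : ℝ) < (m₂ : ℝ) + i := by positivity
      have h6 : (m₁ : ℝ) + i ≤ m₁ + k₂ := by
        have : (i : ℝ) ≤ k₂ := by exact_mod_cast h2
        linarith
      rw [← Real.log_div h5.ne' h4.ne']
      refine Real.log_le_log ?_ ?_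
      · have : 0 ≤ ((m₂ : ℝ) - m₁) / (m₁ + k₂) := div_nonneg (by linarith) (by positivity)
        linarith
      · have e : ((m₂ : ℝ) + i) / (m₁ + i) = 1 + ((m₂ : ℝ) - m₁) / (m₁ + i) := by
          field_simp
          ring
        rw [e]
        have : ((m₂ : ℝ) - m₁) / (m₁ + k₂) ≤ ((m₂ : ℝ) - m₁) / (m₁ + i) :=
          div_le_div_of_nonneg_left (by linarith) h4 h6
        linarith
    rw [Finset.sum_const, Nat.card_Icc, nsmul_eq_mul, Nat.add_sub_cancel] at h1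
    exact h1
  rw [Finset.sum_sub_distrib] at hlow
  linarith

theorem s2_large : ∃ K₀ : ℕ, ∀ k : ℕ, K₀ ≤ k → 1 ≤ Real.log k ∧ 32 * Real.log k ^ 4 ≤ (k : ℝ) := by
  have h1 := Real.isLittleO_pow_log_id_atTop (n := 4)
  have h2 := (h1.def (c := 1 / 32) (by norm_num)).natCast_atTop
  have h3 : ∀ᶠ k : ℕ in Filter.atTop, 1 ≤ Real.log k :=
    (Real.tendsto_log_atTop.comp tendsto_natCast_atTop_atTop).eventually_ge_atTop 1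
  obtain ⟨K₀, hK⟩ := Filter.eventually_atTop.1 (h2.and h3)
  refine ⟨K₀, fun k hk => ⟨(hK k hk).2, ?_⟩⟩
  have h4 := (hK k hk).1
  simp only [id, norm_pow, Real.norm_eq_abs, Nat.abs_cast] at h4
  have h5 : |Real.log k| ^ 4 = Real.log k ^ 4 := by
    rw [abs_of_nonneg (by linarith [(hK k hk).2])]
  rw [h5] at h4
  linarith

/-- ROW S2b.  Put `ℓ = log k₂`, `η = 8ℓ⁴/k₂ ≤ 1/2` (large `k₂`).  `sol_sub` and `log m₂ ≤ ℓ²` give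
`k₁ - k₂ ≤ 8ℓ² ≤ k₂`, and with `sol_log` `log(1+x) ≤ η`, `x = (m₂-m₁)/(m₁+k₂)`, so `x ≤ e^η - 1 ≤ 2η`
and `m₂ - m₁ ≤ 16ℓ⁴ (m₁+k₂)/k₂`.  As `m₂ - m₁ ≥ k₁ > k₂`: `k₂² ≤ 16ℓ⁴(m₁+k₂)`, and for `k₂ ≥ 32ℓ⁴` this gives
`k₂² ≤ 32ℓ⁴ m₁`, hence `k₂ ≤ m₁` and `(m₂-m₁) k₂ ≤ 32 ℓ⁴ m₁`. -/
theorem sol_size : ∃ K₀ : ℕ, ∀ m₁ k₁ m₂ k₂ : ℕ, Sol m₁ k₁ m₂ k₂ → K₀ ≤ k₂ →
    Real.log m₂ ≤ Real.log k₂ ^ 2 →
    (k₁ : ℝ) ≤ 2 * k₂ ∧ ((m₂ : ℝ) - m₁) * k₂ ≤ 32 * Real.log k₂ ^ 4 * m₁ ∧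
      (k₂ : ℝ) ^ 2 ≤ 32 * Real.log k₂ ^ 4 * m₁ := by
  obtain ⟨K₀, hK⟩ := s2_large
  refine ⟨K₀, fun m₁ k₁ m₂ k₂ h hk hl => ?_⟩
  obtain ⟨hl1, hbig⟩ := hK k₂ hk
  have hlog := sol_log m₁ k₁ m₂ k₂ h
  obtain ⟨hlt, hsub⟩ := sol_sub m₁ k₁ m₂ k₂ h
  obtain ⟨hB, hk1, hk2, hm⟩ := h
  set ℓ := Real.log (k₂ : ℝ) with hℓ
  have hk2r : (0 : ℝ) < k₂ := by exact_mod_cast (by omega : 0 < k₂)
  have hltr : (k₂ : ℝ) < k₁ := by exact_mod_cast hlt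
  have hm1r : (0 : ℝ) ≤ m₁ := Nat.cast_nonneg _
  have hmr : (m₁ : ℝ) + k₁ ≤ m₂ := by exact_mod_cast hm
  have hm2pos : 0 ≤ Real.log (m₂ : ℝ) := Real.log_natCast_nonneg m₂
  have hℓ2 : 1 ≤ ℓ ^ 2 := one_le_pow₀ hl1
  have hℓ4 : ℓ ^ 4 = ℓ ^ 2 * ℓ ^ 2 := by ring
  have hℓ24 : ℓ ^ 2 ≤ ℓ ^ 4 := by nlinarith
  have hd : (k₁ : ℝ) - k₂ ≤ 8 * ℓ ^ 2 := by linarith
  have h1 : (k₁ : ℝ) ≤ 2 * k₂ := by linarith
  have h2 : (k₂ : ℝ) * Real.log (1 + ((m₂ : ℝ) - m₁) / (m₁ + k₂)) ≤ 8 * ℓ ^ 4 := by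
    refine hlog.trans ?_
    calc ((k₁ : ℝ) - k₂) * Real.log m₂ ≤ (8 * ℓ ^ 2) * ℓ ^ 2 :=
          mul_le_mul hd hl hm2pos (by positivity)
      _ = 8 * ℓ ^ 4 := by ring
  set x : ℝ := ((m₂ : ℝ) - m₁) / (m₁ + k₂) with hx
  have hx0 : 0 ≤ x := div_nonneg (by linarith) (by positivity)
  set η : ℝ := 8 * ℓ ^ 4 / k₂ with hη
  have hη0 : 0 ≤ η := by positivity
  have hη1 : η ≤ 1 / 4 := by
    rw [hη, div_le_iff₀ hk2r]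
    linarith
  have h3 : Real.log (1 + x) ≤ η := by
    rw [hη, le_div_iff₀ hk2r]
    linarith
  have h4 : 1 + x ≤ Real.exp η := by
    rw [← Real.log_le_iff_le_exp (by linarith)]
    exact h3
  have h5 : Real.exp η ≤ 1 + 2 * η := by
    have h6 : -η + 1 ≤ Real.exp (-η) := Real.add_one_le_exp (-η)
    have h7 : Real.exp η * Real.exp (-η) = 1 := by rw [← Real.exp_add]; simp
    have h8 : 0 < Real.exp η := Real.exp_pos η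
    nlinarith
  have h6 : x ≤ 2 * η := by linarith
  have h7 : ((m₂ : ℝ) - m₁) * k₂ ≤ 16 * ℓ ^ 4 * (m₁ + k₂) := by
    have hp : (0 : ℝ) < m₁ + k₂ := by positivity
    have e1 : x * (m₁ + k₂) = (m₂ : ℝ) - m₁ := by
      rw [hx]
      field_simp
    have e2 : η * k₂ = 8 * ℓ ^ 4 := by
      rw [hη]
      field_simp
    calc ((m₂ : ℝ) - m₁) * k₂ = x * ((m₁ + k₂) * k₂) := by rw [← e1]; ring
      _ ≤ 2 * η * ((m₁ + k₂) * k₂) := mul_le_mul_of_nonneg_right h6 (by positivity)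
      _ = 2 * (η * k₂) * (m₁ + k₂) := by ring
      _ = 16 * ℓ ^ 4 * (m₁ + k₂) := by rw [e2]; ring
  have h8 : (k₂ : ℝ) ^ 2 ≤ 32 * ℓ ^ 4 * m₁ := by
    have a1 : (k₂ : ℝ) * k₂ ≤ ((m₂ : ℝ) - m₁) * k₂ := mul_le_mul_of_nonneg_right (by linarith) hk2r.le
    have a2 : 32 * ℓ ^ 4 * k₂ ≤ (k₂ : ℝ) * k₂ := mul_le_mul_of_nonneg_right hbig hk2r.le
    nlinarith
  have h9 : (k₂ : ℝ) ≤ m₁ := by
    have a1 : 32 * ℓ ^ 4 * m₁ ≤ (k₂ : ℝ) * m₁ := mul_le_mul_of_nonneg_right hbig hm1r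
    have a2 : (k₂ : ℝ) * k₂ ≤ k₂ * m₁ := by nlinarith
    exact le_of_mul_le_mul_left a2 hk2r
  refine ⟨h1, ?_, h8⟩
  have a3 : 16 * ℓ ^ 4 * (m₁ + k₂) ≤ 16 * ℓ ^ 4 * (m₁ + m₁) :=
    mul_le_mul_of_nonneg_left (by linarith) (by positivity)
  linarith

end Pool.Agent.Lib.MP_4ae430_nt
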