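import Pool.Agent.Lib.MP_4ae430_nt.F1b
import Pool.Agent.Lib.MP_4ae430_nt.F2
import Pool.Agent.Lib.MP_4ae430_nt.S2

/-! Row F3 (about 200 lines). -/

set_option autoImplicit false

namespace Pool.Agent.Lib.MP_4ae430_nt

open Finset
open Pool.Agent.Lib.MP_d9bc60_nt.UV (e vm nn)

/-- ROW F3a.  A prime `p > k₁` dividing a term of the upper block divides a term of the lower block
(`p ∣ m₂ + j ∣ B m₂ k₂ = B m₁ k₁`, `Prime.exists_mem_finset_dvd`). -/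
theorem common (m₁ k₁ m₂ k₂ p : ℕ) (h : Sol m₁ k₁ m₂ k₂) (hp : p.Prime) (hj : ∃ j ∈ Icc 1 k₂, p ∣ m₂ + j) :
    ∃ i ∈ Icc 1 k₁, p ∣ m₁ + i := by
  obtain ⟨j, hj, hpj⟩ := hj
  have h1 : p ∣ B m₂ k₂ := hpj.trans (Finset.dvd_prod_of_mem (fun i => m₂ + i) hj)
  rw [← h.1, B, hp.prime.dvd_finsetProd_iff] at h1
  exact h1

theorem f3_large : ∃ K₀ : ℕ, ∀ k : ℕ, K₀ ≤ k → 10000 ≤ Real.log k ∧ 32 * Real.log k ^ 4 ≤ (k : ℝ) ^ (1 / 2 : ℝ) ∧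
    8 * Real.log k ^ 6 ≤ k := by
  have h1 : ∀ᶠ x : ℝ in Filter.atTop, 10000 ≤ Real.log x :=
    Real.tendsto_log_atTop.eventually_ge_atTop _
  have h2 := (isLittleO_log_rpow_rpow_atTop (4 : ℝ) (by norm_num : (0 : ℝ) < 1 / 2)).bound
    (show (0 : ℝ) < 1 / 32 by norm_num)
  have h3 := (isLittleO_log_rpow_rpow_atTop (6 : ℝ) (by norm_num : (0 : ℝ) < 1)).bound
    (show (0 : ℝ) < 1 / 8 by norm_num)
  have h4 : ∀ᶠ x : ℝ in Filter.atTop, 10000 ≤ Real.log x ∧ 32 * Real.log x ^ 4 ≤ x ^ (1 / 2 : ℝ) ∧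
      8 * Real.log x ^ 6 ≤ x := by
    filter_upwards [h1, h2, h3, Filter.eventually_ge_atTop (1 : ℝ)] with x a1 a2 a3 a4
    have hl : 0 ≤ Real.log x := by linarith
    refine ⟨a1, ?_, ?_⟩
    · rw [Real.norm_of_nonneg (Real.rpow_nonneg hl _), Real.norm_of_nonneg (Real.rpow_nonneg (by linarith) _)] at a2
      have e : Real.log x ^ (4 : ℝ) = Real.log x ^ 4 := by
        rw [← Real.rpow_natCast]; norm_num
      rw [e] at a2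
      linarith
    · rw [Real.norm_of_nonneg (Real.rpow_nonneg hl _), Real.norm_of_nonneg (Real.rpow_nonneg (by linarith) _)] at a3
      have e : Real.log x ^ (6 : ℝ) = Real.log x ^ 6 := by
        rw [← Real.rpow_natCast]; norm_num
      rw [e, Real.rpow_one] at a3
      linarith
  obtain ⟨K₀, hK₀⟩ := Filter.eventually_atTop.1 (tendsto_natCast_atTop_atTop.eventually h4)
  exact ⟨K₀, hK₀⟩

theorem master : ∃ C K₀ : ℕ, ∀ m₁ k₁ m₂ k₂ : ℕ, Sol m₁ k₁ m₂ k₂ → K₀ ≤ k₂ →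
    Real.log m₂ ≤ Real.log k₂ ^ 2 →
    ¬ ES ((k₂ : ℝ) ^ (1 / 5 : ℝ)) ((k₂ : ℝ) ^ 2) (Real.log k₂ ^ C) ((m₂ : ℝ) ^ 3) := by
  obtain ⟨C1, K1, hmp⟩ := many_primes 25
  obtain ⟨C2, K2, hfb⟩ := few_both
  obtain ⟨K3, hss⟩ := sol_size
  obtain ⟨K4, hlarge⟩ := f3_large
  refine ⟨max C1 C2, max (max K1 K2) (max K3 K4), ?_⟩
  intro m₁ K m₂ k hsol hk hlog hES
  obtain ⟨hlt, -⟩ := sol_sub _ _ _ _ hsol
  have hk1 : K1 ≤ k := by omega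
  have hk2 : K2 ≤ k := by omega
  have hk3 : K3 ≤ k := by omega
  have hk4 : K4 ≤ k := by omega
  obtain ⟨hs1, hs2, hs3⟩ := hss _ _ _ _ hsol hk3 hlog
  obtain ⟨hl1, hl2, hl3⟩ := hlarge k hk4
  obtain ⟨heq, hK3, hk33, hdis⟩ := hsol
  have hsol : Sol m₁ K m₂ k := ⟨heq, hK3, hk33, hdis⟩
  obtain ⟨ℓ, hℓ⟩ : ∃ ℓ, ℓ = Real.log (k : ℝ) := ⟨_, rfl⟩
  rw [← hℓ] at hs2 hs3 hl1 hl2 hl3
  have hℓ1 : 1 ≤ ℓ := by linarith
  have hℓ0 : 0 < ℓ := by linarith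
  have hkR : (0 : ℝ) < k := by
    have : (3 : ℝ) < k := by exact_mod_cast hk33
    linarith
  have hkR3 : (3 : ℝ) < k := by exact_mod_cast hk33
  have hdisR : (m₁ : ℝ) + K ≤ m₂ := by exact_mod_cast hdis
  have hm1m2 : m₁ ≤ m₂ := by omega
  have hkm2 : (k : ℝ) ≤ m₂ := by
    have h1 : k ≤ m₂ := by omega
    exact_mod_cast h1
  have hm21 : (1 : ℝ) ≤ m₂ := by linarith
  have hT : (k : ℝ) * m₂ ≤ (m₂ : ℝ) ^ 3 := by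
    calc (k : ℝ) * m₂ ≤ m₂ * m₂ := mul_le_mul_of_nonneg_right hkm2 (by linarith)
      _ = (m₂ : ℝ) ^ 2 := by ring
      _ ≤ (m₂ : ℝ) ^ 3 := pow_le_pow_right₀ hm21 (by norm_num)
  have hES1 : ES ((k : ℝ) ^ (1 / 5 : ℝ)) ((k : ℝ) ^ 2) (Real.log k ^ C1) ((m₂ : ℝ) ^ 3) := by
    refine hES.mono le_rfl le_rfl ?_ ?_ le_rfl
    · rw [← hℓ]; positivity
    · rw [← hℓ]; exact pow_le_pow_right₀ hℓ1 (le_max_left _ _)
  have hES2 : ES ((k : ℝ) ^ (1 / 5 : ℝ)) ((k : ℝ) ^ 2) (Real.log k ^ C2) ((m₂ : ℝ) ^ 3) := by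
    refine hES.mono le_rfl le_rfl ?_ ?_ le_rfl
    · rw [← hℓ]; positivity
    · rw [← hℓ]; exact pow_le_pow_right₀ hℓ1 (le_max_right _ _)
  -- `m₂ ≥ k^(3/2)`
  have hm32 : (k : ℝ) ^ (3 / 2 : ℝ) ≤ m₂ := by
    have h1 : (k : ℝ) ^ 2 ≤ (k : ℝ) ^ (1 / 2 : ℝ) * m₁ :=
      hs3.trans (mul_le_mul_of_nonneg_right hl2 (Nat.cast_nonneg _))
    have h2 : (k : ℝ) ^ 2 = (k : ℝ) ^ (1 / 2 : ℝ) * (k : ℝ) ^ (3 / 2 : ℝ) := by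
      rw [← Real.rpow_add hkR, ← Real.rpow_natCast]; norm_num
    rw [h2] at h1
    have h3 : (k : ℝ) ^ (3 / 2 : ℝ) ≤ m₁ := le_of_mul_le_mul_left h1 (Real.rpow_pos_of_pos hkR _)
    have h4 : (m₁ : ℝ) ≤ m₂ := by exact_mod_cast hm1m2
    linarith
  have hℓp : ∀ a b : ℕ, a ≤ b → (k : ℝ) * ℓ ^ a ≤ k * ℓ ^ b := fun a b hab =>
    mul_le_mul_of_nonneg_left (pow_le_pow_right₀ hℓ1 hab) hkR.le
  have h8 : (8 : ℝ) ≤ ℓ ^ 6 := by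
    calc (8 : ℝ) ≤ ℓ := by linarith
      _ = ℓ ^ 1 := (pow_one _).symm
      _ ≤ ℓ ^ 6 := pow_le_pow_right₀ hℓ1 (by norm_num)
  -- the ceilings
  have hceil : ∀ a : ℕ, 6 ≤ a → a ≤ 24 → (k : ℝ) * ℓ ^ a ≤ ((⌈(k : ℝ) * ℓ ^ a⌉₊ : ℕ) : ℝ) ∧
      ((⌈(k : ℝ) * ℓ ^ a⌉₊ : ℕ) : ℝ) ≤ 2 * (k * ℓ ^ a) ∧ 8 * k ≤ ⌈(k : ℝ) * ℓ ^ a⌉₊ ∧
      ((⌈(k : ℝ) * ℓ ^ a⌉₊ : ℕ) : ℝ) ≤ k * ℓ ^ 25 := by
    intro a ha ha'
    have h1 : (1 : ℝ) ≤ k * ℓ ^ a := by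
      have : (1 : ℝ) ≤ ℓ ^ a := one_le_pow₀ hℓ1
      nlinarith
    have h2 := Nat.le_ceil ((k : ℝ) * ℓ ^ a)
    have h3 : ((⌈(k : ℝ) * ℓ ^ a⌉₊ : ℕ) : ℝ) < k * ℓ ^ a + 1 := Nat.ceil_lt_add_one (by linarith)
    refine ⟨h2, by linarith, ?_, ?_⟩
    · have h4 : ((8 * k : ℕ) : ℝ) ≤ ((⌈(k : ℝ) * ℓ ^ a⌉₊ : ℕ) : ℝ) := by
        refine le_trans ?_ h2
        push_cast
        calc (8 : ℝ) * k = k * 8 := by ring
          _ ≤ k * ℓ ^ 6 := mul_le_mul_of_nonneg_left h8 hkR.le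
          _ ≤ k * ℓ ^ a := hℓp 6 a ha
      exact_mod_cast h4
    · have h4 : 2 * ((k : ℝ) * ℓ ^ a) ≤ k * ℓ ^ 25 := by
        calc 2 * ((k : ℝ) * ℓ ^ a) ≤ ℓ * ((k : ℝ) * ℓ ^ a) :=
              mul_le_mul_of_nonneg_right (by linarith) (by positivity)
          _ = k * ℓ ^ (a + 1) := by ring
          _ ≤ k * ℓ ^ 25 := hℓp (a + 1) 25 (by omega)
      linarith
  by_cases hcase : (m₂ : ℝ) - m₁ + K ≤ k * ℓ ^ 24
  · -- Case A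
    obtain ⟨hc1, hc2, hc3, hc4⟩ := hceil 24 (by norm_num) le_rfl
    obtain ⟨D, hD⟩ : ∃ D, D = ⌈(k : ℝ) * ℓ ^ 24⌉₊ := ⟨_, rfl⟩
    rw [← hD] at hc1 hc2 hc3 hc4
    have h1 := hmp k D m₂ hk1 hc3 (by rw [← hℓ]; exact hc4) hm32 ((m₂ : ℝ) ^ 3) hES1 hT
    have h2 : ((Ioc D (4 * D)).filter (fun p => p.Prime ∧ ∃ j ∈ Icc 1 k, p ∣ m₂ + j)).Nonempty := by
      rw [Finset.nonempty_iff_ne_empty]
      intro h3
      rw [h3, Finset.sum_empty] at h1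
      have : (0 : ℝ) < k / 700 := by positivity
      linarith
    obtain ⟨p, hp⟩ := h2
    rw [Finset.mem_filter, Finset.mem_Ioc] at hp
    obtain ⟨⟨hpD, -⟩, hpp, hpj⟩ := hp
    obtain ⟨i, hi, hpi⟩ := common _ _ _ _ p hsol hpp hpj
    obtain ⟨j, hj, hpj⟩ := hpj
    rw [Finset.mem_Icc] at hi hj
    have hlt2 : m₁ + i < m₂ + j := by omega
    have h5 : p ∣ (m₂ + j) - (m₁ + i) := Nat.dvd_sub hpj hpi
    have h6 : p ≤ (m₂ + j) - (m₁ + i) := Nat.le_of_dvd (by omega) h5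
    have h7 : D + 1 + (m₁ + i) ≤ m₂ + j := by omega
    have h8 : (D : ℝ) + 1 + (m₁ + i) ≤ m₂ + j := by exact_mod_cast h7
    have h9 : (j : ℝ) ≤ k := by exact_mod_cast hj.2
    have h10 : (1 : ℝ) ≤ i := by exact_mod_cast hi.1
    have h11 : (k : ℝ) ≤ K := by exact_mod_cast hlt.le
    linarith
  · -- Case B
    rw [not_le] at hcase
    obtain ⟨hc1, hc2, hc3, hc4⟩ := hceil 6 le_rfl (by norm_num)
    obtain ⟨D, hD⟩ : ∃ D, D = ⌈(k : ℝ) * ℓ ^ 6⌉₊ := ⟨_, rfl⟩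
    rw [← hD] at hc1 hc2 hc3 hc4
    have h1 := hmp k D m₂ hk1 hc3 (by rw [← hℓ]; exact hc4) hm32 ((m₂ : ℝ) ^ 3) hES1 hT
    have hD0 : (k : ℝ) * ℓ ^ 24 / 2 ≤ (m₂ : ℝ) - m₁ := by
      have h2 : (K : ℝ) ≤ k * ℓ ^ 24 / 2 := by
        have h3 : (4 : ℝ) ≤ ℓ ^ 24 := by
          calc (4 : ℝ) ≤ ℓ := by linarith
            _ = ℓ ^ 1 := (pow_one _).symm
            _ ≤ ℓ ^ 24 := pow_le_pow_right₀ hℓ1 (by norm_num)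
        have h4 : (k : ℝ) * 4 ≤ k * ℓ ^ 24 := mul_le_mul_of_nonneg_left h3 hkR.le
        linarith
      linarith
    have hK2k : K ≤ 2 * k := by exact_mod_cast hs1
    have h2 := hfb m₁ m₂ K k D hk2 hlt.le hK2k hm1m2 (by rw [← hℓ]; exact hc1) (by rw [← hℓ]; exact hc2)
      (by rw [← hℓ]; exact hD0) (by rw [← hℓ]; exact hs2) (by rw [← hℓ]; exact hs3) ((m₂ : ℝ) ^ 3) hES2 hT
    rw [← hℓ] at h2
    -- the primes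
    have h3 : ∑ p ∈ (Ioc D (4 * D)).filter (fun p => p.Prime ∧ ∃ j ∈ Icc 1 k, p ∣ m₂ + j), Real.log p ≤
        ((((Ioc D (4 * D)).filter (fun p => p.Prime ∧ ∃ j ∈ Icc 1 k, p ∣ m₂ + j)).card : ℕ) : ℝ) * (3 * ℓ) := by
      rw [← nsmul_eq_mul]
      refine Finset.sum_le_card_nsmul _ _ _ fun p hp => ?_
      rw [Finset.mem_filter, Finset.mem_Ioc] at hp
      obtain ⟨⟨hp1, hp2⟩, -⟩ := hp
      have h4 : (p : ℝ) ≤ (k : ℝ) ^ 3 := by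
        have h5 : (p : ℝ) ≤ 4 * D := by exact_mod_cast hp2
        have h6 : (4 : ℝ) * D ≤ k * (8 * ℓ ^ 6) := by linarith
        have h7 : (k : ℝ) * (8 * ℓ ^ 6) ≤ k * k := mul_le_mul_of_nonneg_left hl3 hkR.le
        have h8' : (k : ℝ) * k ≤ k ^ 3 := by nlinarith
        linarith
      have h5 : (0 : ℝ) < p := by
        have : 0 < p := by omega
        exact_mod_cast this
      calc Real.log p ≤ Real.log ((k : ℝ) ^ 3) := Real.log_le_log h5 h4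
        _ = 3 * ℓ := by rw [Real.log_pow, hℓ]; push_cast; ring
    have h4 : ((Ioc D (4 * D)).filter (fun p => p.Prime ∧ ∃ j ∈ Icc 1 k, p ∣ m₂ + j)).card ≤
        ((Ioc D (4 * D)).filter (fun d => (∃ i ∈ Icc 1 K, d ∣ m₁ + i) ∧ (∃ j ∈ Icc 1 K, d ∣ m₂ + j))).card := by
      refine Finset.card_le_card fun p hp => ?_
      rw [Finset.mem_filter] at hp ⊢
      obtain ⟨hp1, hp2, hp3⟩ := hp
      refine ⟨hp1, common _ _ _ _ p hsol hp2 hp3, ?_⟩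
      obtain ⟨j, hj, hpj⟩ := hp3
      rw [Finset.mem_Icc] at hj
      exact ⟨j, Finset.mem_Icc.2 ⟨hj.1, by omega⟩, hpj⟩
    have h5 : ((((Ioc D (4 * D)).filter (fun p => p.Prime ∧ ∃ j ∈ Icc 1 k, p ∣ m₂ + j)).card : ℕ) : ℝ) ≤
        k / ℓ ^ 2 := le_trans (by exact_mod_cast h4) h2
    have h6 : (k : ℝ) / 700 ≤ k / ℓ ^ 2 * (3 * ℓ) :=
      h1.trans (h3.trans (mul_le_mul_of_nonneg_right h5 (by positivity)))
    have h7 : (k : ℝ) / ℓ ^ 2 * (3 * ℓ) = 3 * k / ℓ := by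
      field_simp
    rw [h7, div_le_div_iff₀ (by norm_num) hℓ0] at h6
    have h8 : (k : ℝ) * 10000 ≤ k * ℓ := mul_le_mul_of_nonneg_left hl1 hkR.le
    linarith

end Pool.Agent.Lib.MP_4ae430_nt
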