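import Pool.Agent.Lib.MP_4ae430_nt.F3
import Pool.Agent.Lib.MP_4ae430_nt.E2

/-! Row G1a (about 90 lines). -/

set_option autoImplicit false

namespace Pool.Agent.Lib.MP_4ae430_nt

open Finset
open Pool.Agent.Lib.MP_d9bc60_nt.UV (e vm nn PS dicho)

/-- the upper block cannot be long -/
theorem bounded_long (δ : ℝ) (hδ : 0 < δ) : ∃ K₁ : ℕ, ∀ m₁ k₁ m₂ k₂ : ℕ, Sol m₁ k₁ m₂ k₂ →
    (m₂ : ℝ) ^ δ ≤ k₂ → k₂ < K₁ := by
  obtain ⟨C, K₀, hM⟩ := master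
  obtain ⟨K₂, hE⟩ := es_large δ hδ C
  obtain ⟨K₃, hL⟩ : ∃ K₃ : ℕ, ∀ k : ℕ, K₃ ≤ k → 1 / δ ≤ Real.log k ∧ 1 ≤ Real.log k := by
    have h1 : ∀ᶠ x : ℝ in Filter.atTop, 1 / δ ≤ Real.log x ∧ 1 ≤ Real.log x :=
      (Real.tendsto_log_atTop.eventually_ge_atTop _).and (Real.tendsto_log_atTop.eventually_ge_atTop _)
    exact Filter.eventually_atTop.1 (tendsto_natCast_atTop_atTop.eventually h1)
  refine ⟨max K₀ (max K₂ K₃) + 1, ?_⟩
  intro m₁ k₁ m₂ k₂ hsol hk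
  by_contra hcon
  rw [not_lt] at hcon
  have h0 : K₀ ≤ k₂ := by omega
  have h2 : K₂ ≤ k₂ := by omega
  have h3 : K₃ ≤ k₂ := by omega
  obtain ⟨hl1, hl2⟩ := hL k₂ h3
  have hdis := hsol.2.2.2
  have hk1 := hsol.2.1
  have hm2 : 0 < m₂ := by omega
  have hm2R : (0 : ℝ) < m₂ := by exact_mod_cast hm2
  have hk2 : 0 < k₂ := by have := hsol.2.2.1; omega
  have hk2R : (0 : ℝ) < k₂ := by exact_mod_cast hk2
  have hlog : δ * Real.log m₂ ≤ Real.log k₂ := by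
    rw [← Real.log_rpow hm2R]
    exact Real.log_le_log (Real.rpow_pos_of_pos hm2R _) hk
  have hlog2 : Real.log m₂ ≤ Real.log k₂ ^ 2 := by
    have h4 : Real.log m₂ ≤ 1 / δ * Real.log k₂ := by
      rw [one_div, inv_mul_eq_div, le_div_iff₀ hδ]
      linarith
    have h5 : 1 / δ * Real.log k₂ ≤ Real.log k₂ * Real.log k₂ :=
      mul_le_mul_of_nonneg_right hl1 (by linarith)
    calc Real.log m₂ ≤ Real.log k₂ * Real.log k₂ := h4.trans h5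
      _ = Real.log k₂ ^ 2 := by ring
  refine hM m₁ k₁ m₂ k₂ hsol h0 hlog2 ((hE k₂ h2).mono le_rfl le_rfl ?_ le_rfl ?_)
  · have : 0 < Real.log k₂ := by linarith
    positivity
  · refine pow_le_pow_left₀ hm2R.le ?_ 3
    calc (m₂ : ℝ) = ((m₂ : ℝ) ^ δ) ^ (1 / δ) := by
          rw [← Real.rpow_mul hm2R.le, mul_one_div_cancel hδ.ne', Real.rpow_one]
      _ ≤ (k₂ : ℝ) ^ (1 / δ) :=
          Real.rpow_le_rpow (Real.rpow_nonneg hm2R.le _) hk (by positivity)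

/-- ROW G1a.  `master` and `es_large δ C` (monotone in `T₁`: `m₂ ≤ k₂^(1/δ)`): there is `K₁` such that
`k₂ < K₁` for all solutions with `m₂^δ ≤ k₂` (`log m₂ ≤ (1/δ) log k₂ ≤ (log k₂)²` for large `k₂`).  Then `m₂ ≤ K₁^(1/δ)`,
`m₁ + k₁ ≤ m₂`: finitely many. -/
theorem finite_long (δ : ℝ) (hδ : 0 < δ) :
    {x : ℕ × ℕ × ℕ × ℕ | Sol x.1 x.2.1 x.2.2.1 x.2.2.2 ∧ (x.2.2.1 : ℝ) ^ δ ≤ x.2.2.2}.Finite := by
  obtain ⟨K₁, hK₁⟩ := bounded_long δ hδ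
  obtain ⟨N, hN⟩ := exists_nat_ge ((K₁ : ℝ) ^ (1 / δ))
  refine Set.Finite.subset ((Finset.range (N + 1) ×ˢ (Finset.range (N + 1) ×ˢ
    (Finset.range (N + 1) ×ˢ Finset.range (K₁ + 1)))).finite_toSet) ?_
  rintro ⟨m₁, k₁, m₂, k₂⟩ ⟨hsol, hk⟩
  simp only at hsol hk
  have h1 := hK₁ _ _ _ _ hsol hk
  have h2 : m₂ ≤ N := by
    have h3 : (m₂ : ℝ) ≤ N := by
      refine le_trans ?_ hN
      have hm2R : (0 : ℝ) ≤ m₂ := Nat.cast_nonneg _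
      calc (m₂ : ℝ) = ((m₂ : ℝ) ^ δ) ^ (1 / δ) := by
            rw [← Real.rpow_mul hm2R, mul_one_div_cancel hδ.ne', Real.rpow_one]
        _ ≤ (K₁ : ℝ) ^ (1 / δ) := by
            refine Real.rpow_le_rpow (Real.rpow_nonneg hm2R _) ?_ (by positivity)
            exact hk.trans (by exact_mod_cast h1.le)
    exact_mod_cast h3
  have h4 := hsol.2.2.2
  simp only [Finset.coe_product, Set.mem_prod, Finset.mem_coe, Finset.mem_range]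
  omega

end Pool.Agent.Lib.MP_4ae430_nt
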