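import Pool.Agent.Lib.MP_4ae430_nt.G1a

/-! Row G1b (about 130 lines). -/

set_option autoImplicit false

namespace Pool.Agent.Lib.MP_4ae430_nt

open Finset
open Pool.Agent.Lib.MP_d9bc60_nt.UV (e vm nn PS dicho)

theorem g1b_size (m₁ k₁ m₂ k₂ : ℕ) (h : Sol m₁ k₁ m₂ k₂) :
    (k₂ : ℝ) * Real.log m₂ ≤ k₁ * Real.log ((m₁ : ℝ) + k₁) := by
  obtain ⟨heq, h1, h2, h3⟩ := h
  have ha : m₂ ^ k₂ ≤ B m₂ k₂ := by
    unfold B
    calc m₂ ^ k₂ = ∏ _i ∈ Icc 1 k₂, m₂ := by simp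
      _ ≤ ∏ i ∈ Icc 1 k₂, (m₂ + i) := Finset.prod_le_prod' fun i _ => Nat.le_add_right _ _
  have hb : B m₁ k₁ ≤ (m₁ + k₁) ^ k₁ := by
    unfold B
    calc ∏ i ∈ Icc 1 k₁, (m₁ + i) ≤ ∏ _i ∈ Icc 1 k₁, (m₁ + k₁) := by
          refine Finset.prod_le_prod' fun i hi => ?_
          rw [Finset.mem_Icc] at hi
          omega
      _ = (m₁ + k₁) ^ k₁ := by simp
  have hc : m₂ ^ k₂ ≤ (m₁ + k₁) ^ k₁ := ha.trans (heq ▸ hb)
  have hd : ((m₂ : ℝ)) ^ k₂ ≤ ((m₁ : ℝ) + k₁) ^ k₁ := by exact_mod_cast hc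
  have hm2 : (0 : ℝ) < m₂ := by
    have : 0 < m₂ := by omega
    exact_mod_cast this
  have := Real.log_le_log (pow_pos hm2 _) hd
  rwa [Real.log_pow, Real.log_pow] at this

/-- ROW G1b.  Let `M = log(m₁+k₁) ≤ (1/δ) log k₁`.  `m₂^k₂ ≤ B m₂ k₂ = B m₁ k₁ ≤ (m₁+k₁)^k₁`, so
`k₂ log m₂ ≤ k₁ M`; with `sol_sub` `(k₁-k₂) k₂ ≤ 8 k₁ M`.  If `k₂ ≤ k₁/2` then `k₂ ≤ 16 M ≤ (16/δ) log k₁`.
If `k₂ > k₁/2` then `log m₂ ≤ 2M`, `m₂ ≤ (m₁+k₁)² ≤ k₁^(2/δ) ≤ (2k₂)^(2/δ) ≤ k₂^(4/δ)`, so `m₂^(δ/4) ≤ k₂` and the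
solution belongs to the finite set `finite_long (δ/4)`; `log k₁ ≥ log 4 ≥ 1`. -/
theorem short_upper (δ : ℝ) (hδ : 0 < δ) : ∃ C : ℝ, ∀ m₁ k₁ m₂ k₂ : ℕ, Sol m₁ k₁ m₂ k₂ →
    ((m₁ : ℝ) + k₁) ^ δ ≤ k₁ → (k₂ : ℝ) ≤ C * Real.log k₁ := by
  obtain ⟨K₁, hK₁⟩ := bounded_long (δ / 4) (by positivity)
  refine ⟨16 / δ + K₁, ?_⟩
  intro m₁ k₁ m₂ k₂ hsol hk
  obtain ⟨hlt, hsub⟩ := sol_sub _ _ _ _ hsol
  have hsize := g1b_size _ _ _ _ hsol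
  obtain ⟨heq, h1, h2, h3⟩ := id hsol
  have hk1R : (4 : ℝ) ≤ k₁ := by exact_mod_cast h1
  have hk2R : (4 : ℝ) ≤ k₂ := by exact_mod_cast h2
  have hmk : (4 : ℝ) ≤ (m₁ : ℝ) + k₁ := by
    have : (0 : ℝ) ≤ m₁ := Nat.cast_nonneg _
    linarith
  have hm2R : (4 : ℝ) ≤ m₂ := by
    have : (m₁ : ℝ) + k₁ ≤ m₂ := by exact_mod_cast h3
    linarith
  have hlogk1 : 1 ≤ Real.log k₁ := by
    rw [Real.le_log_iff_exp_le (by linarith)]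
    have := Real.exp_one_lt_d9
    linarith
  obtain ⟨M, hM⟩ : ∃ M, M = Real.log ((m₁ : ℝ) + k₁) := ⟨_, rfl⟩
  rw [← hM] at hsize
  have hM1 : δ * M ≤ Real.log k₁ := by
    rw [hM, ← Real.log_rpow (by linarith)]
    exact Real.log_le_log (Real.rpow_pos_of_pos (by linarith) _) hk
  have hM2 : M ≤ 1 / δ * Real.log k₁ := by
    rw [one_div, inv_mul_eq_div, le_div_iff₀ hδ]
    linarith
  have hlogm2 : 0 < Real.log m₂ := Real.log_pos (by linarith)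
  by_cases hcase : (k₂ : ℝ) ≤ k₁ / 2
  · have h4 : (k₁ : ℝ) / 2 ≤ 8 * Real.log m₂ := by linarith
    have h5 : (k₂ : ℝ) * (k₁ / 2) ≤ 8 * (k₁ * M) := by
      calc (k₂ : ℝ) * (k₁ / 2) ≤ k₂ * (8 * Real.log m₂) := mul_le_mul_of_nonneg_left h4 (by linarith)
        _ = 8 * (k₂ * Real.log m₂) := by ring
        _ ≤ 8 * (k₁ * M) := by linarith
    have h6 : (k₂ : ℝ) ≤ 16 * M := by
      have h7 : (k₂ : ℝ) * k₁ ≤ (16 * M) * k₁ := by linarith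
      exact le_of_mul_le_mul_right h7 (by linarith)
    calc (k₂ : ℝ) ≤ 16 * (1 / δ * Real.log k₁) := by linarith
      _ = 16 / δ * Real.log k₁ := by ring
      _ ≤ (16 / δ + K₁) * Real.log k₁ := by
          refine mul_le_mul_of_nonneg_right ?_ (by linarith)
          have : (0 : ℝ) ≤ K₁ := Nat.cast_nonneg _
          linarith
  · rw [not_le] at hcase
    have h4 : Real.log m₂ ≤ 2 * M := by
      have hM0 : 0 ≤ M := by rw [hM]; exact Real.log_nonneg (by linarith)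
      have h5 : (k₁ : ℝ) * M ≤ (2 * k₂) * M := mul_le_mul_of_nonneg_right (by linarith) hM0
      have h6 : (k₂ : ℝ) * Real.log m₂ ≤ k₂ * (2 * M) := by linarith
      exact le_of_mul_le_mul_left h6 (by linarith)
    have h5 : Real.log ((m₂ : ℝ) ^ (δ / 4)) ≤ Real.log k₂ := by
      rw [Real.log_rpow (by linarith)]
      have h6 : Real.log k₁ ≤ 2 * Real.log k₂ := by
        have h7 : (k₁ : ℝ) ≤ (k₂ : ℝ) ^ 2 := by nlinarith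
        calc Real.log k₁ ≤ Real.log ((k₂ : ℝ) ^ 2) := Real.log_le_log (by linarith) h7
          _ = 2 * Real.log k₂ := by rw [Real.log_pow]; push_cast; ring
      have h8 : δ / 4 * Real.log m₂ ≤ δ / 4 * (2 * M) := mul_le_mul_of_nonneg_left h4 (by positivity)
      have h9 : δ / 4 * (2 * M) = (δ * M) / 2 := by ring
      linarith
    have h6 : (m₂ : ℝ) ^ (δ / 4) ≤ k₂ :=
      (Real.log_le_log_iff (Real.rpow_pos_of_pos (by linarith) _) (by linarith)).1 h5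
    have h7 : (k₂ : ℝ) ≤ K₁ := by exact_mod_cast (hK₁ _ _ _ _ hsol h6).le
    have h8 : (0 : ℝ) ≤ K₁ := Nat.cast_nonneg _
    have h9 : (0 : ℝ) < 16 / δ := by positivity
    have h10 : (K₁ : ℝ) * 1 ≤ K₁ * Real.log k₁ := mul_le_mul_of_nonneg_left hlogk1 h8
    have h11 : 0 ≤ 16 / δ * Real.log k₁ := by positivity
    calc (k₂ : ℝ) ≤ K₁ * Real.log k₁ := by linarith
      _ ≤ (16 / δ + K₁) * Real.log k₁ := by linarith

end Pool.Agent.Lib.MP_4ae430_nt
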