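import Pool.Agent.Lib.MP_4ae430_nt.Defs

/-! Row M1a (about 60 lines). -/

set_option autoImplicit false

namespace Pool.Agent.Lib.MP_4ae430_nt

open Finset
open Pool.Agent.Lib.MP_d9bc60_nt.UV (e vm nn PS dicho)

theorem m1a_card (J : ℕ) (h : ℤ) (hh : h ∈ Ioo (-(J : ℤ)) J) :
    ((((range J ×ˢ range J).filter (fun p : ℕ × ℕ => (p.1 : ℤ) - p.2 = h)).card : ℕ) : ℝ) =
      (J : ℝ) - |(h : ℝ)| := by
  rw [Finset.mem_Ioo] at hh
  rcases le_total 0 h with h0 | h0
  · obtain ⟨n, rfl⟩ := Int.eq_ofNat_of_zero_le h0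
    have hn : n < J := by omega
    have h1 : (range J ×ˢ range J).filter (fun p : ℕ × ℕ => (p.1 : ℤ) - p.2 = (n : ℤ)) =
        (range (J - n)).image (fun b => (b + n, b)) := by
      ext ⟨a, b⟩
      simp only [Finset.mem_filter, Finset.mem_product, Finset.mem_range, Finset.mem_image, Prod.mk.injEq]
      constructor
      · rintro ⟨⟨h1, h2⟩, h3⟩
        exact ⟨b, by omega, by omega, rfl⟩
      · rintro ⟨c, h1, h2, h3⟩
        omega
    rw [h1, Finset.card_image_of_injective _ (fun a b hab => (Prod.mk.inj hab).2), Finset.card_range,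
      Nat.cast_sub hn.le]
    simp
  · obtain ⟨n, hn'⟩ := Int.eq_ofNat_of_zero_le (neg_nonneg.2 h0)
    obtain rfl : h = -(n : ℤ) := by omega
    have hn : n < J := by omega
    have h1 : (range J ×ˢ range J).filter (fun p : ℕ × ℕ => (p.1 : ℤ) - p.2 = -(n : ℤ)) =
        (range (J - n)).image (fun b => (b, b + n)) := by
      ext ⟨a, b⟩
      simp only [Finset.mem_filter, Finset.mem_product, Finset.mem_range, Finset.mem_image, Prod.mk.injEq]
      constructor
      · rintro ⟨⟨h1, h2⟩, h3⟩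
        exact ⟨a, by omega, rfl, by omega⟩
      · rintro ⟨c, h1, h2, h3⟩
        omega
    rw [h1, Finset.card_image_of_injective _ (fun a b hab => (Prod.mk.inj hab).1), Finset.card_range,
      Nat.cast_sub hn.le]
    simp

/-- the Fejer type kernel `∑_{|h| < J} (J - |h|) e(h y) = |∑_{a < J} e(a y)|²` -/
theorem fejer (J : ℕ) (y : ℝ) :
    ((‖∑ a ∈ range J, e (a * y)‖ ^ 2 : ℝ) : ℂ) =
      ∑ h ∈ Ioo (-(J : ℤ)) J, ((J : ℝ) - |(h : ℝ)| : ℝ) * e (h * y) := by
  have h1 : ((‖∑ a ∈ range J, e (a * y)‖ ^ 2 : ℝ) : ℂ) =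
      ∑ p ∈ range J ×ˢ range J, e ((((p.1 : ℤ) - p.2 : ℤ) : ℝ) * y) := by
    rw [Complex.ofReal_pow, ← Complex.mul_conj', map_sum, Finset.sum_mul_sum, Finset.sum_product]
    refine Finset.sum_congr rfl fun a _ => Finset.sum_congr rfl fun b _ => ?_
    rw [← Pool.Agent.Lib.MP_d9bc60_nt.UV.e_sub]
    congr 1
    push_cast
    ring
  have h2 : ∀ p ∈ range J ×ˢ range J, (p.1 : ℤ) - p.2 ∈ Ioo (-(J : ℤ)) J := by
    intro p hp
    rw [Finset.mem_product, Finset.mem_range, Finset.mem_range] at hp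
    rw [Finset.mem_Ioo]
    omega
  rw [h1, ← Finset.sum_fiberwise_of_maps_to h2]
  refine Finset.sum_congr rfl fun h hh => ?_
  rw [← m1a_card J h hh, Complex.ofReal_natCast, ← nsmul_eq_mul]
  refine Finset.sum_eq_card_nsmul fun p hp => ?_
  rw [Finset.mem_filter] at hp
  rw [hp.2]

end Pool.Agent.Lib.MP_4ae430_nt
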