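import Pool.Agent.Lib.MP_4ae430_nt.Defs

/-! Row M2a: a lower bound for the Dirichlet kernel. -/

set_option autoImplicit false

namespace Pool.Agent.Lib.MP_4ae430_nt

open Finset
open Pool.Agent.Lib.MP_d9bc60_nt.UV (e vm nn PS dicho)

/-- ROW M2a.  If `|x - n| ≤ 1/(2J)` then `‖∑_{a<J} e(a x)‖ ≥ 2J/π`. -/
theorem dirichlet_ge (J : ℕ) (hJ : 1 ≤ J) (x : ℝ) (n : ℤ) (hx : |x - n| ≤ 1 / (2 * J)) :
    2 * J / Real.pi ≤ ‖∑ a ∈ range J, e (a * x)‖ := by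
  have hJ0 : (0 : ℝ) < J := by exact_mod_cast hJ
  have hpi := Real.pi_pos
  obtain ⟨y, hy⟩ : ∃ y : ℝ, y = x - n := ⟨_, rfl⟩
  rw [← hy] at hx
  have h1 : ∀ a : ℕ, e (a * x) = e y ^ a := by
    intro a
    have h2 : (a : ℝ) * x = y * a + ((a * n : ℤ) : ℝ) := by
      rw [hy]; push_cast; ring
    rw [h2, Pool.Agent.Lib.MP_d9bc60_nt.UV.e_add_int, Pool.Agent.Lib.MP_d9bc60_nt.UV.e_mul_nat]
  rw [Finset.sum_congr rfl fun a _ => h1 a]
  have h3 : (∑ a ∈ range J, e y ^ a) * (e y - 1) = e (y * J) - 1 := by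
    rw [geom_sum_mul, Pool.Agent.Lib.MP_d9bc60_nt.UV.e_mul_nat]
  have h4 : 4 * (|y| * J) ≤ ‖e (y * J) - 1‖ := by
    have h5 := Pool.Agent.Lib.MP_d9bc60_nt.UV.four_nn_le (y * J)
    have h6 : nn (y * J) = |y| * J := by
      have h7 : |y * J| = |y| * J := by rw [abs_mul, abs_of_pos hJ0]
      rw [Pool.Agent.Lib.MP_d9bc60_nt.UV.nn_of_abs_le_half, h7]
      rw [h7]
      calc |y| * J ≤ 1 / (2 * J) * J := mul_le_mul_of_nonneg_right hx hJ0.le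
        _ = 1 / 2 := by field_simp
    rw [h6] at h5
    exact h5
  rcases eq_or_ne y 0 with h0 | h0
  · rw [h0, Pool.Agent.Lib.MP_d9bc60_nt.UV.e_zero]
    simp only [one_pow, sum_const, card_range, nsmul_eq_mul, mul_one]
    rw [Complex.norm_natCast, div_le_iff₀ hpi]
    nlinarith [Real.pi_gt_three]
  · have h7 := Pool.Agent.Lib.MP_d9bc60_nt.UV.norm_e_sub_one_le y
    have h8 : 0 < |y| := abs_pos.mpr h0
    have h9 : ‖∑ a ∈ range J, e y ^ a‖ * ‖e y - 1‖ = ‖e (y * J) - 1‖ := by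
      rw [← norm_mul, h3]
    rw [← h9] at h4
    have h10 : ‖∑ a ∈ range J, e y ^ a‖ * ‖e y - 1‖ ≤
        ‖∑ a ∈ range J, e y ^ a‖ * (2 * Real.pi * |y|) :=
      mul_le_mul_of_nonneg_left h7 (norm_nonneg _)
    rw [div_le_iff₀ hpi]
    have h11 : |y| * (2 * J) ≤ |y| * (‖∑ a ∈ range J, e y ^ a‖ * Real.pi) := by
      linarith
    exact le_of_mul_le_mul_left h11 h8

end Pool.Agent.Lib.MP_4ae430_nt
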