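import Pool.Agent.Lib.MP_4ae430_nt.M2a

/-! Row M2b: the number of the `d` with multiples in both blocks. -/

set_option autoImplicit false

namespace Pool.Agent.Lib.MP_4ae430_nt

open Finset
open Pool.Agent.Lib.MP_d9bc60_nt.UV (e vm nn PS dicho)

private lemma m2b_sq (J : ℕ) (x : ℝ) :
    (((‖∑ a ∈ range J, e (a * x)‖ ^ 2 : ℝ)) : ℂ) =
      ∑ p ∈ range J ×ˢ range J, e ((((p.1 : ℤ) - (p.2 : ℤ) : ℤ) : ℝ) * x) := by
  have h1 : (((‖∑ a ∈ range J, e (a * x)‖ ^ 2 : ℝ)) : ℂ) =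
      (∑ a ∈ range J, e (a * x)) * (starRingEnd ℂ) (∑ a ∈ range J, e (a * x)) := by
    rw [Complex.mul_conj']
    push_cast
    rfl
  rw [h1, map_sum, Finset.sum_mul_sum, Finset.sum_product]
  refine Finset.sum_congr rfl fun a _ => Finset.sum_congr rfl fun b _ => ?_
  rw [← Pool.Agent.Lib.MP_d9bc60_nt.UV.e_sub]
  congr 1
  push_cast
  ring

private lemma m2b_dvd (m K D J d i : ℕ) (hJ : 1 ≤ J) (hJK : 2 * J * K ≤ D) (hd : D < d)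
    (hi : i ≤ K) (h : d ∣ m + i) :
    2 * J / Real.pi ≤ ‖∑ a ∈ range J, e (a * ((m : ℝ) / d))‖ := by
  obtain ⟨n, hn⟩ := h
  have hd0 : (0 : ℝ) < d := by exact_mod_cast lt_of_le_of_lt (Nat.zero_le D) hd
  have hJ0 : (0 : ℝ) < J := by exact_mod_cast hJ
  refine dirichlet_ge J hJ _ (n : ℤ) ?_
  have h1 : (m : ℝ) + i = d * n := by exact_mod_cast hn
  have h2 : (m : ℝ) / d - ((n : ℤ) : ℝ) = -(i / d) := by
    rw [Int.cast_natCast, eq_comm, eq_sub_iff_add_eq]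
    rw [eq_div_iff hd0.ne', add_mul, neg_mul, div_mul_cancel₀ _ hd0.ne']
    linarith
  rw [h2, abs_neg, abs_of_nonneg (by positivity), div_le_div_iff₀ hd0 (by positivity)]
  have h3 : (i : ℝ) ≤ K := by exact_mod_cast hi
  have h4 : (2 * J * K : ℝ) ≤ D := by exact_mod_cast hJK
  have h5 : (D : ℝ) ≤ d := by exact_mod_cast hd.le
  nlinarith

/-- ROW M2b. -/
theorem both_count (m₁ m₂ K D J : ℕ) (hJ : 1 ≤ J) (hJK : 2 * J * K ≤ D) (E : ℝ) (hE0 : 0 ≤ E)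
    (hE : ∀ h₁ h₂ : ℤ, |h₁| < J → |h₂| < J → (h₁ ≠ 0 ∨ h₂ ≠ 0) →
      ‖∑ d ∈ Ioc D (4 * D), e (((h₁ : ℝ) * m₁ + h₂ * m₂) / d)‖ ≤ E) :
    (((Ioc D (4 * D)).filter (fun d => (∃ i ∈ Icc 1 K, d ∣ m₁ + i) ∧ (∃ j ∈ Icc 1 K, d ∣ m₂ + j))).card : ℝ) ≤
      7 * (3 * D / (J : ℝ) ^ 2 + E) := by
  have hJ0 : (0 : ℝ) < J := by exact_mod_cast hJ
  have hpi := Real.pi_pos
  set S₁ : ℕ → ℂ := fun d => ∑ a ∈ range J, e (a * ((m₁ : ℝ) / d)) with hS₁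
  set S₂ : ℕ → ℂ := fun d => ∑ a ∈ range J, e (a * ((m₂ : ℝ) / d)) with hS₂
  set Q : Finset ((ℕ × ℕ) × (ℕ × ℕ)) := (range J ×ˢ range J) ×ˢ (range J ×ˢ range J) with hQ
  -- lower bound on the filtered set
  have hlow : ∀ d ∈ (Ioc D (4 * D)).filter
      (fun d => (∃ i ∈ Icc 1 K, d ∣ m₁ + i) ∧ (∃ j ∈ Icc 1 K, d ∣ m₂ + j)),
      (2 * J / Real.pi) ^ 4 ≤ ‖S₁ d‖ ^ 2 * ‖S₂ d‖ ^ 2 := by
    intro d hd
    rw [mem_filter, mem_Ioc] at hd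
    obtain ⟨⟨hd1, -⟩, ⟨i, hi, hid⟩, ⟨j, hj, hjd⟩⟩ := hd
    rw [mem_Icc] at hi hj
    have h1 := m2b_dvd m₁ K D J d i hJ hJK hd1 hi.2 hid
    have h2 := m2b_dvd m₂ K D J d j hJ hJK hd1 hj.2 hjd
    have h0 : 0 ≤ 2 * (J : ℝ) / Real.pi := by positivity
    calc (2 * J / Real.pi : ℝ) ^ 4 = (2 * J / Real.pi) ^ 2 * (2 * J / Real.pi) ^ 2 := by ring
      _ ≤ ‖S₁ d‖ ^ 2 * ‖S₂ d‖ ^ 2 :=
        mul_le_mul (pow_le_pow_left₀ h0 h1 2) (pow_le_pow_left₀ h0 h2 2) (by positivity)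
          (by positivity)
  have hsum : (((Ioc D (4 * D)).filter
      (fun d => (∃ i ∈ Icc 1 K, d ∣ m₁ + i) ∧ (∃ j ∈ Icc 1 K, d ∣ m₂ + j))).card : ℝ) *
        (2 * J / Real.pi) ^ 4 ≤ ∑ d ∈ Ioc D (4 * D), ‖S₁ d‖ ^ 2 * ‖S₂ d‖ ^ 2 := by
    rw [← nsmul_eq_mul]
    refine (Finset.card_nsmul_le_sum _ _ _ hlow).trans ?_
    exact Finset.sum_le_sum_of_subset_of_nonneg (Finset.filter_subset _ _)
      (fun d _ _ => by positivity)
  -- the expansion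
  have hexp : ∀ d : ℕ, (((‖S₁ d‖ ^ 2 * ‖S₂ d‖ ^ 2 : ℝ)) : ℂ) =
      ∑ q ∈ Q, e (((((q.1.1 : ℤ) - (q.1.2 : ℤ) : ℤ) : ℝ) * m₁ +
        (((q.2.1 : ℤ) - (q.2.2 : ℤ) : ℤ) : ℝ) * m₂) / d) := by
    intro d
    rw [Complex.ofReal_mul, hS₁, hS₂, m2b_sq J ((m₁ : ℝ) / d), m2b_sq J ((m₂ : ℝ) / d),
      Finset.sum_mul_sum, hQ]
    symm
    rw [Finset.sum_product]
    refine Finset.sum_congr rfl fun p _ => ?_
    refine Finset.sum_congr rfl fun q _ => ?_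
    rw [← Pool.Agent.Lib.MP_d9bc60_nt.UV.e_add]
    congr 1
    ring
  have hbd : ∑ d ∈ Ioc D (4 * D), ‖S₁ d‖ ^ 2 * ‖S₂ d‖ ^ 2 ≤
      3 * D * (J : ℝ) ^ 2 + E * (J : ℝ) ^ 4 := by
    have h1 : ∑ d ∈ Ioc D (4 * D), ‖S₁ d‖ ^ 2 * ‖S₂ d‖ ^ 2 =
        ‖((∑ d ∈ Ioc D (4 * D), ‖S₁ d‖ ^ 2 * ‖S₂ d‖ ^ 2 : ℝ) : ℂ)‖ := by
      rw [Complex.norm_real, Real.norm_of_nonneg]
      exact Finset.sum_nonneg fun d _ => by positivity
    have h1' : ((∑ d ∈ Ioc D (4 * D), ‖S₁ d‖ ^ 2 * ‖S₂ d‖ ^ 2 : ℝ) : ℂ) =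
        ∑ d ∈ Ioc D (4 * D), ∑ q ∈ Q, e (((((q.1.1 : ℤ) - (q.1.2 : ℤ) : ℤ) : ℝ) * m₁ +
          (((q.2.1 : ℤ) - (q.2.2 : ℤ) : ℤ) : ℝ) * m₂) / d) := by
      rw [Complex.ofReal_sum]
      exact Finset.sum_congr rfl fun d _ => hexp d
    rw [h1, h1', Finset.sum_comm]
    refine (norm_sum_le _ _).trans ?_
    have h2 : ∀ q ∈ Q, ‖∑ d ∈ Ioc D (4 * D), e (((((q.1.1 : ℤ) - (q.1.2 : ℤ) : ℤ) : ℝ) * m₁ +
        (((q.2.1 : ℤ) - (q.2.2 : ℤ) : ℤ) : ℝ) * m₂) / d)‖ ≤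
        (if q.1.1 = q.1.2 ∧ q.2.1 = q.2.2 then 3 * (D : ℝ) else 0) + E := by
      intro q hq
      rw [hQ, mem_product, mem_product, mem_product, mem_range, mem_range, mem_range,
        mem_range] at hq
      obtain ⟨⟨ha, ha'⟩, ⟨hb, hb'⟩⟩ := hq
      by_cases hc : q.1.1 = q.1.2 ∧ q.2.1 = q.2.2
      · rw [if_pos hc]
        have h3 : ∀ d ∈ Ioc D (4 * D), ‖e (((((q.1.1 : ℤ) - (q.1.2 : ℤ) : ℤ) : ℝ) * m₁ +
            (((q.2.1 : ℤ) - (q.2.2 : ℤ) : ℤ) : ℝ) * m₂) / d)‖ ≤ 1 := fun d _ =>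
          (Pool.Agent.Lib.MP_d9bc60_nt.UV.norm_e _).le
        have h4 := (norm_sum_le _ _).trans (Finset.sum_le_card_nsmul _ _ _ h3)
        rw [Nat.card_Ioc, nsmul_eq_mul, mul_one] at h4
        have h5 : ((4 * D - D : ℕ) : ℝ) = 3 * D := by
          have : 4 * D - D = 3 * D := by omega
          rw [this]
          push_cast
          ring
        rw [h5] at h4
        linarith
      · rw [if_neg hc, zero_add]
        refine hE _ _ ?_ ?_ ?_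
        · rw [abs_lt]; omega
        · rw [abs_lt]; omega
        · by_contra hcon
          push Not at hcon
          exact hc ⟨by omega, by omega⟩
    refine (Finset.sum_le_sum h2).trans ?_
    rw [Finset.sum_add_distrib, Finset.sum_const, nsmul_eq_mul]
    have h6 : (Q.card : ℝ) = (J : ℝ) ^ 4 := by
      rw [hQ, card_product, card_product, card_range]
      push_cast
      ring
    have h7 : ∑ q ∈ Q, (if q.1.1 = q.1.2 ∧ q.2.1 = q.2.2 then 3 * (D : ℝ) else 0) =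
        3 * D * (J : ℝ) ^ 2 := by
      have h8 : ∀ a ∈ range J, ∑ b ∈ range J, (if a = b then (1 : ℝ) else 0) = 1 := by
        intro a ha
        rw [Finset.sum_ite_eq, if_pos ha]
      have h9 : ∑ p ∈ range J ×ˢ range J, (if p.1 = p.2 then (1 : ℝ) else 0) = J := by
        rw [Finset.sum_product, Finset.sum_congr rfl h8, Finset.sum_const, card_range,
          nsmul_eq_mul, mul_one]
      have h10 : ∀ q ∈ Q, (if q.1.1 = q.1.2 ∧ q.2.1 = q.2.2 then 3 * (D : ℝ) else 0) =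
          3 * D * ((if q.1.1 = q.1.2 then (1 : ℝ) else 0) *
            (if q.2.1 = q.2.2 then (1 : ℝ) else 0)) := by
        intro q _
        by_cases h11 : q.1.1 = q.1.2 <;> by_cases h12 : q.2.1 = q.2.2 <;> simp [h11, h12]
      rw [Finset.sum_congr rfl h10, ← Finset.mul_sum, hQ, Finset.sum_product]
      have h13 : ∀ p ∈ range J ×ˢ range J, ∑ q ∈ range J ×ˢ range J,
          ((if p.1 = p.2 then (1 : ℝ) else 0) * (if q.1 = q.2 then (1 : ℝ) else 0)) =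
          (if p.1 = p.2 then (1 : ℝ) else 0) * J := by
        intro p _
        rw [← Finset.mul_sum, h9]
      rw [Finset.sum_congr rfl h13, ← Finset.sum_mul, h9]
      ring
    rw [h6, h7]
    linarith
  have hfin := hsum.trans hbd
  have hJp : (0 : ℝ) < (2 * J / Real.pi) ^ 4 := by positivity
  rw [← le_div_iff₀ hJp] at hfin
  refine hfin.trans ?_
  rw [div_le_iff₀ hJp]
  have h14 : (2 * J / Real.pi : ℝ) ^ 4 = 16 * (J : ℝ) ^ 4 / Real.pi ^ 4 := by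
    rw [div_pow]
    ring
  have h15 : 7 * (3 * D / (J : ℝ) ^ 2 + E) * (16 * (J : ℝ) ^ 4 / Real.pi ^ 4) =
      112 / Real.pi ^ 4 * (3 * D * (J : ℝ) ^ 2 + E * (J : ℝ) ^ 4) := by
    field_simp
    ring
  rw [h14, h15]
  have h16 : 0 ≤ 3 * D * (J : ℝ) ^ 2 + E * (J : ℝ) ^ 4 := by positivity
  have h17 : 1 ≤ 112 / Real.pi ^ 4 := by
    rw [le_div_iff₀ (by positivity), one_mul]
    have h18 : Real.pi < 3.1416 := Real.pi_lt_d4
    have h19 : Real.pi ^ 4 ≤ 3.1416 ^ 4 := pow_le_pow_left₀ hpi.le h18.le 4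
    refine h19.trans ?_
    norm_num
  exact le_mul_of_one_le_left h16 h17

end Pool.Agent.Lib.MP_4ae430_nt
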