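import Pool.Agent.Lib.MP_4ae430_nt.Defs

/-! Row S1 (about 120 lines). -/

set_option autoImplicit false

namespace Pool.Agent.Lib.MP_4ae430_nt

open Finset

theorem B_succ (m k : ℕ) : B m (k + 1) = B m k * (m + (k + 1)) := by
  unfold B
  rw [Finset.prod_Icc_succ_top (by omega)]

theorem B_pos (m k : ℕ) : 0 < B m k := by
  unfold B
  refine Finset.prod_pos fun i hi => ?_
  rw [Finset.mem_Icc] at hi
  omega

/-- `B m k = C(m+k,k) k!` (induction on `k`, or `Nat.ascFactorial`). -/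
theorem B_eq_choose (m k : ℕ) : B m k = (m + k).choose k * k.factorial := by
  have h1 : B m k = (m + 1).ascFactorial k := by
    induction k with
    | zero => simp [B]
    | succ k ih =>
      rw [B_succ, ih, Nat.ascFactorial_succ]
      ring
  rw [h1, Nat.ascFactorial_eq_factorial_mul_choose, mul_comm]

theorem s1_fac_le (k : ℕ) (hk : 0 < k) : (k.factorial).factorization 2 + 1 ≤ k := by
  haveI : Fact (Nat.Prime 2) := ⟨Nat.prime_two⟩
  have h1 := sub_one_mul_padicValNat_factorial_lt_of_ne_zero (p := 2) hk.ne'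
  rw [Nat.factorization_def _ Nat.prime_two]
  omega

theorem s1_fac_ge (k : ℕ) (hk : 0 < k) : k ≤ (k.factorial).factorization 2 + (Nat.log 2 k + 1) := by
  haveI : Fact (Nat.Prime 2) := ⟨Nat.prime_two⟩
  have h1 := sub_one_mul_padicValNat_factorial (p := 2) k
  have h2 : (Nat.digits 2 k).sum ≤ Nat.log 2 k + 1 := by
    have h3 : (Nat.digits 2 k).length = Nat.log 2 k + 1 := Nat.digits_len 2 k (by norm_num) hk.ne'
    rw [← h3]
    have h4 : ∀ x ∈ Nat.digits 2 k, x ≤ 1 := fun x hx => by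
      have := Nat.digits_lt_base (by norm_num : 1 < 2) hx
      omega
    calc (Nat.digits 2 k).sum ≤ (Nat.digits 2 k).length • 1 := List.sum_le_card_nsmul _ _ h4
      _ = (Nat.digits 2 k).length := by simp
  rw [Nat.factorization_def _ Nat.prime_two]
  omega

theorem s1_nat (m₁ k₁ m₂ k₂ : ℕ) (h : Sol m₁ k₁ m₂ k₂) :
    k₂ < k₁ ∧ k₁ ≤ k₂ + (Nat.log 2 k₁ + Nat.log 2 (m₂ + k₂)) := by
  obtain ⟨heq, h1, h2, h3⟩ := h
  constructor
  · by_contra hcon
    rw [not_lt] at hcon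
    have h4 : B m₂ k₁ ≤ B m₂ k₂ := by
      unfold B
      refine Finset.prod_le_prod_of_subset_of_one_le' (Finset.Icc_subset_Icc le_rfl hcon) ?_
      intro i hi _
      rw [Finset.mem_Icc] at hi
      omega
    have h5 : B m₁ k₁ < B m₂ k₁ := by
      unfold B
      refine Finset.prod_lt_prod_of_nonempty ?_ ?_ ?_
      · intro i hi
        rw [Finset.mem_Icc] at hi
        omega
      · intro i hi
        rw [Finset.mem_Icc] at hi
        omega
      · exact ⟨1, Finset.mem_Icc.2 ⟨le_rfl, by omega⟩⟩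
    omega
  · have h4 := B_eq_choose m₁ k₁
    have h5 := B_eq_choose m₂ k₂
    have h6 : (m₁ + k₁).choose k₁ ≠ 0 := (Nat.choose_pos (by omega)).ne'
    have h7 : (m₂ + k₂).choose k₂ ≠ 0 := (Nat.choose_pos (by omega)).ne'
    have h8 : (k₁.factorial).factorization 2 ≤ (B m₁ k₁).factorization 2 := by
      rw [h4, Nat.factorization_mul h6 (Nat.factorial_ne_zero _)]
      simp
    have h9 : (B m₂ k₂).factorization 2 = ((m₂ + k₂).choose k₂).factorization 2 + (k₂.factorial).factorization 2 := by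
      rw [h5, Nat.factorization_mul h7 (Nat.factorial_ne_zero _)]
      simp
    have h10 : ((m₂ + k₂).choose k₂).factorization 2 ≤ Nat.log 2 (m₂ + k₂) := Nat.factorization_choose_le_log
    have h11 := s1_fac_le k₂ (by omega)
    have h12 := s1_fac_ge k₁ (by omega)
    rw [heq, h9] at h8
    omega

/-- ROW S1.  (i) If `k₁ ≤ k₂` then `B m₂ k₂ ≥ B m₂ k₁ > B m₁ k₁` as `m₁ < m₂`.
(ii) 2-adic valuations of `B m₁ k₁ = C(m₁+k₁,k₁) k₁!` and `B m₂ k₂ = C(m₂+k₂,k₂) k₂!`: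
`v₂(k₁!) ≤ v₂(C(m₂+k₂,k₂)) + v₂(k₂!)`, `v₂(k!) = k - (digit sum)` (`Nat.sub_one_mul_padicValNat_factorial`), the digit sum
of `k ≥ 1` is between `1` and `log₂ k + 1`, `Nat.factorization_choose_le_log`: `v₂(C(n,k)) ≤ log₂ n`.  So
`k₁ - k₂ ≤ log₂ k₁ + log₂(m₂+k₂) ≤ 2 log₂(2 m₂)` (`k₂ < k₁ ≤ m₂`) and `m₂ ≥ 4` gives `≤ 3 log₂ m₂ ≤ 8 log m₂`. -/
theorem sol_sub (m₁ k₁ m₂ k₂ : ℕ) (h : Sol m₁ k₁ m₂ k₂) :
    k₂ < k₁ ∧ (k₁ : ℝ) - k₂ ≤ 8 * Real.log m₂ := by
  obtain ⟨h1, h2⟩ := s1_nat _ _ _ _ h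
  obtain ⟨heq, h3, h4, h5⟩ := h
  refine ⟨h1, ?_⟩
  have h6 : Nat.log 2 k₁ ≤ Nat.log 2 m₂ := Nat.log_mono_right (by omega)
  have h7 : Nat.log 2 (m₂ + k₂) ≤ Nat.log 2 m₂ + 1 := by
    have h8 : Nat.log 2 (m₂ * 2) = Nat.log 2 m₂ + 1 := Nat.log_mul_base (by norm_num) (by omega)
    rw [← h8]
    exact Nat.log_mono_right (by omega)
  have h8 : k₁ ≤ k₂ + (2 * Nat.log 2 m₂ + 1) := by omega
  have h9 : (k₁ : ℝ) ≤ k₂ + (2 * Nat.log 2 m₂ + 1) := by exact_mod_cast h8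
  have h10 : (1 : ℝ) ≤ Nat.log 2 m₂ := by
    have : 1 ≤ Nat.log 2 m₂ := Nat.log_pos (by norm_num) (by omega)
    exact_mod_cast this
  have h11 : (Nat.log 2 m₂ : ℝ) * Real.log 2 ≤ Real.log m₂ := by
    rw [← Real.log_pow]
    refine Real.log_le_log (by positivity) ?_
    exact_mod_cast Nat.pow_log_le_self 2 (by omega : m₂ ≠ 0)
  have h12 := Real.log_two_gt_d9
  have h13 : (Nat.log 2 m₂ : ℝ) * (3 / 8) ≤ (Nat.log 2 m₂ : ℝ) * Real.log 2 :=
    mul_le_mul_of_nonneg_left (by linarith) (by linarith)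
  linarith

end Pool.Agent.Lib.MP_4ae430_nt
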