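import Pool.Agent.Lib.MP_4ae430_nt.Defs

/-! Row V1 (about 120 lines). -/

set_option autoImplicit false

namespace Pool.Agent.Lib.MP_4ae430_nt

open Finset
open Pool.Agent.Lib.MP_d9bc60_nt.UV (e vm)

theorem v1_sum (D : ℕ) (T : ℝ) (d t : ℕ) (hd : 1 ≤ d) :
    ∑ k ∈ Icc 1 t, ph D T (d * k) = ∑ k ∈ Ioc (D / d) t, e (T / d / k) := by
  have h1 : ∀ k : ℕ, ph D T (d * k) = if D / d < k then e (T / d / k) else 0 := by
    intro k
    unfold ph
    have h2 : D < d * k ↔ D / d < k := by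
      rw [Nat.div_lt_iff_lt_mul hd, mul_comm]
    have h3 : T / ((d * k : ℕ) : ℝ) = T / d / k := by
      push_cast
      rw [div_div]
    simp only [h2, h3]
  rw [Finset.sum_congr rfl (fun k _ => h1 k), ← Finset.sum_filter]
  refine Finset.sum_congr ?_ (fun _ _ => rfl)
  ext k
  simp only [Finset.mem_filter, Finset.mem_Icc, Finset.mem_Ioc]
  constructor
  · rintro ⟨⟨_, h2⟩, h3⟩
    exact ⟨h3, h2⟩
  · rintro ⟨h2, h3⟩
    exact ⟨⟨Nat.lt_of_le_of_lt (Nat.zero_le _) h2, h3⟩, h2⟩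

theorem v1_pow {D : ℕ} (hD : 1024 ≤ D) : (D : ℝ) ^ (1 / 5 : ℝ) ≤ Real.sqrt D / 8 := by
  have hD0 : (0 : ℝ) < D := by
    have : 0 < D := by omega
    exact_mod_cast this
  have h1 : Real.sqrt D = (D : ℝ) ^ (1 / 5 : ℝ) * (D : ℝ) ^ (3 / 10 : ℝ) := by
    rw [← Real.rpow_add hD0, Real.sqrt_eq_rpow]
    norm_num
  have h2 : (8 : ℝ) ≤ (D : ℝ) ^ (3 / 10 : ℝ) := by
    have h3 : (1024 : ℝ) ≤ D := by exact_mod_cast hD
    have h4 : (1024 : ℝ) ^ (3 / 10 : ℝ) = 8 := by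
      rw [show (1024 : ℝ) = 2 ^ (10 : ℝ) by norm_num, ← Real.rpow_mul (by norm_num)]
      norm_num
    rw [← h4]
    exact Real.rpow_le_rpow (by norm_num) h3 (by norm_num)
  have h5 : 0 ≤ (D : ℝ) ^ (1 / 5 : ℝ) := Real.rpow_nonneg hD0.le _
  rw [h1, le_div_iff₀ (by norm_num)]
  exact mul_le_mul_of_nonneg_left h2 h5

theorem v1_A {D d : ℕ} (hD : 1024 ≤ D) (hd : 1 ≤ d) (hd2 : (d : ℝ) ≤ 4 * Real.sqrt D) :
    Real.sqrt D / 8 ≤ ((D / d : ℕ) : ℝ) ∧ ((D / d : ℕ) : ℝ) ≤ (D : ℝ) / d ∧ 1 ≤ D / d := by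
  have hD0 : (0 : ℝ) < D := by
    have : 0 < D := by omega
    exact_mod_cast this
  have hd0 : (0 : ℝ) < d := by exact_mod_cast hd
  have hs : (32 : ℝ) ≤ Real.sqrt D := by
    have h1 : Real.sqrt (32 ^ 2) = 32 := Real.sqrt_sq (by norm_num)
    rw [← h1]
    apply Real.sqrt_le_sqrt
    have : (1024 : ℝ) ≤ D := by exact_mod_cast hD
    linarith
  have hsq : Real.sqrt D * Real.sqrt D = D := Real.mul_self_sqrt hD0.le
  have h1 : ((D / d : ℕ) : ℝ) ≤ (D : ℝ) / d := Nat.cast_div_le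
  have h2 : (D : ℝ) / d < ((D / d : ℕ) : ℝ) + 1 := by
    rw [div_lt_iff₀ hd0]
    have h3 : D < (D / d + 1) * d := by
      have := Nat.lt_div_mul_add hd (a := D)
      rw [Nat.add_mul, one_mul]
      exact this
    exact_mod_cast h3
  have h3 : Real.sqrt D / 4 ≤ (D : ℝ) / d := by
    rw [div_le_div_iff₀ (by norm_num) hd0]
    nlinarith
  have h4 : Real.sqrt D / 8 ≤ ((D / d : ℕ) : ℝ) := by linarith
  refine ⟨h4, h1, ?_⟩
  have h5 : (1 : ℝ) ≤ ((D / d : ℕ) : ℝ) := by linarith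
  exact_mod_cast h5

/-- ROW V1 (type I sums).  `C = A + 2`.  For `k ≥ 1` the condition `D < d k` means `D / d < k` (natural division), so
with `A₁ = D / d` the sum is `∑_{k ∈ Ioc A₁ t} e((T/d)/k)` if `t ≥ A₁` (empty otherwise), `t ≤ 4D/d ≤ 8 A₁`
(`d ≤ 4√D` implies `A₁ ≥ √D/8 ≥ 1`, and `4D/d < 4(A₁+1) ≤ 8A₁`).  `ES` applies with `A₁` (`D^(1/5) ≤ A₁ ≤ 4D`), `T/d`
(`|T/d| ≤ T₁`):
norm `≤ A₁/(log D)^C + 144 A₁² d/|T| ≤ D/(d (log D)^C) + 144 D²/(d |T|) ≤ 145 D/(d (log D)^C) < 4D/(d (log 4D)^A)` for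
large `D` (`log 4D ≤ 2 log D`; `145 · 2^A < 4 (log D)^2`). -/
theorem typeI (A : ℕ) : ∃ C N₀ : ℕ, ∀ D : ℕ, N₀ ≤ D → ∀ T T₁ : ℝ,
    ES ((D : ℝ) ^ (1 / 5 : ℝ)) (4 * D) (Real.log D ^ C) T₁ → D * Real.log D ^ C ≤ |T| → |T| ≤ T₁ →
    ∀ d t : ℕ, 1 ≤ d → (d : ℝ) ≤ 4 * Real.sqrt D → t ≤ 4 * D / d →
      ‖∑ k ∈ Icc 1 t, ph D T (d * k)‖ < ((4 * D : ℕ) : ℝ) / (d * Real.log ((4 * D : ℕ) : ℝ) ^ A) := by
  refine ⟨A + 2, max 1024 ⌈Real.exp (145 * 2 ^ A)⌉₊, ?_⟩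
  intro D hD T T₁ hES hT hT1 d t hd hd2 ht
  have hD1 : 1024 ≤ D := (le_max_left _ _).trans hD
  have hDr : (1024 : ℝ) ≤ D := by exact_mod_cast hD1
  have hD0 : (0 : ℝ) < D := by linarith
  have hd0 : (0 : ℝ) < d := by exact_mod_cast hd
  set L : ℝ := Real.log D with hL
  have hLbig : 145 * 2 ^ A ≤ L := by
    rw [hL, Real.le_log_iff_exp_le hD0]
    exact (Nat.le_ceil _).trans (by exact_mod_cast (le_max_right _ _).trans hD)
  have h2A : (1 : ℝ) ≤ 2 ^ A := one_le_pow₀ (by norm_num)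
  have hL1 : 1 ≤ L := by linarith
  have hL0 : 0 < L := by linarith
  set L4 : ℝ := Real.log ((4 * D : ℕ) : ℝ) with hL4
  have hL4_0 : 0 < L4 := by
    rw [hL4]
    apply Real.log_pos
    push_cast
    linarith
  have hL4_le : L4 ≤ 2 * L := by
    have h1 : (((4 * D : ℕ) : ℝ)) ≤ (D : ℝ) ^ 2 := by
      push_cast
      nlinarith
    calc L4 ≤ Real.log ((D : ℝ) ^ 2) := Real.log_le_log (by push_cast; linarith) h1
      _ = 2 * L := by rw [Real.log_pow, hL]; norm_num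
  have hLC : 0 < L ^ (A + 2) := by positivity
  have hT0 : 0 < |T| := lt_of_lt_of_le (by positivity) hT
  have hrhs : 0 < ((4 * D : ℕ) : ℝ) / (d * L4 ^ A) := by
    have : (0 : ℝ) < ((4 * D : ℕ) : ℝ) := by push_cast; linarith
    positivity
  rw [v1_sum D T d t hd]
  obtain ⟨hA1, hA2, hA3⟩ := v1_A hD1 hd hd2
  rcases le_or_gt t (D / d) with htA | htA
  · rw [Finset.Ioc_eq_empty (by omega), Finset.sum_empty, norm_zero]
    exact hrhs
  · have ht8 : t ≤ 8 * (D / d) := by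
      have h1 : 4 * D < 4 * (D / d + 1) * d := by
        have h2 := Nat.lt_div_mul_add hd (a := D)
        have h3 : 4 * (D / d + 1) * d = 4 * (D / d * d + d) := by ring
        rw [h3]
        omega
      have h4 : 4 * D / d < 4 * (D / d + 1) := (Nat.div_lt_iff_lt_mul hd).mpr h1
      omega
    have hTd : |T / (d : ℝ)| = |T| / d := by rw [abs_div, abs_of_pos hd0]
    have hd1 : (1 : ℝ) ≤ d := by exact_mod_cast hd
    have hmain := hES (D / d) (D / d) t ((v1_pow hD1).trans hA1)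
      (hA2.trans (by
        rw [div_le_iff₀ hd0]
        nlinarith)) le_rfl htA.le ht8 (T / d) (by rw [hTd]; positivity)
      (by
        rw [hTd]
        exact (div_le_self hT0.le hd1).trans hT1)
    refine lt_of_le_of_lt hmain ?_
    rw [hTd]
    have hAn : (0 : ℝ) ≤ ((D / d : ℕ) : ℝ) := Nat.cast_nonneg _
    have b1 : ((D / d : ℕ) : ℝ) / L ^ (A + 2) ≤ D / (d * L ^ (A + 2)) := by
      rw [← div_div]
      exact div_le_div_of_nonneg_right hA2 hLC.le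
    have b2 : 144 * ((D / d : ℕ) : ℝ) ^ 2 / (|T| / d) ≤ 144 * (D / (d * L ^ (A + 2))) := by
      have h1 : ((D / d : ℕ) : ℝ) ^ 2 ≤ ((D : ℝ) / d) ^ 2 := pow_le_pow_left₀ hAn hA2 2
      have h2 : (D : ℝ) * L ^ (A + 2) / d ≤ |T| / d := div_le_div_of_nonneg_right hT hd0.le
      calc 144 * ((D / d : ℕ) : ℝ) ^ 2 / (|T| / d) ≤ 144 * ((D : ℝ) / d) ^ 2 / ((D : ℝ) * L ^ (A + 2) / d) := by
            apply div_le_div₀ (by positivity) (by linarith) (by positivity) h2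
        _ = 144 * (D / (d * L ^ (A + 2))) := by
            field_simp
    have b3 : 145 * (D / (d * L ^ (A + 2))) < ((4 * D : ℕ) : ℝ) / (d * L4 ^ A) := by
      have h1 : L4 ^ A ≤ (2 * L) ^ A := pow_le_pow_left₀ hL4_0.le hL4_le A
      have h2 : 145 * L4 ^ A < 4 * L ^ (A + 2) := by
        calc 145 * L4 ^ A ≤ 145 * (2 * L) ^ A := by linarith
          _ = (145 * 2 ^ A) * L ^ A := by rw [mul_pow]; ring
          _ ≤ L * L ^ A := mul_le_mul_of_nonneg_right hLbig (by positivity)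
          _ < 4 * (L ^ 2) * L ^ A := by
              apply mul_lt_mul_of_pos_right _ (by positivity)
              nlinarith
          _ = 4 * L ^ (A + 2) := by ring
      have h3 : (0 : ℝ) < d * L ^ (A + 2) := by positivity
      have h4 : (0 : ℝ) < d * L4 ^ A := by positivity
      rw [← mul_div_assoc, div_lt_div_iff₀ h3 h4]
      push_cast
      have h5 : (0 : ℝ) < D * d := by positivity
      calc 145 * (D : ℝ) * (d * L4 ^ A) = (D * d) * (145 * L4 ^ A) := by ring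
        _ < (D * d) * (4 * L ^ (A + 2)) := mul_lt_mul_of_pos_left h2 h5
        _ = 4 * (D : ℝ) * (d * L ^ (A + 2)) := by ring
    linarith

end Pool.Agent.Lib.MP_4ae430_nt
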