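import Pool.Agent.Lib.MP_4ae430_nt.Defs

/-! Row V2a (about 110 lines). -/

set_option autoImplicit false

namespace Pool.Agent.Lib.MP_4ae430_nt

open Finset
open Pool.Agent.Lib.MP_d9bc60_nt.UV (e vm nn PS dicho)

/-- ROW V2a.  One inner sum.  For `k, k' ∈ (K, 2K]`, `k ≠ k'`: the product `ph(mk) conj ph(mk')` is
`e(T'/m)`, `T' = T/k - T/k'` (`e_sub`), if `D < mk`, `D < mk'`, and `0` otherwise; the set of admissible `m` is the
interval `Ioc u v`, `u = max M (max (D/k) (D/k'))`, `v = min (2M) (min (N/k) (N/k'))` (empty if `v < u`).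
`0 < |T'| = |T| |k-k'|/(k k') ≤ |T|`, `|T'| ≥ |T| |k - k'|/(4K²)`.  `ES` with `A := M` gives the claim. -/
theorem inner_le (D N M K : ℕ) (T a₀ a₁ Z T₁ : ℝ) (hES : ES a₀ a₁ Z T₁) (hT0 : 0 < |T|) (hT : |T| ≤ T₁)
    (h0 : a₀ ≤ M) (h1 : (M : ℝ) ≤ a₁) (hZ : 0 < Z) (k k' : ℕ) (hk : k ∈ Ioc K (2 * K)) (hk' : k' ∈ Ioc K (2 * K))
    (hne : k ≠ k') :
    ‖∑ m ∈ (Ioc M (2 * M)).filter (fun m => m * k ≤ N ∧ m * k' ≤ N),
      ph D T (m * k) * (starRingEnd ℂ) (ph D T (m * k'))‖ ≤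
      M / Z + 576 * (M : ℝ) ^ 2 * K ^ 2 / (|T| * |(k : ℝ) - k'|) := by
  rw [Finset.mem_Ioc] at hk hk'
  have hk0 : 0 < k := by omega
  have hk0' : 0 < k' := by omega
  have hkR : (0 : ℝ) < k := by exact_mod_cast hk0
  have hkR' : (0 : ℝ) < k' := by exact_mod_cast hk0'
  have hneR : (k : ℝ) - k' ≠ 0 := by
    intro h
    exact hne (by exact_mod_cast sub_eq_zero.1 h)
  have hkk : 0 < |(k : ℝ) - k'| := abs_pos.2 hneR
  obtain ⟨T', hT'⟩ : ∃ T', T' = T / k - T / k' := ⟨_, rfl⟩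
  have hT'abs : |T'| = |T| * |(k : ℝ) - k'| / (k * k') := by
    have h2 : T' = T * (k' - k) / (k * k') := by
      rw [hT']
      field_simp
    rw [h2, abs_div, abs_mul, abs_mul, abs_of_pos hkR, abs_of_pos hkR', abs_sub_comm]
  have hT'0 : 0 < |T'| := by
    rw [hT'abs]
    positivity
  have hT'1 : |T'| ≤ T₁ := by
    refine le_trans ?_ hT
    rw [hT'abs, div_le_iff₀ (by positivity)]
    refine mul_le_mul_of_nonneg_left ?_ hT0.le
    have h2 : |(k : ℝ) - k'| ≤ K := by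
      have a1 : (k : ℝ) ≤ 2 * K := by exact_mod_cast hk.2
      have a2 : (k' : ℝ) ≤ 2 * K := by exact_mod_cast hk'.2
      have a3 : (K : ℝ) ≤ k := by exact_mod_cast hk.1.le
      have a4 : (K : ℝ) ≤ k' := by exact_mod_cast hk'.1.le
      rw [abs_le]
      constructor <;> linarith
    have h3 : (K : ℝ) ≤ k := by exact_mod_cast hk.1.le
    have h4 : (1 : ℝ) ≤ k' := by exact_mod_cast hk0'
    have h5 : (k : ℝ) * 1 ≤ k * k' := mul_le_mul_of_nonneg_left h4 hkR.le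
    linarith
  -- the sum as a sum over an interval
  obtain ⟨u, hu⟩ : ∃ u, u = max M (max (D / k) (D / k')) := ⟨_, rfl⟩
  obtain ⟨v, hv⟩ : ∃ v, v = min (2 * M) (min (N / k) (N / k')) := ⟨_, rfl⟩
  have hsum : ∑ m ∈ (Ioc M (2 * M)).filter (fun m => m * k ≤ N ∧ m * k' ≤ N),
      ph D T (m * k) * (starRingEnd ℂ) (ph D T (m * k')) = ∑ m ∈ Ioc u v, e (T' / m) := by
    have hsub : Ioc u v ⊆ (Ioc M (2 * M)).filter (fun m => m * k ≤ N ∧ m * k' ≤ N) := by
      intro m hm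
      rw [Finset.mem_Ioc, hu, hv, max_lt_iff, max_lt_iff, le_min_iff, le_min_iff, Nat.le_div_iff_mul_le hk0,
        Nat.le_div_iff_mul_le hk0'] at hm
      rw [Finset.mem_filter, Finset.mem_Ioc]
      exact ⟨⟨hm.1.1, hm.2.1⟩, hm.2.2⟩
    rw [← Finset.sum_subset hsub]
    · refine Finset.sum_congr rfl fun m hm => ?_
      rw [Finset.mem_Ioc, hu, max_lt_iff, max_lt_iff, Nat.div_lt_iff_lt_mul hk0,
        Nat.div_lt_iff_lt_mul hk0'] at hm
      obtain ⟨⟨g1, g2, g3⟩, -⟩ := hm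
      have hm0 : 0 < m := by omega
      have hmR : (0 : ℝ) < m := by exact_mod_cast hm0
      unfold ph
      rw [if_pos g2, if_pos g3, ← Pool.Agent.Lib.MP_d9bc60_nt.UV.e_sub]
      congr 1
      rw [hT']
      push_cast
      field_simp
    · intro m hm hm'
      rw [Finset.mem_filter, Finset.mem_Ioc] at hm
      rw [Finset.mem_Ioc, hu, hv, max_lt_iff, max_lt_iff, le_min_iff, le_min_iff, Nat.le_div_iff_mul_le hk0,
        Nat.le_div_iff_mul_le hk0', Nat.div_lt_iff_lt_mul hk0, Nat.div_lt_iff_lt_mul hk0'] at hm'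
      by_cases g2 : D < m * k
      · by_cases g3 : D < m * k'
        · exact absurd ⟨⟨hm.1.1, g2, g3⟩, hm.1.2, hm.2⟩ hm'
        · unfold ph
          rw [if_neg g3, map_zero, mul_zero]
      · unfold ph
        rw [if_neg g2, zero_mul]
  rw [hsum]
  have hpos : 0 ≤ (M : ℝ) / Z + 576 * (M : ℝ) ^ 2 * K ^ 2 / (|T| * |(k : ℝ) - k'|) := by positivity
  by_cases huv : u ≤ v
  · have hMu : M ≤ u := by rw [hu]; exact le_max_left _ _
    have hv8 : v ≤ 8 * M := by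
      have : v ≤ 2 * M := by rw [hv]; exact min_le_left _ _
      omega
    refine (hES M u v h0 h1 hMu huv hv8 T' hT'0 hT'1).trans ?_
    have h2 : 144 * (M : ℝ) ^ 2 / |T'| ≤ 576 * (M : ℝ) ^ 2 * K ^ 2 / (|T| * |(k : ℝ) - k'|) := by
      rw [hT'abs, div_div_eq_mul_div]
      refine div_le_div_of_nonneg_right ?_ (by positivity)
      have a1 : (k : ℝ) ≤ 2 * K := by exact_mod_cast hk.2
      have a2 : (k' : ℝ) ≤ 2 * K := by exact_mod_cast hk'.2
      have a3 : (k : ℝ) * k' ≤ (2 * K) * (2 * K) := mul_le_mul a1 a2 hkR'.le (by positivity)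
      calc 144 * (M : ℝ) ^ 2 * (k * k') ≤ 144 * (M : ℝ) ^ 2 * ((2 * K) * (2 * K)) :=
            mul_le_mul_of_nonneg_left a3 (by positivity)
        _ = 576 * (M : ℝ) ^ 2 * K ^ 2 := by ring
    linarith
  · rw [Finset.Ioc_eq_empty (by omega), Finset.sum_empty, norm_zero]
    exact hpos

end Pool.Agent.Lib.MP_4ae430_nt
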