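import Pool.Agent.Lib.MP_4ae430_nt.V2a

/-! Row V2b (about 110 lines). -/

set_option autoImplicit false

namespace Pool.Agent.Lib.MP_4ae430_nt

open Finset
open Pool.Agent.Lib.MP_d9bc60_nt.UV (e vm nn PS dicho)

private lemma v2b_harm (n : ℕ) : ∑ d ∈ Icc 1 n, ((d : ℝ))⁻¹ ≤ 1 + Real.log n := by
  have h1 := harmonic_le_one_add_log n
  rw [harmonic_eq_sum_Icc] at h1
  push_cast at h1
  exact h1

private lemma v2b_side (K : ℕ) (S : Finset ℕ) (f : ℕ → ℕ) (hinj : Set.InjOn f S)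
    (hf : ∀ x ∈ S, f x ∈ Icc 1 K) : ∑ x ∈ S, ((f x : ℕ) : ℝ)⁻¹ ≤ 1 + Real.log K := by
  classical
  refine le_trans ?_ (v2b_harm K)
  rw [← Finset.sum_image (f := fun d : ℕ => ((d : ℝ))⁻¹) hinj]
  refine Finset.sum_le_sum_of_subset_of_nonneg ?_ fun i _ _ => by positivity
  intro y hy
  obtain ⟨x, hx, rfl⟩ := Finset.mem_image.1 hy
  exact hf x hx

private lemma v2b_dist (K k : ℕ) (hk : k ∈ Ioc K (2 * K)) :
    ∑ k' ∈ Ioc K (2 * K), (|(k : ℝ) - k'|)⁻¹ ≤ 2 * (1 + Real.log K) := by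
  classical
  have hk' := Finset.mem_Ioc.1 hk
  rw [← Finset.sum_filter_add_sum_filter_not (Ioc K (2 * K)) (fun k' => k' < k)]
  rw [← Finset.sum_filter_add_sum_filter_not ((Ioc K (2 * K)).filter (fun k' => ¬ k' < k)) (fun k' => k < k')]
  have h1 : ∑ k' ∈ (Ioc K (2 * K)).filter (fun k' => k' < k), (|(k : ℝ) - k'|)⁻¹ ≤ 1 + Real.log K := by
    refine le_trans (le_of_eq ?_) (v2b_side K ((Ioc K (2 * K)).filter (fun k' => k' < k)) (fun k' => k - k') ?_ ?_)
    · refine Finset.sum_congr rfl fun k' hk2 => ?_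
      have h := (Finset.mem_filter.1 hk2).2
      rw [Nat.cast_sub h.le, abs_of_nonneg]
      have : (k' : ℝ) ≤ k := by exact_mod_cast h.le
      linarith
    · intro x hx y hy hxy
      have h3 := (Finset.mem_filter.1 hx).2
      have h4 := (Finset.mem_filter.1 hy).2
      simp only at hxy
      omega
    · intro x hx
      have h3 := Finset.mem_filter.1 hx
      have h4 := Finset.mem_Ioc.1 h3.1
      rw [Finset.mem_Icc]
      omega
  have h2 : ∑ k' ∈ ((Ioc K (2 * K)).filter (fun k' => ¬ k' < k)).filter (fun k' => k < k'),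
      (|(k : ℝ) - k'|)⁻¹ ≤ 1 + Real.log K := by
    refine le_trans (le_of_eq ?_) (v2b_side K (((Ioc K (2 * K)).filter (fun k' => ¬ k' < k)).filter
      (fun k' => k < k')) (fun k' => k' - k) ?_ ?_)
    · refine Finset.sum_congr rfl fun k' hk2 => ?_
      have h := (Finset.mem_filter.1 hk2).2
      rw [Nat.cast_sub h.le, abs_of_nonpos]
      · ring
      have : (k : ℝ) ≤ k' := by exact_mod_cast h.le
      linarith
    · intro x hx y hy hxy
      have h3 := (Finset.mem_filter.1 hx).2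
      have h4 := (Finset.mem_filter.1 hy).2
      simp only at hxy
      omega
    · intro x hx
      have h5 := Finset.mem_filter.1 hx
      have h3 := Finset.mem_filter.1 h5.1
      have h4 := Finset.mem_Ioc.1 h3.1
      have h6 := h5.2
      rw [Finset.mem_Icc]
      omega
  have h3 : ∑ k' ∈ ((Ioc K (2 * K)).filter (fun k' => ¬ k' < k)).filter (fun k' => ¬ k < k'),
      (|(k : ℝ) - k'|)⁻¹ ≤ 0 := by
    refine le_of_eq (Finset.sum_eq_zero fun k' hk2 => ?_)
    have h5 := Finset.mem_filter.1 hk2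
    have h6 := (Finset.mem_filter.1 h5.1).2
    have h7 : k' = k := by have := h5.2; omega
    rw [h7]
    simp
  linarith

/-- ROW V2b.  Sum over `k, k'`: the diagonal contributes `≤ K M`, the rest
`≤ K² M/Z + 576 M² K²/|T| ∑_{k ≠ k'} 1/|k-k'|`, and `∑_{k' ≠ k, k' ∈ (K,2K]} 1/|k-k'| ≤ 2(1 + log K)`
(`harmonic_le_one_add_log`, see `u4_harm` in UV/PVaughan.lean). -/
theorem PS_le (D N M K : ℕ) (T a₀ a₁ Z T₁ : ℝ) (hES : ES a₀ a₁ Z T₁) (hT0 : 0 < |T|) (hT : |T| ≤ T₁)
    (h0 : a₀ ≤ M) (h1 : (M : ℝ) ≤ a₁) (hZ : 0 < Z) (hK : 1 ≤ K) :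
    PS (ph D T) M K N ≤ K * M + K ^ 2 * M / Z + 1152 * (M : ℝ) ^ 2 * K ^ 3 * (1 + Real.log K) / |T| := by
  classical
  have hcard : (Ioc K (2 * K)).card = K := by rw [Nat.card_Ioc]; omega
  have hph : ∀ n, ‖ph D T n‖ ≤ 1 := by
    intro n
    unfold ph
    split_ifs
    · exact le_of_eq (Pool.Agent.Lib.MP_d9bc60_nt.UV.norm_e _)
    · simp
  have hrow : ∀ k ∈ Ioc K (2 * K), ∑ k' ∈ Ioc K (2 * K),
      ‖∑ m ∈ (Ioc M (2 * M)).filter (fun m => m * k ≤ N ∧ m * k' ≤ N),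
        ph D T (m * k) * (starRingEnd ℂ) (ph D T (m * k'))‖ ≤
      M + K * (M / Z) + 576 * (M : ℝ) ^ 2 * K ^ 2 / |T| * (2 * (1 + Real.log K)) := by
    intro k hk
    have hterm : ∀ k' ∈ Ioc K (2 * K),
        ‖∑ m ∈ (Ioc M (2 * M)).filter (fun m => m * k ≤ N ∧ m * k' ≤ N),
          ph D T (m * k) * (starRingEnd ℂ) (ph D T (m * k'))‖ ≤
        (if k' = k then (M : ℝ) else 0) + M / Z +
          576 * (M : ℝ) ^ 2 * K ^ 2 / |T| * (|(k : ℝ) - k'|)⁻¹ := by
      intro k' hk'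
      by_cases hkk : k' = k
      · rw [if_pos hkk]
        have hA : ‖∑ m ∈ (Ioc M (2 * M)).filter (fun m => m * k ≤ N ∧ m * k' ≤ N),
            ph D T (m * k) * (starRingEnd ℂ) (ph D T (m * k'))‖ ≤ M := by
          refine (norm_sum_le _ _).trans ?_
          refine (Finset.sum_le_sum (g := fun _ : ℕ => (1 : ℝ)) fun m _ => ?_).trans ?_
          · rw [norm_mul, RCLike.norm_conj]
            exact mul_le_one₀ (hph _) (norm_nonneg _) (hph _)
          · rw [Finset.sum_const, nsmul_eq_mul, mul_one]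
            have h2 := Finset.card_filter_le (Ioc M (2 * M)) (fun m => m * k ≤ N ∧ m * k' ≤ N)
            rw [Nat.card_Ioc] at h2
            exact_mod_cast h2.trans (by omega)
        have hB : 0 ≤ (M : ℝ) / Z := by positivity
        have hC : 0 ≤ 576 * (M : ℝ) ^ 2 * K ^ 2 / |T| * (|(k : ℝ) - k'|)⁻¹ := by positivity
        linarith
      · rw [if_neg hkk]
        have h := inner_le D N M K T a₀ a₁ Z T₁ hES hT0 hT h0 h1 hZ k k' hk hk' (fun h => hkk h.symm)
        refine h.trans (le_of_eq ?_)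
        rw [zero_add, ← div_div, div_eq_mul_inv (_ / |T|)]
    refine (Finset.sum_le_sum hterm).trans ?_
    rw [Finset.sum_add_distrib, Finset.sum_add_distrib, Finset.sum_ite_eq', if_pos hk, Finset.sum_const,
      hcard, nsmul_eq_mul, ← Finset.mul_sum]
    have h2 := mul_le_mul_of_nonneg_left (v2b_dist K k hk)
      (show 0 ≤ 576 * (M : ℝ) ^ 2 * K ^ 2 / |T| by positivity)
    linarith
  unfold PS
  refine (Finset.sum_le_sum hrow).trans ?_
  rw [Finset.sum_const, hcard, nsmul_eq_mul]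
  refine le_of_eq ?_
  ring

end Pool.Agent.Lib.MP_4ae430_nt
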